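import Pool.Agent.H93.HM.Ref

/-!
Decomposition of a set in `HOD` into few pieces in `HOD` whose stationary members cannot be split
in `HOD`.
-/

set_option autoImplicit false
set_option linter.unusedVariables false

namespace Pool.Agent.H93.HM

open ZFSet Gss969 Pool.Agent.H310.HD

universe u

/-- `A` is a stationary subset of `l` in `HOD` which is not the union of two disjoint stationary
sets in `HOD`. -/
def Atom (l : Ordinal.{u}) (A : ZFSet.{u}) : Prop :=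
  HOD A ∧ A ⊆ l.toZFSet ∧ StatL {α | α.toZFSet ∈ A} l ∧
    ∀ Y, HOD Y → ¬ (StatL {α | α.toZFSet ∈ A ∧ α.toZFSet ∈ Y} l ∧
      StatL {α | α.toZFSet ∈ A ∧ α.toZFSet ∉ Y} l)

/-- `g` is a sequence of length `k` of pairwise disjoint stationary subsets of `l`, contained in
`S`. -/
def DisjFam (k l S g : ZFSet.{u}) : Prop :=
  IsFunc k (powerset l) g ∧
  (∀ i ∈ k, ∀ A, A ⊆ l → pair i A ∈ g → Stat A l ∧ A ⊆ S) ∧
  ∀ i ∈ k, ∀ i' ∈ k, ∀ A, A ⊆ l → ∀ A', A' ⊆ l → pair i A ∈ g → pair i' A' ∈ g →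
    (∃ a ∈ A, a ∈ A') → i = i'

section equiv

variable {L S U e : ZFSet.{u}}

theorem rsq_refl (hS : S ⊆ L) {γ : Ordinal.{u}} {a : ZFSet.{u}} (ha : a ∈ S) :
    pair a a ∈ rsq L S U e γ := (mem_rsq hS).2 ⟨ha, ha, fun _ _ _ _ _ => Iff.rfl⟩

theorem rsq_symm (hS : S ⊆ L) {γ : Ordinal.{u}} {a b : ZFSet.{u}}
    (h : pair a b ∈ rsq L S U e γ) : pair b a ∈ rsq L S U e γ := by
  rw [mem_rsq hS] at h ⊢
  exact ⟨h.2.1, h.1, fun γ' h1 Y hY hd => (h.2.2 γ' h1 Y hY hd).symm⟩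

theorem rsq_trans (hS : S ⊆ L) {γ : Ordinal.{u}} {a b c : ZFSet.{u}}
    (h : pair a b ∈ rsq L S U e γ) (h' : pair b c ∈ rsq L S U e γ) :
    pair a c ∈ rsq L S U e γ := by
  rw [mem_rsq hS] at h h' ⊢
  exact ⟨h.1, h'.2.1, fun γ' h1 Y hY hd => (h.2.2 γ' h1 Y hY hd).trans (h'.2.2 γ' h1 Y hY hd)⟩

theorem rsq_anti (hS : S ⊆ L) {γ γ' : Ordinal.{u}} (hγ : γ ≤ γ') {a b : ZFSet.{u}}
    (h : pair a b ∈ rsq L S U e γ') : pair a b ∈ rsq L S U e γ := by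
  rw [mem_rsq hS] at h ⊢
  exact ⟨h.1, h.2.1, fun γ'' h1 Y hY hd => h.2.2 γ'' (h1.trans_le hγ) Y hY hd⟩

/-- There are few classes. -/
theorem rsq_few (hS : S ⊆ L) {c : Cardinal.{u}} (hc : Cardinal.aleph0 ≤ c) {γ : Ordinal.{u}}
    (hγ : γ ≤ c.ord) : ∃ f : Ordinal.{u} → Ordinal.{u}, (∀ α, f α < ((2 : Cardinal.{u}) ^ c).ord) ∧
      ∀ α β : Ordinal.{u}, α.toZFSet ∈ S → β.toZFSet ∈ S → f α = f β →
        pair α.toZFSet β.toZFSet ∈ rsq L S U e γ := by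
  classical
  have hE := fun γ' : Ordinal.{u} => exists_enumP U (pair (rsq L S U e γ') e)
  choose E hE using hE
  let F : Ordinal.{u} → Set (Set.Iio γ × ℕ) := fun α => {p | α.toZFSet ∈ E p.1.1 p.2}
  have h1 : Cardinal.mk (Set (Set.Iio γ × ℕ)) ≤
      Cardinal.mk (Set.Iio (((2 : Cardinal.{u}) ^ c).ord)) := by
    rw [Cardinal.mk_set, Cardinal.mk_prod, Cardinal.mk_Iio_ordinal, Cardinal.mk_Iio_ordinal,
      Cardinal.card_ord, Cardinal.lift_power, Cardinal.lift_two]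
    refine Cardinal.power_le_power_left two_ne_zero ?_
    have h2 : γ.card ≤ c := by
      have := Ordinal.card_le_card hγ
      rwa [Cardinal.card_ord] at this
    have h3 : Cardinal.aleph0 ≤ Cardinal.lift.{u + 1} c := by
      rw [Cardinal.aleph0_le_lift]; exact hc
    refine (Cardinal.mul_le_max_of_aleph0_le_right ?_).trans (max_le ?_ ?_)
    · simp
    · rw [Cardinal.lift_lift]
      exact Cardinal.lift_le.2 h2
    · simpa using h3
  obtain ⟨j⟩ := h1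
  refine ⟨fun α => (j (F α)).1, fun α => (j (F α)).2, fun α β hα hβ h => ?_⟩
  have h2 : F α = F β := j.injective (Subtype.ext h)
  rw [mem_rsq hS]
  refine ⟨hα, hβ, fun γ' hγ' Y hY hd => ?_⟩
  obtain ⟨n, rfl⟩ := hE γ' Y hd
  have h3 : ((⟨⟨γ', hγ'⟩, n⟩ : Set.Iio γ × ℕ) ∈ F α) ↔
      ((⟨⟨γ', hγ'⟩, n⟩ : Set.Iio γ × ℕ) ∈ F β) := by rw [h2]
  exact h3

end equiv

end Pool.Agent.H93.HM
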