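import Pool.Graph.R_pool_sql_team_seeded_2aa45f1a.Results.MP_e37c09_lc.AlternativeA

/-!
Levels of the hierarchy which are correct about `HOD`, and closure of `OD` and `HOD` under
definitions in which `HOD` is used as a predicate.
-/

set_option autoImplicit false
set_option linter.unusedVariables false

namespace Pool.Agent.H93.HM

open ZFSet Gss969 Pool.Agent.H310.HD

universe u

/-- The levels in which membership in `HOD` is correct. -/
def Gd : Set ZFSet.{u} := {U | U ∈ Lvl.{u} ∧ ∀ x ∈ U, HOD x → ∃ W ∈ U, HODin W x}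

theorem Gd_Lvl : Gd.{u} ⊆ Lvl := fun _ h => h.1

theorem Gd_Trs : Gd.{u} ⊆ Trs := fun _ h => Lvl_sub_Trs h.1

theorem exists_Gd (ξ : Ordinal.{u}) : ∃ ζ : Ordinal.{u}, ξ < ζ ∧ V_ ζ ∈ Gd.{u} := by
  have hst := fun β : Ordinal.{u} => stab (V_ β)
  choose B hB using hst
  choose N hN1 hN2 hN3 using exists_limit_gt.{u}
  let G : ℕ → Ordinal.{u} := fun n => Nat.rec ξ (fun _ γ => N (max γ (B γ))) n
  have hG : ∀ n, max (G n) (B (G n)) < G (n + 1) := fun n => hN1 _
  obtain ⟨ζ, hζ⟩ : ∃ ζ : Ordinal.{u}, ζ = ⨆ n : ULift.{u} ℕ, G n.down := ⟨_, rfl⟩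
  have hle : ∀ n, G n < ζ := by
    intro n
    rw [hζ]
    exact ((le_max_left _ _).trans_lt (hG n)).trans_le
      (Ordinal.le_iSup (fun n : ULift.{u} ℕ => G n.down) ⟨n + 1⟩)
  have hun : ∀ x < ζ, ∃ n, x < G n := by
    intro x hx
    by_contra hcon
    push Not at hcon
    rw [hζ] at hx
    exact absurd hx (not_lt.2 (Ordinal.iSup_le fun n => hcon n.down))
  refine ⟨ζ, hle 0, ⟨ζ, ?_, (hN2 _).trans (hle 1), rfl⟩, ?_⟩
  · rw [Order.isSuccLimit_iff, Order.isSuccPrelimit_iff_succ_lt]
    refine ⟨?_, ?_⟩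
    · intro hm
      rw [isMin_iff_eq_bot] at hm
      have := hle 0
      rw [hm] at this
      exact absurd this (by simp)
    · intro x hx
      obtain ⟨n, hn⟩ := hun x hx
      exact ((Order.succ_le_of_lt hn).trans_lt ((le_max_left _ _).trans_lt (hG n))).trans
        (hle (n + 1))
  · intro x hx h
    obtain ⟨n, hn⟩ := hun _ (mem_vonNeumann.1 hx)
    refine ⟨V_ (G (n + 1)), vonNeumann_mem_vonNeumann_iff.2 (hle (n + 1)), ?_⟩
    exact hB (G n) _ ((le_max_right _ _).trans (hG n).le) x (mem_vonNeumann.2 hn) h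

theorem dfn_HOD (i : ℕ) : Dfn Gd.{u} (fun v => HOD (v i)) := by
  refine Dfn.congr (A := fun v => ∃ W, HODin W (v i)) (Dfn.ex ?_ ?_) fun v => ?_
  · exact (dfn_HODin _ _).mono Gd_Lvl
  · rintro U hU v hv ⟨W, hW⟩
    exact hU.2 _ (hv i) hW.hod
  · constructor
    · rintro ⟨W, hW⟩
      exact hW.hod
    · intro h
      obtain ⟨β, hβ⟩ := h.eventually
      exact ⟨V_ β, hβ β le_rfl⟩

/-- Definitions with ordinal parameters. -/
theorem OD_of_ord {R : ZFSet.{u} → (ℕ → ZFSet.{u}) → Prop}
    (hR : Dfn Gd.{u} (fun v => R (v 0) (fun n => v (n + 1)))) {x : ℕ → ZFSet.{u}}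
    (hx : ∀ i, (x i).IsOrdinal) {y : ZFSet.{u}} (hy : ∀ y', R y' x ↔ y' = y) : OD y := by
  obtain ⟨φ, hφ⟩ := hR (fun n => 2 * n) (by
    refine Set.infinite_of_injective_forall_mem (f := fun n : ℕ => 2 * n + 1) ?_ ?_
    · intro a b hab; simpa using hab
    · rintro n ⟨m, hm⟩
      simp only at hm
      omega)
  obtain ⟨β, hβ, hU⟩ := exists_Gd (max (rank y) (⨆ i : ULift.{u} ℕ, rank (x i.down)))
  have hxβ : ∀ i, x i ∈ V_ β := fun i => by
    rw [mem_vonNeumann]
    refine lt_of_le_of_lt ?_ ((le_max_right _ _).trans_lt hβ)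
    exact Ordinal.le_iSup (fun i : ULift.{u} ℕ => rank (x i.down)) ⟨i⟩
  have hyβ : y ∈ V_ β := mem_vonNeumann.2 ((le_max_left _ _).trans_lt hβ)
  let w : ℕ → ZFSet.{u} := fun n => Nat.casesOn n (x 0) x
  have hw : ∀ i, w i ∈ V_ β ∧ (w i).IsOrdinal := by
    intro i
    rcases i with _ | i
    · exact ⟨hxβ 0, hx 0⟩
    · exact ⟨hxβ i, hx i⟩
  refine ⟨β, φ, fun n => w (n / 2), fun i => hw _, hyβ, fun y' hy' => ?_⟩
  have hin : ∀ i, Function.update (fun n => w (n / 2)) 0 y' i ∈ V_ β := by
    intro i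
    by_cases hi : i = 0
    · subst hi; simpa using hy'
    · rw [Function.update_of_ne hi]; exact (hw _).1
  rw [hφ (V_ β) hU _ hin]
  have e : (fun i => Function.update (fun n => w (n / 2)) 0 y' (2 * i)) =
      fun n => Nat.casesOn n y' x := by
    funext i
    rcases i with _ | i
    · simp
    · rw [Function.update_of_ne (by omega)]
      show w (2 * (i + 1) / 2) = x i
      rw [show 2 * (i + 1) / 2 = i + 1 by omega]
  rw [e]
  exact hy y'

/-- Elimination of the parameters which are not ordinals. -/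
theorem OD_of_aux (N : ℕ) : ∀ {R : ZFSet.{u} → (ℕ → ZFSet.{u}) → (ℕ → ZFSet.{u}) → Prop},
    Dfn Gd.{u} (fun v => R (v 0) (fun n => v (2 * n + 1)) (fun n => v (2 * n + 2))) →
    ∀ {a o : ℕ → ZFSet.{u}}, (∀ i < N, OD (a i)) → (∀ i ≥ N, a i = ∅) →
    (∀ i, (o i).IsOrdinal) → ∀ {y : ZFSet.{u}}, (∀ y', R y' a o ↔ y' = y) → OD y := by
  induction N with
  | zero =>
    intro R hR a o _ ha ho y hy
    refine OD_of_ord (R := fun y x => R y (fun n => x (2 * n)) (fun n => x (2 * n + 1)))
      (x := fun n => if n % 2 = 0 then ∅ else o (n / 2)) ?_ (fun i => ?_) fun y' => ?_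
    · exact hR
    · show (if i % 2 = 0 then ∅ else o (i / 2)).IsOrdinal
      split_ifs
      · exact empty_ord
      · exact ho _
    · show R y' (fun n => if (2 * n) % 2 = 0 then ∅ else o (2 * n / 2))
        (fun n => if (2 * n + 1) % 2 = 0 then ∅ else o ((2 * n + 1) / 2)) ↔ _
      have e1 : (fun n => if (2 * n) % 2 = 0 then ∅ else o (2 * n / 2)) = a := by
        funext n
        rw [if_pos (by omega), ha n (Nat.zero_le n)]
      have e2 : (fun n => if (2 * n + 1) % 2 = 0 then ∅ else o ((2 * n + 1) / 2)) = o := by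
        funext n
        rw [if_neg (by omega)]
        congr 1
        omega
      rw [e1, e2]
      exact hy y'
  | succ N ih =>
    intro R hR a o ha ha' ho y hy
    obtain ⟨φ, q, hq, hq'⟩ := (ha N (Nat.lt_succ_self N)).exists_def
    refine ih (R := fun y b o' => ∃ z, Def φ z (fun n => o' (2 * n + 1)) ∧
      R y (Function.update b N z) (fun n => o' (2 * n))) ?_ (a := Function.update a N ∅)
      (o := fun n => if n % 2 = 0 then o (n / 2) else (q (n / 2)).toZFSet) ?_ ?_ ?_ fun y' => ?_
    · refine Dfn.ex ?_ ?_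
      · refine Dfn.and ?_ ?_
        · exact (dfn_Def φ 0 (fun n => 2 * (2 * n + 1) + 2 + 1)).mono Gd_Lvl
        · refine (Dfn_reindex hR (fun n => if n = 0 then 1 else if n = 2 * N + 1 then 0 else
            if n % 2 = 1 then n + 1 else 2 * (n - 2) + 3)).congr fun v => ?_
          have e1 : (fun n => v ((fun n => if n = 0 then 1 else if n = 2 * N + 1 then 0 else
              if n % 2 = 1 then n + 1 else 2 * (n - 2) + 3) (2 * n + 1))) =
              Function.update (fun n => v (2 * n + 1 + 1)) N (v 0) := by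
            funext n
            by_cases hn : n = N
            · subst hn
              simp
            · rw [Function.update_of_ne hn]
              simp only
              rw [if_neg (by omega), if_neg (by omega), if_pos (by omega)]
          have e2 : (fun n => v ((fun n => if n = 0 then 1 else if n = 2 * N + 1 then 0 else
              if n % 2 = 1 then n + 1 else 2 * (n - 2) + 3) (2 * n + 2))) =
              (fun n => v (2 * (2 * n) + 2 + 1)) := by
            funext n
            simp only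
            rw [if_neg (by omega), if_neg (by omega), if_neg (by omega)]
            congr 1
          rw [e1, e2]
          exact Iff.rfl
      · rintro U hU v hv ⟨z, h1, h2⟩
        refine ⟨z, ?_, h1, h2⟩
        obtain ⟨ho', U', hU', hz, _⟩ := h1
        obtain ⟨γ, hγ, _, rfl⟩ := hU.1
        rw [← ho'.toZFSet_rank_eq, levOf_iff] at hU'
        subst hU'
        exact (isTransitive_vonNeumann _).mem_trans hz
          (vonNeumann_mem_vonNeumann_iff.2 (mem_vonNeumann.1 (hv _)))
    · intro i hi
      rw [Function.update_of_ne (by omega)]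
      exact ha i (hi.trans (Nat.lt_succ_self N))
    · intro i hi
      rcases hi.eq_or_lt with h1 | h1
      · subst h1
        simp
      · rw [Function.update_of_ne (by omega)]
        exact ha' i h1
    · intro i
      show (if i % 2 = 0 then o (i / 2) else (q (i / 2)).toZFSet).IsOrdinal
      split_ifs
      · exact ho _
      · exact isOrdinal_toZFSet _
    · show (∃ z, Def φ z (fun n => if (2 * n + 1) % 2 = 0 then o ((2 * n + 1) / 2) else
        (q ((2 * n + 1) / 2)).toZFSet) ∧ R y' (Function.update (Function.update a N ∅) N z)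
        (fun n => if (2 * n) % 2 = 0 then o (2 * n / 2) else (q (2 * n / 2)).toZFSet)) ↔ _
      have e1 : (fun n => if (2 * n + 1) % 2 = 0 then o ((2 * n + 1) / 2) else
          (q ((2 * n + 1) / 2)).toZFSet) = fun n => (q n).toZFSet := by
        funext n
        rw [if_neg (by omega)]
        congr 2
        omega
      have e2 : (fun n => if (2 * n) % 2 = 0 then o (2 * n / 2) else (q (2 * n / 2)).toZFSet) =
          o := by
        funext n
        rw [if_pos (by omega)]
        congr 1
        omega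
      rw [e1, e2, ← hy y']
      constructor
      · rintro ⟨z, h1, h2⟩
        rw [h1.unique hq] at h2
        simpa using h2
      · intro h
        exact ⟨a N, hq, by simpa using h⟩

/-- The parameters in the list `l`, followed by `∅`. -/
noncomputable def pl (l : List ZFSet.{u}) : ℕ → ZFSet.{u} := fun n => l.getD n ∅

/-- `OD` is closed under definitions in which `HOD` is used as a predicate. -/
theorem OD_def {R : ZFSet.{u} → (ℕ → ZFSet.{u}) → Prop}
    (hR : Dfn Gd.{u} (fun v => R (v 0) (fun n => v (n + 1)))) (ps : List ZFSet.{u})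
    (hps : ∀ p ∈ ps, OD p) {y : ZFSet.{u}} (hy : ∀ y', R y' (pl ps) ↔ y' = y) : OD y := by
  refine OD_of_aux ps.length (R := fun y a _ => R y a) (a := pl ps) (o := fun _ => ∅) ?_ ?_ ?_
    (fun _ => empty_ord) hy
  · exact Dfn_reindex hR (fun n => if n = 0 then 0 else 2 * (n - 1) + 1)
  · intro i hi
    unfold pl
    rw [List.getD_eq_getElem _ _ hi]
    exact hps _ (List.getElem_mem hi)
  · intro i hi
    unfold pl
    exact List.getD_eq_default _ _ hi

theorem HOD_def {R : ZFSet.{u} → (ℕ → ZFSet.{u}) → Prop}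
    (hR : Dfn Gd.{u} (fun v => R (v 0) (fun n => v (n + 1)))) (ps : List ZFSet.{u})
    (hps : ∀ p ∈ ps, OD p) {y : ZFSet.{u}} (hy : ∀ y', R y' (pl ps) ↔ y' = y)
    (hs : ∀ z ∈ y, HOD z) : HOD y :=
  HOD_of_sub (OD_def hR ps hps hy) hs

end Pool.Agent.H93.HM
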