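import Pool.Agent.H93.HM.Rank

/-!
A canonical choice of a set in `HOD` with a given property.
-/

set_option autoImplicit false
set_option linter.unusedVariables false

namespace Pool.Agent.H93.HM

open ZFSet Gss969 Pool.Agent.H310.HD

universe u

variable {Ψ : ZFSet.{u} → ZFSet.{u} → ZFSet.{u} → Prop} {l : Ordinal.{u}}

theorem dfn_DPQ (a b c d e f : ℕ) :
    Dfn Lvl.{u} (fun v => DPN (v a) (v b) (pair (v c) (v d)) (v e) (v f)) := by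
  refine Dfn.congr (A := fun v => ∃ p, p = pair (v c) (v d) ∧ DPN (v a) (v b) p (v e) (v f))
    (Dfn.ex ?_ ?_) fun v => ?_
  · exact (dfn_pair Lvl_sub_Trs _ _ _).and (dfn_DPN _ _ _ _ _)
  · rintro U hU v hv ⟨p, h1, h2⟩
    exact ⟨p, h1 ▸ Lvl_pair hU (hv c) (hv d), h1, h2⟩
  · constructor
    · rintro ⟨p, rfl, h⟩
      exact h
    · intro h
      exact ⟨_, rfl, h⟩

/-- `Y` is the lexicographically least subset of `L` with the property which has a definition of the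
least possible rank. -/
def ChI (Ψ : ZFSet.{u} → ZFSet.{u} → ZFSet.{u} → Prop) (W U e L R Y : ZFSet.{u}) : Prop :=
  ∃ n ∈ W, (Y ⊆ L ∧ (Ψ Y R L ∧ DPN W U (pair R e) n Y)) ∧
    ((∀ m ∈ n, ∀ Z, Z ⊆ L → Ψ Z R L → ¬ DPN W U (pair R e) m Z) ∧
      ∀ Z, Z ⊆ L → (Ψ Z R L ∧ DPN W U (pair R e) n Z) → (Z = Y ∨ Lx Y Z))

def Ch (Ψ : ZFSet.{u} → ZFSet.{u} → ZFSet.{u} → Prop) (U e L R Y : ZFSet.{u}) : Prop :=
  ChI Ψ om U e L R Y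

theorem dfn_Ch (hΨ : Dfn Gd.{u} (fun v => Ψ (v 0) (v 1) (v 2))) (a b c d e : ℕ) :
    Dfn Gd.{u} (fun v => Ch Ψ (v a) (v b) (v c) (v d) (v e)) := by
  have h1 : ∀ i j k : ℕ, Dfn Gd.{u} (fun v => Ψ (v i) (v j) (v k)) := fun i j k =>
    Dfn_reindex hΨ (fun n => if n = 0 then i else if n = 1 then j else k)
  refine Dfn_omG (A := fun W v => ChI Ψ W (v a) (v b) (v c) (v d) (v e)) ?_
  unfold ChI
  repeat' first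
    | exact Dfn.mem _ _ | exact Dfn.eq _ _ | exact dfn_sub Gd_Trs _ _ | exact h1 _ _ _
    | exact (dfn_DPQ _ _ _ _ _ _).mono Gd_Lvl | exact (dfn_Lx _ _).mono Gd_Lvl
    | refine Dfn.allsub Gd_Lvl _ ?_ | refine Dfn.bex Gd_Trs _ ?_ | refine Dfn.ball Gd_Trs _ ?_
    | refine Dfn.and ?_ ?_ | refine Dfn.or ?_ ?_ | refine Dfn.not ?_ | refine Dfn.imp ?_ ?_

theorem ch_iff {U e L R Y : ZFSet.{u}} : Ch Ψ U e L R Y ↔ ∃ n : ℕ,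
    (Y ⊆ L ∧ (Ψ Y R L ∧ DfN U (pair R e) n Y)) ∧
    ((∀ m < n, ∀ Z, Z ⊆ L → Ψ Z R L → ¬ DfN U (pair R e) m Z) ∧
      ∀ Z, Z ⊆ L → (Ψ Z R L ∧ DfN U (pair R e) n Z) → (Z = Y ∨ Lx Y Z)) := by
  unfold Ch ChI
  constructor
  · rintro ⟨n, hn, ⟨h1, h2, h3⟩, h4, h5⟩
    obtain ⟨n, rfl⟩ := mem_om.1 hn
    refine ⟨n, ⟨h1, h2, dfN_iff.2 h3⟩, fun m hm Z hZ hZ' hd => ?_, fun Z hZ hd => ?_⟩
    · exact h4 (nt m) (nt_sub.2 hm) Z hZ hZ' (dfN_iff.1 hd)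
    · exact h5 Z hZ ⟨hd.1, dfN_iff.1 hd.2⟩
  · rintro ⟨n, ⟨h1, h2, h3⟩, h4, h5⟩
    refine ⟨nt n, nt_mem n, ⟨h1, h2, dfN_iff.1 h3⟩, fun m hm Z hZ hZ' hd => ?_,
      fun Z hZ hd => ?_⟩
    · obtain ⟨m, hm', rfl⟩ := mem_nt.1 hm
      exact h4 m hm' Z hZ hZ' (dfN_iff.2 hd)
    · exact h5 Z hZ ⟨hd.1, dfN_iff.2 hd.2⟩

theorem Ch.sub {U e L R Y : ZFSet.{u}} (h : Ch Ψ U e L R Y) : Y ⊆ L := by
  obtain ⟨n, h1, _⟩ := ch_iff.1 h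
  exact h1.1

theorem Ch.prop {U e L R Y : ZFSet.{u}} (h : Ch Ψ U e L R Y) : Ψ Y R L := by
  obtain ⟨n, h1, _⟩ := ch_iff.1 h
  exact h1.2.1

theorem Ch.unique {U e R Y Y' : ZFSet.{u}} (h : Ch Ψ U e l.toZFSet R Y)
    (h' : Ch Ψ U e l.toZFSet R Y') : Y = Y' := by
  obtain ⟨n, ⟨a1, a2, a3⟩, a4, a5⟩ := ch_iff.1 h
  obtain ⟨n', ⟨b1, b2, b3⟩, b4, b5⟩ := ch_iff.1 h'
  rcases lt_trichotomy n n' with hn | hn | hn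
  · exact absurd a3 (b4 n hn Y a1 a2)
  · subst hn
    rcases a5 Y' b1 ⟨b2, b3⟩ with h1 | h1
    · exact h1.symm
    · rcases b5 Y a1 ⟨a2, a3⟩ with h2 | h2
      · exact h2
      · exact (h1.asymm a1 b1 h2).elim
  · exact absurd b3 (a4 n' hn Y' b1 b2)

/-- Existence of the canonical choice. -/
theorem exists_ch (hΨ : Dfn Gd.{u} (fun v => Ψ (v 0) (v 1) (v 2))) {U : ZFSet.{u}} (hU : U ∈ Gd)
    {R : ZFSet.{u}} {ρ : Ordinal.{u}} (hR : R ∈ U) (hl : l.toZFSet ∈ U) (hρ : ρ.toZFSet ∈ U)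
    (hb : ∀ z, z ⊆ l.toZFSet → HOD z → ∃ (φ : Fml) (q : ℕ → Ordinal.{u}),
      Def φ z (fun i => (q i).toZFSet) ∧ ∀ i, q i < ρ)
    (h : ∃ z, z ⊆ l.toZFSet ∧ HOD z ∧ Ψ z R l.toZFSet) :
    ∃ Y, Ch Ψ U (pair l.toZFSet ρ.toZFSet) l.toZFSet R Y := by
  classical
  obtain ⟨x, hx1, hx2, hx3⟩ := exists_sel hΨ hU hR hl hρ hb h
  obtain ⟨n, hn⟩ := hx3.exists_rk
  have hex : ∃ n : ℕ, ∃ Z, Z ⊆ l.toZFSet ∧ Ψ Z R l.toZFSet ∧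
      DfN U (pair R (pair l.toZFSet ρ.toZFSet)) n Z := ⟨n, x, hx1, hx2, hn⟩
  obtain ⟨Z, hZ1, hZ2, hZ3⟩ := Nat.find_spec hex
  have hfin : {Z | Z ⊆ l.toZFSet ∧ Ψ Z R l.toZFSet ∧
      DfN U (pair R (pair l.toZFSet ρ.toZFSet)) (Nat.find hex) Z}.Finite :=
    (fin_DfN _ _ _).subset fun Z hZ => hZ.2.2
  obtain ⟨Y, hY, hmin⟩ := exists_Lx_min (l := l) hfin ⟨Z, hZ1, hZ2, hZ3⟩ fun Z hZ => hZ.1
  refine ⟨Y, ch_iff.2 ⟨Nat.find hex, hY, fun m hm Z hZ hZ' hd => ?_, fun Z hZ hd => ?_⟩⟩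
  · exact Nat.find_min hex hm ⟨Z, hZ, hZ', hd⟩
  · exact hmin Z ⟨hZ, hd⟩

end Pool.Agent.H93.HM
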