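import Pool.Agent.H93.HM.Msr

/-!
Closed unbounded sets below ordinals of uncountable cofinality.
-/

set_option autoImplicit false
set_option linter.unusedVariables false

namespace Pool.Agent.H93.HM

open ZFSet Gss969 Pool.Agent.H310.HD

universe u

/-- The ordinal `m` is the cofinality of `a`: there is a cofinal function from `m` to `a`, and none
from a smaller ordinal. -/
def Cf (m a : ZFSet.{u}) : Prop := CofN m a ∧ ∀ m' ∈ m, ¬ CofN m' a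

theorem dfn_Cf (a b : ℕ) : Dfn Gd.{u} (fun v => Cf (v a) (v b)) := by
  unfold Cf
  exact ((dfn_CofN _ _).mono Gd_Lvl).and (Dfn.ball Gd_Trs _ ((dfn_CofN _ _).mono Gd_Lvl).not)

/-- All sequences of length less than `ν` of ordinals below `α` are bounded in `α`. -/
def Uc (α ν : Ordinal.{u}) : Prop :=
  ∀ m < ν, ∀ f : Ordinal.{u} → Ordinal.{u}, (∀ i < m, f i < α) → ∃ b < α, ∀ i < m, f i < b

theorem RegUnc.uc {l : Ordinal.{u}} (hl : RegUnc l.toZFSet) : Uc l l :=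
  fun m hm f hf => hl.bdd hm f hf

theorem Uc.mono {α ν ν' : Ordinal.{u}} (h : Uc α ν) (hν : ν' ≤ ν) : Uc α ν' :=
  fun m hm f hf => h m (hm.trans_le hν) f hf

theorem cofN_lim {m : ZFSet.{u}} {α : Ordinal.{u}} (h : CofN m α.toZFSet) :
    ∀ x < α, Order.succ x < α := by
  obtain ⟨f, hf, hc⟩ := h
  intro x hx
  obtain ⟨n, hn, y, hy, _, hxy⟩ := hc _ (tz_mem.2 hx)
  obtain ⟨y, hy', rfl⟩ := Ordinal.mem_toZFSet_iff.1 hy
  exact (Order.succ_le_of_lt (tz_mem.1 hxy)).trans_lt hy'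

theorem Cf.lim {m : ZFSet.{u}} {α : Ordinal.{u}} (h : Cf m α.toZFSet) :
    ∀ x < α, Order.succ x < α := cofN_lim h.1

theorem Cf.uc {ν α : Ordinal.{u}} (h : Cf ν.toZFSet α.toZFSet) : Uc α ν := by
  intro m hm f hf
  by_contra hcon
  push Not at hcon
  refine h.2 _ (tz_mem.2 hm) ⟨gr m.toZFSet fun x => (f (rank x)).toZFSet, isFunc_gr fun x hx => ?_,
    fun x hx => ?_⟩
  · obtain ⟨i, hi, rfl⟩ := Ordinal.mem_toZFSet_iff.1 hx
    rw [Ordinal.rank_toZFSet]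
    exact tz_mem.2 (hf i hi)
  · obtain ⟨ξ, hξ, rfl⟩ := Ordinal.mem_toZFSet_iff.1 hx
    obtain ⟨i, hi, h1⟩ := hcon (Order.succ ξ) (h.lim ξ hξ)
    refine ⟨_, tz_mem.2 hi, _, tz_mem.2 (hf i hi), ?_, tz_mem.2 ((Order.lt_succ ξ).trans_le h1)⟩
    rw [pair_mem_gr, Ordinal.rank_toZFSet]
    exact ⟨tz_mem.2 hi, rfl⟩

/-- The supremum of an increasing sequence below an ordinal of uncountable cofinality. -/
theorem exists_supU {α ν : Ordinal.{u}} (h : Uc α ν) (hν : Ordinal.omega0 < ν) {G : ℕ → Ordinal.{u}}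
    (hG : ∀ n, G n < α) (hs : ∀ n, G n < G (n + 1)) :
    ∃ a < α, (∀ n, G n < a) ∧ ∀ ξ < a, ∃ n, ξ < G n := by
  classical
  obtain ⟨b, hb, h⟩ := h _ hν (fun i => G (if h : ∃ n : ℕ, i = n then h.choose else 0))
    fun i _ => hG _
  have hGb : ∀ n, G n < b := by
    intro n
    have h1 := h n (Ordinal.natCast_lt_omega0 n)
    have h2 : ∃ m : ℕ, (n : Ordinal.{u}) = m := ⟨n, rfl⟩
    simp only [dif_pos h2] at h1
    have h3 : h2.choose = n := by exact_mod_cast h2.choose_spec.symm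
    rwa [h3] at h1
  obtain ⟨a, ha⟩ : ∃ a : Ordinal.{u}, a = ⨆ n, G n := ⟨_, rfl⟩
  have hbd : BddAbove (Set.range G) := ⟨b, by rintro _ ⟨n, rfl⟩; exact (hGb n).le⟩
  refine ⟨a, ?_, fun n => ?_, fun ξ hξ => ?_⟩
  · rw [ha]
    exact (ciSup_le fun n => (hGb n).le).trans_lt hb
  · rw [ha]
    exact (hs n).trans_le (le_ciSup hbd (n + 1))
  · by_contra hcon
    push Not at hcon
    rw [ha] at hξ
    exact absurd hξ (not_lt.2 (ciSup_le fun n => hcon n))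

/-- Intersections of closed unbounded sets. -/
theorem club_inter {α ν : Ordinal.{u}} (hlim : ∀ x < α, Order.succ x < α) (h : Uc α ν)
    (hν : Ordinal.omega0 < ν) {m : Ordinal.{u}} (hm : m < ν) {C : Ordinal.{u} → ZFSet.{u}}
    (hC1 : ∀ i < m, C i ⊆ α.toZFSet) (hC2 : ∀ i < m, Club (C i) α.toZFSet) :
    Club (ZFSet.sep (fun x => ∀ i < m, x ∈ C i) α.toZFSet) α.toZFSet := by
  refine ⟨fun x hx => (mem_sep.1 hx).1, ?_, ?_⟩
  · intro x hx
    obtain ⟨ξ, hξ, rfl⟩ := Ordinal.mem_toZFSet_iff.1 hx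
    have h1 : ∀ i < m, ∀ γ < α, ∃ c < α, γ < c ∧ c.toZFSet ∈ C i := by
      intro i hi γ hγ
      obtain ⟨c, hc, hc'⟩ := (hC2 i hi).2.1 _ (tz_mem.2 hγ)
      obtain ⟨δ, hδ, rfl⟩ := Ordinal.mem_toZFSet_iff.1 (hC1 i hi hc)
      exact ⟨δ, hδ, tz_mem.1 hc', hc⟩
    choose! N hN1 hN2 hN3 using h1
    have h2 : ∀ γ < α, ∃ b < α, γ < b ∧ ∀ i < m, N i γ < b := by
      intro γ hγ
      obtain ⟨b, hb, h3⟩ := h m hm (fun i => N i γ) fun i hi => hN1 i hi γ hγ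
      exact ⟨max b (Order.succ γ), max_lt hb (hlim γ hγ),
        (Order.lt_succ γ).trans_le (le_max_right _ _),
        fun i hi => (h3 i hi).trans_le (le_max_left _ _)⟩
    choose! B hB1 hB2 hB3 using h2
    let G : ℕ → Ordinal.{u} := fun n => Nat.rec ξ (fun _ γ => B γ) n
    have hG : ∀ n, G n < α := by
      intro n
      induction n with
      | zero => exact hξ
      | succ n ih => exact hB1 _ ih
    obtain ⟨a, ha, ha1, ha2⟩ := exists_supU h hν hG fun n => hB2 _ (hG n)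
    refine ⟨a.toZFSet, mem_sep.2 ⟨tz_mem.2 ha, fun i hi => ?_⟩, tz_mem.2 (ha1 0)⟩
    refine (hC2 i hi).2.2 _ (tz_mem.2 ha) ⟨_, tz_mem.2 (ha1 0), rfl⟩ fun x hx => ?_
    obtain ⟨γ, hγ, rfl⟩ := Ordinal.mem_toZFSet_iff.1 hx
    obtain ⟨n, hn⟩ := ha2 γ hγ
    exact ⟨(N i (G n)).toZFSet, hN3 i hi _ (hG n),
      tz_mem.2 ((hB3 _ (hG n) i hi).trans (ha1 (n + 1))),
      tz_mem.2 (hn.trans (hN2 i hi _ (hG n)))⟩
  · intro a ha hne hl
    refine mem_sep.2 ⟨ha, fun i hi => (hC2 i hi).2.2 a ha hne fun x hx => ?_⟩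
    obtain ⟨c, hc, h1, h2⟩ := hl x hx
    exact ⟨c, (mem_sep.1 hc).2 i hi, h1, h2⟩

/-- The whole ordinal is closed unbounded. -/
theorem club_self {α : Ordinal.{u}} (hlim : ∀ x < α, Order.succ x < α) :
    Club α.toZFSet α.toZFSet := by
  refine ⟨fun x hx => hx, fun x hx => ?_, fun a ha _ _ => ha⟩
  obtain ⟨γ, hγ, rfl⟩ := Ordinal.mem_toZFSet_iff.1 hx
  exact ⟨_, tz_mem.2 (hlim γ hγ), tz_mem.2 (Order.lt_succ γ)⟩

/-- A union of few nonstationary sets is not stationary. -/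
theorem stat_union {α ν : Ordinal.{u}} (hlim : ∀ x < α, Order.succ x < α) (h : Uc α ν)
    (hν : Ordinal.omega0 < ν) {m : Ordinal.{u}} (hm : m < ν) {S : Set Ordinal.{u}}
    (hS : StatL S α) {P : Ordinal.{u} → Ordinal.{u} → Prop}
    (hP : ∀ β ∈ S, β < α → ∃ i < m, P i β) : ∃ i < m, StatL {β | β ∈ S ∧ P i β} α := by
  by_contra hcon
  push Not at hcon
  unfold StatL at hcon
  push Not at hcon
  choose! C hC1 hC2 hC3 using hcon
  obtain ⟨β, hβ, hβS, hβC⟩ := hS _ (fun x hx => (mem_sep.1 hx).1)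
    (club_inter hlim h hν hm hC1 hC2)
  obtain ⟨i, hi, hi'⟩ := hP β hβS hβ
  exact hC3 i hi β hβ ⟨hβS, hi'⟩ ((mem_sep.1 hβC).2 i hi)

/-- `μ` is an infinite regular cardinal. -/
def Rg (μ : Ordinal.{u}) : Prop := 0 < μ ∧ (∀ x < μ, Order.succ x < μ) ∧ Uc μ μ

theorem RegUnc.rg {l : Ordinal.{u}} (hl : RegUnc l.toZFSet) : Rg l :=
  ⟨hl.pos, fun x hx => hl.succ_lt hx, RegUnc.uc hl⟩

theorem rg_omega0 : Rg Ordinal.omega0.{u} := by
  refine ⟨Ordinal.omega0_pos, fun x hx => Ordinal.isSuccLimit_omega0.succ_lt hx, ?_⟩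
  intro m hm f hf
  obtain ⟨n, rfl⟩ := Ordinal.lt_omega0.1 hm
  have h1 : ∀ n : ℕ, (∀ i < (n : Ordinal.{u}), f i < Ordinal.omega0) →
      ∃ b < Ordinal.omega0, ∀ i < (n : Ordinal.{u}), f i < b := by
    intro n
    induction n with
    | zero => exact fun _ => ⟨0, Ordinal.omega0_pos, fun i hi => by simp at hi⟩
    | succ n ih =>
      intro h
      obtain ⟨b, hb, h2⟩ := ih fun i hi => h i (hi.trans (by exact_mod_cast Nat.lt_succ_self n))
      have h3 : f (n : Ordinal.{u}) < Ordinal.omega0 :=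
        h _ (by exact_mod_cast Nat.lt_succ_self n)
      refine ⟨max b (Order.succ (f n)), max_lt hb (Ordinal.isSuccLimit_omega0.succ_lt h3),
        fun i hi => ?_⟩
      have h4 : i < Order.succ (n : Ordinal.{u}) := by
        have : ((n + 1 : ℕ) : Ordinal.{u}) = Order.succ (n : Ordinal.{u}) := by
          rw [Nat.cast_add_one, ← Order.succ_eq_add_one]
        rw [← this]
        exact hi
      rcases (Order.lt_succ_iff.1 h4).lt_or_eq with h5 | h5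
      · exact (h2 i h5).trans_le (le_max_left _ _)
      · rw [h5]
        exact (Order.lt_succ _).trans_le (le_max_right _ _)
  exact h1 n hf

/-- Every closed unbounded set has elements of each smaller uncountable cofinality. -/
theorem club_cf {α ν : Ordinal.{u}} (h : Uc α ν) {μ : Ordinal.{u}} (hμν : μ < ν)
    (hμ : Rg μ) {C : ZFSet.{u}} (hC1 : C ⊆ α.toZFSet) (hC2 : Club C α.toZFSet) :
    ∃ a < α, a.toZFSet ∈ C ∧ Cf μ.toZFSet a.toZFSet := by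
  obtain ⟨S, hSe⟩ : ∃ S : Set Ordinal.{u}, S = {η | η.toZFSet ∈ C ∨ α ≤ η} := ⟨_, rfl⟩
  have hS : ¬ BddAbove S := by rw [hSe]; exact notBdd_aux C
  have hmono := Ordinal.enumOrd_strictMono hS
  have hlt : ∀ i < ν, Ordinal.enumOrd S i < α := by
    intro i
    induction i using WellFoundedLT.induction with
    | ind i ih =>
      intro hi
      obtain ⟨b, hb, hb'⟩ := h i hi (Ordinal.enumOrd S) fun j hj => ih j hj (hj.trans hi)
      obtain ⟨c, hc, hbc⟩ := hC2.2.1 _ (tz_mem.2 hb)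
      obtain ⟨η, hη, rfl⟩ := Ordinal.mem_toZFSet_iff.1 (hC1 hc)
      exact (Ordinal.enumOrd_le_of_forall_lt (show η ∈ S by rw [hSe]; exact Or.inl hc)
        fun j hj => (hb' j hj).trans (tz_mem.1 hbc)).trans_lt hη
  have hmem : ∀ i < ν, (Ordinal.enumOrd S i).toZFSet ∈ C := by
    intro i hi
    have h1 := Ordinal.enumOrd_mem hS i
    rw [hSe] at h1
    rcases h1 with h1 | h1
    · rw [hSe]; exact h1
    · rw [← hSe] at h1
      exact absurd h1 (not_le.2 (hlt i hi))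
  obtain ⟨E, hE⟩ : ∃ E : Ordinal.{u} → Ordinal.{u}, E = Ordinal.enumOrd S := ⟨_, rfl⟩
  rw [← hE] at hlt hmem hmono
  obtain ⟨b₀, hb₀, hb₀'⟩ := h μ hμν E fun i hi => hlt i (hi.trans hμν)
  obtain ⟨a, ha, hmin⟩ := WellFounded.has_min (wellFounded_lt (α := Ordinal.{u}))
    {b | ∀ i < μ, E i < b} ⟨b₀, hb₀'⟩
  have ha' : ∀ i < μ, E i < a := ha
  have haα : a < α := (not_lt.1 (hmin b₀ hb₀')).trans_lt hb₀
  have hun : ∀ x < a, ∃ i < μ, x < E i := by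
    intro x hx
    by_contra hcon
    push Not at hcon
    refine hmin (Order.succ x) (fun i hi => Order.lt_succ_iff.2 (hcon i hi)) ?_
    refine lt_of_le_of_ne (Order.succ_le_of_lt hx) fun heq => ?_
    have h1 : ∀ i < μ, E i < x := by
      intro i hi
      exact (hmono (Order.lt_succ i)).trans_le (hcon _ (hμ.2.1 i hi))
    exact hmin x h1 hx
  refine ⟨a, haα, hC2.2.2 _ (tz_mem.2 haα) ⟨_, tz_mem.2 (ha' 0 hμ.1), rfl⟩ fun x hx => ?_,
    ⟨gr μ.toZFSet fun x => (E (rank x)).toZFSet, isFunc_gr fun x hx => ?_, fun x hx => ?_⟩, ?_⟩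
  · obtain ⟨x, hx', rfl⟩ := Ordinal.mem_toZFSet_iff.1 hx
    obtain ⟨i, hi, h1⟩ := hun x hx'
    exact ⟨_, hmem i (hi.trans hμν), tz_mem.2 (ha' i hi), tz_mem.2 h1⟩
  · obtain ⟨i, hi, rfl⟩ := Ordinal.mem_toZFSet_iff.1 hx
    rw [Ordinal.rank_toZFSet]
    exact tz_mem.2 (ha' i hi)
  · obtain ⟨x, hx', rfl⟩ := Ordinal.mem_toZFSet_iff.1 hx
    obtain ⟨i, hi, h1⟩ := hun x hx'
    refine ⟨_, tz_mem.2 hi, _, tz_mem.2 (ha' i hi), ?_, tz_mem.2 h1⟩
    rw [pair_mem_gr, Ordinal.rank_toZFSet]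
    exact ⟨tz_mem.2 hi, rfl⟩
  · rintro m hm ⟨f, hf, hc⟩
    obtain ⟨m, hm', rfl⟩ := Ordinal.mem_toZFSet_iff.1 hm
    have h1 : ∀ i < m, ∃ j < μ, rank (app f i.toZFSet) < E j := by
      intro i hi
      obtain ⟨y, hy, hy'⟩ := Ordinal.mem_toZFSet_iff.1 (app_mem hf (tz_mem.2 hi))
      rw [← hy', Ordinal.rank_toZFSet]
      exact hun y hy
    choose! j hj1 hj2 using h1
    obtain ⟨b, hb, hb'⟩ := hμ.2.2 m hm' j hj1
    obtain ⟨n, hn, y, hy, hny, hby⟩ := hc _ (tz_mem.2 (ha' b hb))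
    obtain ⟨n, hn', rfl⟩ := Ordinal.mem_toZFSet_iff.1 hn
    have h2 := hj2 n hn'
    rw [(app_iff hf hn).1 hny] at h2
    obtain ⟨y, hy', rfl⟩ := Ordinal.mem_toZFSet_iff.1 hy
    rw [Ordinal.rank_toZFSet] at h2
    exact absurd (h2.trans (hmono (hb' n hn'))) (not_lt.2 (tz_mem.1 hby).le)

/-- The limit points of a set. -/
noncomputable def lims (C : ZFSet.{u}) (l : Ordinal.{u}) : ZFSet.{u} :=
  ZFSet.sep (fun x => (∃ y ∈ x, y = y) ∧ ∀ y ∈ x, ∃ c ∈ C, c ∈ x ∧ y ∈ c) l.toZFSet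

theorem club_lims {l ν : Ordinal.{u}} (h : Uc l ν) (hν : Ordinal.omega0 < ν) {C : ZFSet.{u}}
    (hC1 : C ⊆ l.toZFSet) (hC2 : Club C l.toZFSet) : Club (lims C l) l.toZFSet := by
  refine ⟨fun x hx => (mem_sep.1 hx).1, ?_, ?_⟩
  · intro x hx
    obtain ⟨ξ, hξ, rfl⟩ := Ordinal.mem_toZFSet_iff.1 hx
    have h1 : ∀ γ < l, ∃ c < l, γ < c ∧ c.toZFSet ∈ C := by
      intro γ hγ
      obtain ⟨c, hc, hc'⟩ := hC2.2.1 _ (tz_mem.2 hγ)
      obtain ⟨δ, hδ, rfl⟩ := Ordinal.mem_toZFSet_iff.1 (hC1 hc)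
      exact ⟨δ, hδ, tz_mem.1 hc', hc⟩
    choose! N hN1 hN2 hN3 using h1
    let G : ℕ → Ordinal.{u} := fun n => Nat.rec ξ (fun _ γ => N γ) n
    have hG : ∀ n, G n < l := by
      intro n
      induction n with
      | zero => exact hξ
      | succ n ih => exact hN1 _ ih
    obtain ⟨a, ha, ha1, ha2⟩ := exists_supU h hν hG fun n => hN2 _ (hG n)
    refine ⟨a.toZFSet, mem_sep.2 ⟨tz_mem.2 ha, ⟨_, tz_mem.2 (ha1 0), rfl⟩, fun x hx => ?_⟩,
      tz_mem.2 (ha1 0)⟩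
    obtain ⟨γ, hγ, rfl⟩ := Ordinal.mem_toZFSet_iff.1 hx
    obtain ⟨n, hn⟩ := ha2 γ hγ
    exact ⟨(G (n + 1)).toZFSet, hN3 _ (hG n), tz_mem.2 (ha1 (n + 1)),
      tz_mem.2 (hn.trans (hN2 _ (hG n)))⟩
  · intro a ha hne hl
    refine mem_sep.2 ⟨ha, hne, fun y hy => ?_⟩
    obtain ⟨c, hc, hca, hyc⟩ := hl y hy
    obtain ⟨d, hd, h1, h2⟩ := (mem_sep.1 hc).2.2 y hyc
    obtain ⟨α, hα, rfl⟩ := Ordinal.mem_toZFSet_iff.1 ha
    exact ⟨d, hd, (isOrdinal_toZFSet α).1.mem_trans h1 hca, h2⟩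

/-- Below a limit point of `C` the set `C` is closed unbounded. -/
theorem club_below {l : Ordinal.{u}} {C : ZFSet.{u}} (hC2 : Club C l.toZFSet) {α : Ordinal.{u}}
    (hα : α.toZFSet ∈ lims C l) : Club (C ∩ α.toZFSet) α.toZFSet := by
  obtain ⟨hαl, _, hlim⟩ := mem_sep.1 hα
  refine ⟨fun x hx => (mem_inter.1 hx).2, fun x hx => ?_, fun a ha hne hl => ?_⟩
  · obtain ⟨c, hc, h1, h2⟩ := hlim x hx
    exact ⟨c, mem_inter.2 ⟨hc, h1⟩, h2⟩
  · refine mem_inter.2 ⟨hC2.2.2 a ((isOrdinal_toZFSet l).1.mem_trans ha hαl) hne fun x hx => ?_, ha⟩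
    obtain ⟨c, hc, h1, h2⟩ := hl x hx
    exact ⟨c, (mem_inter.1 hc).1, h1, h2⟩

/-- If `A ∩ α` is stationary in `α` for stationary many `α`, then `A` is stationary. -/
theorem stat_of_reflect {l ν : Ordinal.{u}} (h : Uc l ν) (hν : Ordinal.omega0 < ν)
    {A : Set Ordinal.{u}} (hA : StatL {α | StatL A α} l) : StatL A l := by
  intro C hC1 hC2
  obtain ⟨α, hα, h1, h2⟩ := hA _ (fun x hx => (mem_sep.1 hx).1) (club_lims h hν hC1 hC2)
  obtain ⟨β, hβ, h3, h4⟩ := h1 _ (fun x hx => (mem_inter.1 hx).2) (club_below hC2 h2)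
  exact ⟨β, hβ.trans hα, h3, (mem_inter.1 h4).1⟩

end Pool.Agent.H93.HM
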