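import Pool.Agent.H93.HM.Enum

/-!
If `HOD` has no long sequence of disjoint stationary subsets of `S` then `S` is the union of few
sets in `HOD` whose stationary members cannot be split in `HOD`.
-/

set_option autoImplicit false
set_option linter.unusedVariables false

namespace Pool.Agent.H93.HM

open ZFSet Gss969 Pool.Agent.H310.HD

universe u

variable {l : Ordinal.{u}}

def StIn (R L a z : ZFSet.{u}) : Prop :=
  ∀ C, C ⊆ L → Club C L → ∃ b ∈ C, pair a b ∈ R ∧ b ∈ z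

def StOut (R L a z : ZFSet.{u}) : Prop :=
  ∀ C, C ⊆ L → Club C L → ∃ b ∈ C, pair a b ∈ R ∧ ¬ b ∈ z

theorem stIn_iff {R a z : ZFSet.{u}} : StIn R l.toZFSet a z ↔
    StatL {β | pair a β.toZFSet ∈ R ∧ β.toZFSet ∈ z} l := by
  constructor
  · intro h C hC1 hC2
    obtain ⟨b, hb, h1, h2⟩ := h C hC1 hC2
    obtain ⟨β, hβ, rfl⟩ := Ordinal.mem_toZFSet_iff.1 (hC1 hb)
    exact ⟨β, hβ, ⟨h1, h2⟩, hb⟩
  · intro h C hC1 hC2
    obtain ⟨β, _, h1, h2⟩ := h C hC1 hC2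
    exact ⟨_, h2, h1⟩

theorem stOut_iff {R a z : ZFSet.{u}} : StOut R l.toZFSet a z ↔
    StatL {β | pair a β.toZFSet ∈ R ∧ β.toZFSet ∉ z} l := by
  constructor
  · intro h C hC1 hC2
    obtain ⟨b, hb, h1, h2⟩ := h C hC1 hC2
    obtain ⟨β, hβ, rfl⟩ := Ordinal.mem_toZFSet_iff.1 (hC1 hb)
    exact ⟨β, hβ, ⟨h1, h2⟩, hb⟩
  · intro h C hC1 hC2
    obtain ⟨β, _, h1, h2⟩ := h C hC1 hC2
    exact ⟨_, h2, h1⟩

/-- `z` splits a class of `R`. -/
def Spl (z R L : ZFSet.{u}) : Prop := HOD z ∧ ∃ a ∈ L, StIn R L a z ∧ StOut R L a z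

theorem dfn_Spl : Dfn Gd.{u} (fun v => Spl (v 0) (v 1) (v 2)) := by
  unfold Spl StIn StOut
  repeat' first
    | exact Dfn.mem _ _ | exact dfn_pm Gd_Trs _ _ _ | exact dfn_HOD _
    | exact (dfn_Club _ _).mono Gd_Lvl
    | refine Dfn.and ?_ ?_ | refine Dfn.not ?_ | refine Dfn.allsub Gd_Lvl _ ?_
    | refine Dfn.ball Gd_Trs _ ?_ | refine Dfn.bex Gd_Trs _ ?_ | refine Dfn.imp ?_ ?_

/-- The representatives of the stationary classes of `R`. -/
def Rep (R L a : ZFSet.{u}) : Prop :=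
  pair a a ∈ R ∧ ((∀ C, C ⊆ L → Club C L → ∃ b ∈ C, pair a b ∈ R) ∧ ∀ b ∈ a, ¬ pair a b ∈ R)

theorem dfn_Rep (a b c : ℕ) : Dfn Gd.{u} (fun v => Rep (v a) (v b) (v c)) := by
  unfold Rep
  repeat' first
    | exact Dfn.mem _ _ | exact dfn_pm Gd_Trs _ _ _
    | exact (dfn_Club _ _).mono Gd_Lvl
    | refine Dfn.and ?_ ?_ | refine Dfn.not ?_ | refine Dfn.allsub Gd_Lvl _ ?_
    | refine Dfn.ball Gd_Trs _ ?_ | refine Dfn.bex Gd_Trs _ ?_ | refine Dfn.imp ?_ ?_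

theorem StatL.ne {T : Set Ordinal.{u}} (hl : RegUnc l.toZFSet) (h : StatL T l) :
    ∃ α < l, α ∈ T := by
  obtain ⟨α, hα, h2, _⟩ := h l.toZFSet (fun x hx => hx) ⟨fun x hx => hx, fun x hx => by
    obtain ⟨γ, hγ, rfl⟩ := Ordinal.mem_toZFSet_iff.1 hx
    exact ⟨_, tz_mem.2 (hl.succ_lt hγ), tz_mem.2 (Order.lt_succ γ)⟩, fun a ha _ _ => ha⟩
  exact ⟨α, hα, h2⟩

/-- Few classes: a stationary set has stationary intersection with some class. -/
theorem few_stat (hl : RegUnc l.toZFSet) {m : Ordinal.{u}} (hm : m < l) {S R : ZFSet.{u}}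
    {f : Ordinal.{u} → Ordinal.{u}} (hf : ∀ α, f α < m)
    (hfR : ∀ α β : Ordinal.{u}, α.toZFSet ∈ S → β.toZFSet ∈ S → f α = f β →
      pair α.toZFSet β.toZFSet ∈ R) {T : Set Ordinal.{u}} (hT : StatL T l)
    (hTS : ∀ α ∈ T, α.toZFSet ∈ S) :
    ∃ α ∈ T, StatL {β | β ∈ T ∧ pair α.toZFSet β.toZFSet ∈ R} l := by
  obtain ⟨i, hi, h1⟩ := hT.union hl hm (P := fun i α => f α = i) fun α _ _ => ⟨f α, hf α, rfl⟩
  obtain ⟨α, hα, h2⟩ := StatL.ne hl h1
  refine ⟨α, h2.1, h1.mono fun β hβ h3 => ⟨h3.1, ?_⟩⟩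
  exact hfR α β (hTS α h2.1) (hTS β h3.1) (h2.2.trans h3.2.symm)

theorem decompose (hl : RegUnc l.toZFSet) {S : ZFSet.{u}} (hS : S ⊆ l.toZFSet) (hSO : HOD S)
    {c : Cardinal.{u}} (hc : Cardinal.aleph0 ≤ c) (hcl : ((2 : Cardinal.{u}) ^ c).ord < l)
    (hno : ¬ ∃ g, HOD g ∧ DisjFam c.ord.toZFSet l.toZFSet S g) :
    ∃ R, HOD R ∧ (∀ a b, pair a b ∈ R → a ∈ S ∧ b ∈ S) ∧ (∀ a ∈ S, pair a a ∈ R) ∧
      (∀ a b, pair a b ∈ R → pair b a ∈ R) ∧
      (∀ a b d, pair a b ∈ R → pair b d ∈ R → pair a d ∈ R) ∧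
      (∃ f : Ordinal.{u} → Ordinal.{u}, (∀ α, f α < ((2 : Cardinal.{u}) ^ c).ord) ∧
        ∀ α β : Ordinal.{u}, α.toZFSet ∈ S → β.toZFSet ∈ S → f α = f β →
          pair α.toZFSet β.toZFSet ∈ R) ∧
      ∀ α : Ordinal.{u}, α.toZFSet ∈ S → StatL {β | pair α.toZFSet β.toZFSet ∈ R} l →
        Atom l (ZFSet.sep (fun b => pair α.toZFSet b ∈ R) l.toZFSet) := by
  classical
  obtain ⟨L, hL⟩ : ∃ L : ZFSet.{u}, L = l.toZFSet := ⟨_, rfl⟩
  have hLS : S ⊆ L := by rw [hL]; exact hS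
  obtain ⟨ρ, hρ⟩ := exists_rho L
  obtain ⟨ζ, hζ, hU⟩ := exists_Gd (max l ρ)
  obtain ⟨U, hUe⟩ : ∃ U : ZFSet.{u}, U = V_ ζ := ⟨_, rfl⟩
  rw [← hUe] at hU
  have hUO : OD U := by rw [hUe]; exact OD_lev ζ
  obtain ⟨e, he⟩ : ∃ e : ZFSet.{u}, e = pair L ρ.toZFSet := ⟨_, rfl⟩
  have heO : OD e := by
    rw [he, hL]
    exact (HOD_pair (HOD_ord _) (HOD_ord _)).od
  have hLU : L ∈ U := by
    rw [hL, hUe, mem_vonNeumann, Ordinal.rank_toZFSet]
    exact (le_max_left _ _).trans_lt hζ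
  have hρU : ρ.toZFSet ∈ U := by
    rw [hUe, mem_vonNeumann, Ordinal.rank_toZFSet]
    exact (le_max_right _ _).trans_lt hζ
  have hRU : ∀ γ, rsq L S U e γ ∈ U := fun γ => Lvl_sub hU.1 (Lvl_prod hU.1 hLU hLU) (rsq_sub γ)
  have hRO : ∀ γ, HOD (rsq L S U e γ) := fun γ => HOD_rsq hL hLS hSO.od hUO heO γ
  have hordS : ∀ a ∈ S, ∃ α : Ordinal.{u}, α < l ∧ α.toZFSet = a := by
    intro a ha
    obtain ⟨α, hα, h⟩ := Ordinal.mem_toZFSet_iff.1 (hS ha)
    exact ⟨α, hα, h⟩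
  -- the stages at which nothing is split
  by_cases hA : ∃ γ < c.ord, ¬ ∃ z, z ⊆ L ∧ HOD z ∧ Spl z (rsq L S U e γ) L
  · obtain ⟨γ, hγ, hns⟩ := hA
    refine ⟨rsq L S U e γ, hRO γ, fun a b h => ?_, fun a ha => rsq_refl hLS ha,
      fun a b h => rsq_symm hLS h, fun a b d h h' => rsq_trans hLS h h', rsq_few hLS hc hγ.le, ?_⟩
    · rw [mem_rsq hLS] at h
      exact ⟨h.1, h.2.1⟩
    · intro α hα hst
      refine ⟨?_, fun z hz => (mem_sep.1 hz).1, ?_, ?_⟩
      · refine HOD_sepG (A := fun b x => pair (x 0) b ∈ x 1) (dfn_pm Gd_Trs _ _ _) (HOD_ord l)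
          [α.toZFSet, rsq L S U e γ] ?_
        intro p hp
        simp only [List.mem_cons, List.not_mem_nil, or_false] at hp
        rcases hp with rfl | rfl
        · exact OD_ord α
        · exact (hRO γ).od
      · refine hst.mono fun β hβ h => ?_
        show β.toZFSet ∈ ZFSet.sep (fun b => pair α.toZFSet b ∈ rsq L S U e γ) l.toZFSet
        exact mem_sep.2 ⟨tz_mem.2 hβ, h⟩
      · rintro Y hY ⟨h1, h2⟩
        refine hns ⟨Y ∩ L, fun z hz => (mem_inter.1 hz).2, ?_, ?_, α.toZFSet, hLS hα, ?_, ?_⟩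
        · rw [hL]; exact HOD_inter_ord hY l
        · rw [hL]; exact HOD_inter_ord hY l
        · rw [hL, stIn_iff]
          refine h1.mono fun β hβ h => ?_
          obtain ⟨h3, h4⟩ := h
          have h3' : β.toZFSet ∈ ZFSet.sep (fun b => pair α.toZFSet b ∈ rsq L S U e γ)
            l.toZFSet := h3
          refine ⟨?_, mem_inter.2 ⟨h4, tz_mem.2 hβ⟩⟩
          rw [← hL]
          exact (mem_sep.1 h3').2
        · rw [hL, stOut_iff]
          refine h2.mono fun β hβ h => ?_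
          obtain ⟨h3, h4⟩ := h
          have h3' : β.toZFSet ∈ ZFSet.sep (fun b => pair α.toZFSet b ∈ rsq L S U e γ)
            l.toZFSet := h3
          refine ⟨?_, fun h5 => h4 (mem_inter.1 h5).1⟩
          rw [← hL]
          exact (mem_sep.1 h3').2
  · exfalso
    push Not at hA
    -- choose the sets which split
    have hsel : ∀ γ < c.ord, ∃ Y, Y ⊆ L ∧ Spl Y (rsq L S U e γ) L ∧
        DfP U (pair (rsq L S U e γ) e) Y := by
      intro γ hγ
      obtain ⟨z, h1, h2, h3⟩ := hA γ hγ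
      rw [he]
      exact exists_sel dfn_Spl hU (by rw [← he]; exact hRU γ) hLU hρU hρ ⟨z, h1, h2, by
        rw [← he]; exact h3⟩
    choose! Y hY1 hY2 hY3 using hsel
    obtain ⟨R, hR⟩ : ∃ R : ZFSet.{u}, R = rsq L S U e c.ord := ⟨_, rfl⟩
    obtain ⟨f, hf1, hf2⟩ := rsq_few (U := U) (e := e) hLS hc (le_refl c.ord)
    rw [← hR] at hf2
    -- representatives
    have hrep : ∀ α : Ordinal.{u}, StatL {β | pair α.toZFSet β.toZFSet ∈ R} l →
        ∃ τ < l, Rep R L τ.toZFSet ∧ pair α.toZFSet τ.toZFSet ∈ R := by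
      intro α hst
      obtain ⟨τ, hτ, hmin⟩ := WellFounded.has_min (wellFounded_lt (α := Ordinal.{u}))
        {β | pair α.toZFSet β.toZFSet ∈ R} (by
          obtain ⟨β, _, h⟩ := StatL.ne hl hst
          exact ⟨β, h⟩)
      have hτ' : pair α.toZFSet τ.toZFSet ∈ R := hτ
      have hτS : τ.toZFSet ∈ S := by
        rw [hR, mem_rsq hLS] at hτ'
        exact hτ'.2.1
      refine ⟨τ, tz_mem.1 (hS hτS), ⟨?_, ?_, ?_⟩, hτ'⟩
      · rw [hR]; exact rsq_refl hLS hτS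
      · intro C hC1 hC2
        rw [hL] at hC1 hC2
        obtain ⟨β, _, h1, h2⟩ := hst C hC1 hC2
        refine ⟨_, h2, ?_⟩
        have h1' : pair α.toZFSet β.toZFSet ∈ R := h1
        rw [hR] at h1' hτ' ⊢
        exact rsq_trans hLS (rsq_symm hLS hτ') h1'
      · intro b hb hb'
        obtain ⟨β, hβ, rfl⟩ := Ordinal.mem_toZFSet_iff.1 hb
        refine hmin β ?_ hβ
        show pair α.toZFSet β.toZFSet ∈ R
        rw [hR] at hb' hτ' ⊢
        exact rsq_trans hLS hτ' hb'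
    -- two inequivalent representatives at each stage
    have hpair : ∀ γ < c.ord, ∃ s t : Ordinal.{u}, (s < l ∧ Rep R L s.toZFSet) ∧
        (t < l ∧ Rep R L t.toZFSet) ∧ s.toZFSet ∈ Y γ ∧ t.toZFSet ∉ Y γ ∧
        pair s.toZFSet t.toZFSet ∈ rsq L S U e γ := by
      intro γ hγ
      obtain ⟨_, a, ha, h1, h2⟩ := hY2 γ hγ
      rw [hL, stIn_iff, ← hL] at h1
      rw [hL, stOut_iff, ← hL] at h2
      have hin : ∀ {x y : Ordinal.{u}}, pair x.toZFSet y.toZFSet ∈ R →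
          (x.toZFSet ∈ Y γ ↔ y.toZFSet ∈ Y γ) := by
        intro x y h
        rw [hR, mem_rsq hLS] at h
        exact h.2.2 γ hγ _ (hY1 γ hγ) (hY3 γ hγ)
      have hdn : ∀ {x y : ZFSet.{u}}, pair x y ∈ R → pair x y ∈ rsq L S U e γ := by
        intro x y h
        rw [hR] at h
        exact rsq_anti hLS hγ.le h
      obtain ⟨x, hx, hx'⟩ := few_stat hl hcl hf1 hf2 h1 fun β hβ => by
        have := hβ.1
        rw [mem_rsq hLS] at this
        exact this.2.1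
      obtain ⟨y, hy, hy'⟩ := few_stat hl hcl hf1 hf2 h2 fun β hβ => by
        have := hβ.1
        rw [mem_rsq hLS] at this
        exact this.2.1
      obtain ⟨s, hs, hs1, hs2⟩ := hrep x (hx'.mono fun β _ h => h.2)
      obtain ⟨t, ht, ht1, ht2⟩ := hrep y (hy'.mono fun β _ h => h.2)
      refine ⟨s, t, ⟨hs, hs1⟩, ⟨ht, ht1⟩, (hin hs2).1 hx.2, fun h => hy.2 ((hin ht2).2 h), ?_⟩
      exact rsq_trans hLS (rsq_symm hLS (rsq_trans hLS hx.1 (hdn hs2)))
        (rsq_trans hLS hy.1 (hdn ht2))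
    choose! s t hs ht hsY htY hst using hpair
    -- the set of the representatives
    obtain ⟨W, hW⟩ : ∃ W : ZFSet.{u}, W = ZFSet.sep (fun a => Rep R L a) L := ⟨_, rfl⟩
    have hRH : HOD R := by rw [hR]; exact hRO _
    have hWO : HOD W := by
      rw [hW]
      refine HOD_sepG (A := fun a x => Rep (x 0) (x 1) a) (dfn_Rep _ _ _)
        (by rw [hL]; exact HOD_ord l) [R, L] ?_
      intro p hp
      simp only [List.mem_cons, List.not_mem_nil, or_false] at hp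
      rcases hp with rfl | rfl
      · exact hRH.od
      · rw [hL]; exact OD_ord l
    have hWm : ∀ η : Ordinal.{u}, η.toZFSet ∈ W ↔ η < l ∧ Rep R L η.toZFSet := by
      intro η
      rw [hW, mem_sep, hL, tz_mem]
    let TT : Set Ordinal.{u} := {η | η < l ∧ η.toZFSet ∈ W}
    have hcard : Cardinal.lift.{u + 1} c ≤ Cardinal.mk TT := by
      by_contra hcon
      push Not at hcon
      let G : Set.Iio c.ord → TT × TT := fun γ =>
        (⟨s γ.1, (hs γ.1 γ.2).1, (hWm _).2 (hs γ.1 γ.2)⟩,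
          ⟨t γ.1, (ht γ.1 γ.2).1, (hWm _).2 (ht γ.1 γ.2)⟩)
      have hG : Function.Injective G := by
        have key : ∀ γ γ' : Ordinal.{u}, γ < γ' → γ' < c.ord → s γ = s γ' → t γ = t γ' → False := by
          intro γ γ' h1 h2 h3 h4
          have h5 := hst γ' h2
          rw [mem_rsq hLS] at h5
          have h6 := h5.2.2 γ h1 _ (hY1 γ (h1.trans h2)) (hY3 γ (h1.trans h2))
          rw [← h3, ← h4] at h6
          exact htY γ (h1.trans h2) (h6.1 (hsY γ (h1.trans h2)))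
        rintro ⟨γ, hγ⟩ ⟨γ', hγ'⟩ h
        simp only [G, Prod.mk.injEq, Subtype.mk.injEq] at h
        rcases lt_trichotomy γ γ' with h1 | h1 | h1
        · exact (key γ γ' h1 hγ' h.1 h.2).elim
        · exact Subtype.ext h1
        · exact (key γ' γ h1 hγ h.1.symm h.2.symm).elim
      have h1 := Cardinal.mk_le_of_injective hG
      rw [Cardinal.mk_Iio_ordinal, Cardinal.card_ord, Cardinal.mk_prod, Cardinal.lift_id] at h1
      have h2 : Cardinal.aleph0 ≤ Cardinal.lift.{u + 1} c := by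
        rw [Cardinal.aleph0_le_lift]; exact hc
      exact absurd (Cardinal.mul_lt_of_lt h2 hcon hcon) (not_lt.2 h1)
    obtain ⟨w, hw⟩ := exists_Enum' (enum_lt hcard)
    have hwO : OD w := OD_enum hWO.od hw
    obtain ⟨hwf, hw1, hw2, hw3⟩ := hw
    refine hno ⟨gr c.ord.toZFSet fun i => ZFSet.sep (fun z => ∃ a ∈ L, pair i a ∈ w ∧
      pair a z ∈ R) l.toZFSet, ?_, isFunc_gr fun i hi => mem_powerset.2 fun z hz =>
        (mem_sep.1 hz).1, ?_, ?_⟩
    · refine HOD_grG (A := fun z i x => ∃ a ∈ x 0, pair i a ∈ x 1 ∧ pair a z ∈ x 2) ?_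
        (HOD_ord _) (HOD_ord _) [L, w, R] ?_
      · exact Dfn.bex Gd_Trs _ ((dfn_pm Gd_Trs _ _ _).and (dfn_pm Gd_Trs _ _ _))
      · intro p hp
        simp only [List.mem_cons, List.not_mem_nil, or_false] at hp
        rcases hp with rfl | rfl | rfl
        · rw [hL]; exact OD_ord l
        · exact hwO
        · exact hRH.od
    · intro i hi A hA hiA
      rw [pair_mem_gr] at hiA
      have h1 := app_spec hwf hi
      have h2 := app_mem hwf hi
      have h3 := hw1 i hi _ h2 h1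
      obtain ⟨η, hη, h4⟩ := Ordinal.mem_toZFSet_iff.1 h2
      rw [← h4] at h1 h3
      have h5 := ((hWm η).1 h3).2
      rw [← hiA.2]
      refine ⟨?_, fun z hz => ?_⟩
      · intro C hC1 hC2
        obtain ⟨b, hb, hb'⟩ := h5.2.1 C (by rw [hL]; exact hC1) (by rw [hL]; exact hC2)
        exact ⟨b, mem_sep.2 ⟨hC1 hb, η.toZFSet, by rw [hL]; exact tz_mem.2 hη, h1, hb'⟩, hb⟩
      · obtain ⟨_, a, _, _, h6⟩ := mem_sep.1 hz
        rw [hR, mem_rsq hLS] at h6
        exact h6.2.1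
    · rintro i hi i' hi' A hA A' hA' hiA hiA' ⟨b, hb, hb'⟩
      rw [pair_mem_gr] at hiA hiA'
      rw [← hiA.2, mem_sep] at hb
      rw [← hiA'.2, mem_sep] at hb'
      obtain ⟨_, a, ha, hia, hab⟩ := hb
      obtain ⟨_, a', ha', hia', hab'⟩ := hb'
      rw [hL] at ha ha'
      have r1 := hw1 i hi a ha hia
      have r2 := hw1 i' hi' a' ha' hia'
      obtain ⟨α, hα, rfl⟩ := Ordinal.mem_toZFSet_iff.1 ha
      obtain ⟨α', hα', rfl⟩ := Ordinal.mem_toZFSet_iff.1 ha'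
      have r1' := ((hWm α).1 r1).2
      have r2' := ((hWm α').1 r2).2
      have h1 : pair α.toZFSet α'.toZFSet ∈ R := by
        rw [hR] at hab hab' ⊢
        exact rsq_trans hLS hab (rsq_symm hLS hab')
      have h2 : pair α'.toZFSet α.toZFSet ∈ R := by
        rw [hR] at h1 ⊢
        exact rsq_symm hLS h1
      have h3 : α = α' := by
        rcases lt_trichotomy α α' with h | h | h
        · exact absurd h2 (r2'.2.2 _ (tz_mem.2 h))
        · exact h
        · exact absurd h1 (r1'.2.2 _ (tz_mem.2 h))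
      subst h3
      obtain ⟨i, hi2, rfl⟩ := Ordinal.mem_toZFSet_iff.1 hi
      obtain ⟨i', hi2', rfl⟩ := Ordinal.mem_toZFSet_iff.1 hi'
      rcases lt_trichotomy i i' with h | h | h
      · exact absurd (hw2 _ hi' _ (tz_mem.2 h) _ ha _ ha hia' hia) (mem_irrefl _)
      · rw [h]
      · exact absurd (hw2 _ hi _ (tz_mem.2 h) _ ha _ ha hia hia') (mem_irrefl _)

end Pool.Agent.H93.HM
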