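import Pool.Agent.H93.HM.Ch
import Pool.Agent.H93.HM.Dec

/-!
The decreasing sequence of equivalence relations in `HOD` given by canonical choices.
-/

set_option autoImplicit false
set_option linter.unusedVariables false

namespace Pool.Agent.H93.HM

open ZFSet Gss969 Pool.Agent.H310.HD

universe u

/-- The sequence of relations: `a` and `b` are equivalent at stage `γ` if they belong to the same
earlier canonical choices. -/
noncomputable def csq (Ψ : ZFSet.{u} → ZFSet.{u} → ZFSet.{u} → Prop) (L S U e : ZFSet.{u})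
    (γ : Ordinal.{u}) : ZFSet.{u} :=
  ZFSet.sep (fun p => ∃ a b, p = pair a b ∧ a ∈ S ∧ b ∈ S ∧ ∀ γ' : Ordinal.{u}, (h : γ' < γ) →
    ∀ Y, Y ⊆ L → Ch Ψ U e L (csq Ψ L S U e γ') Y → (a ∈ Y ↔ b ∈ Y)) (prod L L)
termination_by γ
decreasing_by exact h

variable {Ψ : ZFSet.{u} → ZFSet.{u} → ZFSet.{u} → Prop} {L S U e : ZFSet.{u}}

theorem csq_sub (γ : Ordinal.{u}) : csq Ψ L S U e γ ⊆ prod L L := by
  intro p hp
  rw [csq, mem_sep] at hp
  exact hp.1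

theorem mem_csq (hS : S ⊆ L) {γ : Ordinal.{u}} {a b : ZFSet.{u}} :
    pair a b ∈ csq Ψ L S U e γ ↔ a ∈ S ∧ b ∈ S ∧ ∀ γ' < γ, ∀ Y, Y ⊆ L →
      Ch Ψ U e L (csq Ψ L S U e γ') Y → (a ∈ Y ↔ b ∈ Y) := by
  rw [csq, mem_sep, pair_mem_prod]
  constructor
  · rintro ⟨_, a', b', h1, h2⟩
    rw [pair_inj] at h1
    obtain ⟨rfl, rfl⟩ := h1
    exact h2
  · intro h
    exact ⟨⟨hS h.1, hS h.2.1⟩, a, b, rfl, h⟩

theorem csq_refl (hS : S ⊆ L) {γ : Ordinal.{u}} {a : ZFSet.{u}} (ha : a ∈ S) :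
    pair a a ∈ csq Ψ L S U e γ := (mem_csq hS).2 ⟨ha, ha, fun _ _ _ _ _ => Iff.rfl⟩

theorem csq_symm (hS : S ⊆ L) {γ : Ordinal.{u}} {a b : ZFSet.{u}}
    (h : pair a b ∈ csq Ψ L S U e γ) : pair b a ∈ csq Ψ L S U e γ := by
  rw [mem_csq hS] at h ⊢
  exact ⟨h.2.1, h.1, fun γ' h1 Y hY hd => (h.2.2 γ' h1 Y hY hd).symm⟩

theorem csq_trans (hS : S ⊆ L) {γ : Ordinal.{u}} {a b c : ZFSet.{u}}
    (h : pair a b ∈ csq Ψ L S U e γ) (h' : pair b c ∈ csq Ψ L S U e γ) :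
    pair a c ∈ csq Ψ L S U e γ := by
  rw [mem_csq hS] at h h' ⊢
  exact ⟨h.1, h'.2.1, fun γ' h1 Y hY hd => (h.2.2 γ' h1 Y hY hd).trans (h'.2.2 γ' h1 Y hY hd)⟩

theorem csq_anti (hS : S ⊆ L) {γ γ' : Ordinal.{u}} (hγ : γ ≤ γ') {a b : ZFSet.{u}}
    (h : pair a b ∈ csq Ψ L S U e γ') : pair a b ∈ csq Ψ L S U e γ := by
  rw [mem_csq hS] at h ⊢
  exact ⟨h.1, h.2.1, fun γ'' h1 Y hY hd => h.2.2 γ'' (h1.trans_le hγ) Y hY hd⟩

/-- The recursive definition of the sequence of relations. -/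
def Rec2 (Ψ : ZFSet.{u} → ZFSet.{u} → ZFSet.{u} → Prop) (y k T L S U e : ZFSet.{u}) : Prop :=
  IsFunc k T y ∧ ∀ i ∈ k, ∀ R ∈ T, pair i R ∈ y → ∀ a ∈ L, ∀ b ∈ L, (pair a b ∈ R ↔
    (a ∈ S ∧ (b ∈ S ∧ ∀ j ∈ i, ∀ R' ∈ T, pair j R' ∈ y → ∀ Y, Y ⊆ L →
      (Ch Ψ U e L R' Y → (a ∈ Y ↔ b ∈ Y)))))

theorem dfn_Rec2 (hΨ : Dfn Gd.{u} (fun v => Ψ (v 0) (v 1) (v 2))) :
    Dfn Gd.{u} (fun v => Rec2 Ψ (v 0) (v 1) (v 2) (v 3) (v 4) (v 5) (v 6)) := by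
  unfold Rec2
  repeat' first
    | exact Dfn.mem _ _ | exact dfn_pm Gd_Trs _ _ _ | exact dfn_isFunc Gd_Trs _ _ _
    | exact dfn_Ch hΨ _ _ _ _ _
    | refine Dfn.and ?_ ?_ | refine Dfn.iff ?_ ?_ | refine Dfn.allsub Gd_Lvl _ ?_
    | refine Dfn.ball Gd_Trs _ ?_ | refine Dfn.bex Gd_Trs _ ?_ | refine Dfn.imp ?_ ?_

theorem rec2_unique {k T L S U e y y' : ZFSet.{u}} (hk : k.IsOrdinal)
    (hT : ∀ R ∈ T, R ⊆ prod L L) (h : Rec2 Ψ y k T L S U e)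
    (h' : Rec2 Ψ y' k T L S U e) : y = y' := by
  obtain ⟨hf, h1⟩ := h
  obtain ⟨hf', h1'⟩ := h'
  obtain ⟨κ, rfl⟩ : ∃ κ : Ordinal.{u}, k = κ.toZFSet := ⟨rank k, hk.toZFSet_rank_eq.symm⟩
  have key : ∀ i < κ, app y i.toZFSet = app y' i.toZFSet := by
    intro i
    induction i using WellFoundedLT.induction with
    | ind i ih =>
      intro hi
      have hi' := tz_mem.2 hi
      have m1 := app_mem hf hi'
      have m2 := app_mem hf' hi'
      have s1 := h1 _ hi' _ m1 (app_spec hf hi')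
      have s2 := h1' _ hi' _ m2 (app_spec hf' hi')
      have e1 : ∀ a ∈ L, ∀ b ∈ L, (pair a b ∈ app y i.toZFSet ↔ pair a b ∈ app y' i.toZFSet) := by
        intro a ha b hb
        rw [s1 a ha b hb, s2 a ha b hb]
        refine and_congr_right fun _ => and_congr_right fun _ => forall₂_congr fun j hj => ?_
        obtain ⟨j, hj', rfl⟩ := Ordinal.mem_toZFSet_iff.1 hj
        have hjk := tz_mem.2 (hj'.trans hi)
        refine forall₂_congr fun R' hR' => ?_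
        rw [app_iff hf hjk, app_iff hf' hjk, ih j hj' (hj'.trans hi)]
      ext p
      constructor
      · intro hp
        obtain ⟨a, ha, b, hb, rfl⟩ := mem_prod.1 (hT _ m1 hp)
        exact (e1 a ha b hb).1 hp
      · intro hp
        obtain ⟨a, ha, b, hb, rfl⟩ := mem_prod.1 (hT _ m2 hp)
        exact (e1 a ha b hb).2 hp
  refine func_ext hf hf' fun x hx => ?_
  obtain ⟨i, hi, rfl⟩ := Ordinal.mem_toZFSet_iff.1 hx
  exact key i hi

/-- The function which lists the relations. -/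
noncomputable def csf (Ψ : ZFSet.{u} → ZFSet.{u} → ZFSet.{u} → Prop) (L S U e : ZFSet.{u})
    (k : Ordinal.{u}) : ZFSet.{u} := gr k.toZFSet fun i => csq Ψ L S U e (rank i)

theorem mem_csf {k i : Ordinal.{u}} {R : ZFSet.{u}} :
    pair i.toZFSet R ∈ csf Ψ L S U e k ↔ i < k ∧ R = csq Ψ L S U e i := by
  unfold csf
  rw [pair_mem_gr, Ordinal.rank_toZFSet, tz_mem]
  exact and_congr_right fun _ => eq_comm

theorem rec2_csq (hS : S ⊆ L) (k : Ordinal.{u}) :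
    Rec2 Ψ (csf Ψ L S U e k) k.toZFSet (powerset (prod L L)) L S U e := by
  have hf : IsFunc k.toZFSet (powerset (prod L L)) (gr k.toZFSet fun i => csq Ψ L S U e (rank i)) :=
    isFunc_gr fun x _ => mem_powerset.2 (csq_sub _)
  refine ⟨hf, fun i hi R hR hiR a ha b hb => ?_⟩
  obtain ⟨i, hi', rfl⟩ := Ordinal.mem_toZFSet_iff.1 hi
  rw [(mem_csf.1 hiR).2, mem_csq hS]
  refine and_congr_right fun _ => and_congr_right fun _ => ?_
  constructor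
  · intro h j hj R' hR' hjR' Y hY hd
    obtain ⟨j, hj', rfl⟩ := Ordinal.mem_toZFSet_iff.1 hj
    rw [(mem_csf.1 hjR').2] at hd
    exact h j hj' Y hY hd
  · intro h j hj Y hY hd
    exact h _ (tz_mem.2 hj) _ (mem_powerset.2 (csq_sub j)) (mem_csf.2 ⟨hj.trans hi', rfl⟩) Y hY hd

theorem OD_csf (hΨ : Dfn Gd.{u} (fun v => Ψ (v 0) (v 1) (v 2))) (hLO : OD L) (hS : S ⊆ L)
    (hSO : OD S) (hU : OD U) (he : OD e) (k : Ordinal.{u}) : OD (csf Ψ L S U e k) := by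
  refine OD_def (R := fun y x => Rec2 Ψ y (x 0) (x 1) (x 2) (x 3) (x 4) (x 5)) (dfn_Rec2 hΨ)
    [k.toZFSet, powerset (prod L L), L, S, U, e] ?_ fun y => ?_
  · intro p hp
    simp only [List.mem_cons, List.not_mem_nil, or_false] at hp
    rcases hp with rfl | rfl | rfl | rfl | rfl | rfl
    · exact OD_ord _
    · exact OD_pow (OD_prod hLO)
    · exact hLO
    · exact hSO
    · exact hU
    · exact he
  · show Rec2 Ψ y k.toZFSet (powerset (prod L L)) L S U e ↔ _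
    constructor
    · intro h
      exact rec2_unique (isOrdinal_toZFSet _) (fun R hR => mem_powerset.1 hR) h (rec2_csq hS _)
    · rintro rfl
      exact rec2_csq hS _

/-- The relations belong to `HOD`. -/
theorem HOD_csq (hΨ : Dfn Gd.{u} (fun v => Ψ (v 0) (v 1) (v 2))) {l : Ordinal.{u}}
    (hL : L = l.toZFSet) (hS : S ⊆ L) (hSO : OD S) (hU : OD U)
    (he : OD e) (γ : Ordinal.{u}) : HOD (csq Ψ L S U e γ) := by
  have hLO : OD L := by rw [hL]; exact OD_ord l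
  have h1 := OD_csf hΨ hLO hS hSO hU he (Order.succ γ)
  have hsub : ∀ γ' : Ordinal.{u}, ∀ p ∈ csq Ψ L S U e γ', HOD p := by
    intro γ' p hp
    obtain ⟨a, ha, b, hb, rfl⟩ := mem_prod.1 (csq_sub γ' hp)
    rw [hL] at ha hb
    obtain ⟨a, _, rfl⟩ := Ordinal.mem_toZFSet_iff.1 ha
    obtain ⟨b, _, rfl⟩ := Ordinal.mem_toZFSet_iff.1 hb
    exact HOD_pair (HOD_ord a) (HOD_ord b)
  refine HOD_of_sub ?_ (hsub γ)
  refine OD_def (R := fun y x => y ∈ x 2 ∧ pair (x 0) y ∈ x 1) ?_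
    [γ.toZFSet, csf Ψ L S U e (Order.succ γ), powerset (prod L L)] ?_
    fun y => ?_
  · exact (Dfn.mem _ _).and (dfn_pm Gd_Trs _ _ _)
  · intro p hp
    simp only [List.mem_cons, List.not_mem_nil, or_false] at hp
    rcases hp with rfl | rfl | rfl
    · exact OD_ord _
    · exact h1
    · exact OD_pow (OD_prod hLO)
  · show (y ∈ powerset (prod L L) ∧ pair γ.toZFSet y ∈ csf Ψ L S U e (Order.succ γ)) ↔ _
    rw [mem_csf]
    constructor
    · rintro ⟨_, _, h⟩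
      exact h
    · rintro rfl
      exact ⟨mem_powerset.2 (csq_sub γ), Order.lt_succ γ, rfl⟩

/-- The set of the stages whose choice contains `a`. -/
noncomputable def fch (Ψ : ZFSet.{u} → ZFSet.{u} → ZFSet.{u} → Prop) (L S U e : ZFSet.{u})
    (k : Ordinal.{u}) (a : ZFSet.{u}) : ZFSet.{u} :=
  ZFSet.sep (fun i => ∃ R ∈ powerset (prod L L), pair i R ∈ csf Ψ L S U e k ∧
    ∃ Y, Y ⊆ L ∧ (Ch Ψ U e L R Y ∧ a ∈ Y)) k.toZFSet

theorem mem_fch {k i : Ordinal.{u}} {a : ZFSet.{u}} : i.toZFSet ∈ fch Ψ L S U e k a ↔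
    i < k ∧ ∃ Y, Y ⊆ L ∧ Ch Ψ U e L (csq Ψ L S U e i) Y ∧ a ∈ Y := by
  unfold fch
  rw [mem_sep, tz_mem]
  refine and_congr_right fun hi => ?_
  constructor
  · rintro ⟨R, _, h1, h2⟩
    rw [(mem_csf.1 h1).2] at h2
    exact h2
  · intro h
    exact ⟨_, mem_powerset.2 (csq_sub i), mem_csf.2 ⟨hi, rfl⟩, h⟩

theorem HOD_fch (hΨ : Dfn Gd.{u} (fun v => Ψ (v 0) (v 1) (v 2))) (hLO : OD L) (hS : S ⊆ L)
    (hSO : OD S) (hU : OD U) (he : OD e) (k : Ordinal.{u}) {a : ZFSet.{u}} (ha : OD a) :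
    HOD (fch Ψ L S U e k a) := by
  refine HOD_sepG (A := fun i x => ∃ R ∈ x 0, pair i R ∈ x 1 ∧
    ∃ Y, Y ⊆ x 2 ∧ (Ch Ψ (x 3) (x 4) (x 2) R Y ∧ x 5 ∈ Y)) ?_ (HOD_ord k)
    [powerset (prod L L), csf Ψ L S U e k, L, U, e, a] ?_
  · refine Dfn.bex Gd_Trs _ (Dfn.and (dfn_pm Gd_Trs _ _ _) (Dfn.exsub Gd_Lvl _
      (Dfn.and (dfn_Ch hΨ _ _ _ _ _) (Dfn.mem _ _))))
  · intro p hp
    simp only [List.mem_cons, List.not_mem_nil, or_false] at hp
    rcases hp with rfl | rfl | rfl | rfl | rfl | rfl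
    · exact OD_pow (OD_prod hLO)
    · exact OD_csf hΨ hLO hS hSO hU he k
    · exact hLO
    · exact hU
    · exact he
    · exact ha

/-- There are few classes. -/
theorem csq_few (hΨ : Dfn Gd.{u} (fun v => Ψ (v 0) (v 1) (v 2))) {l : Ordinal.{u}}
    (hL : L = l.toZFSet) (hS : S ⊆ L) (hSO : OD S) (hU : OD U) (he : OD e) {k : Ordinal.{u}}
    (hk : FewSub HOD k.toZFSet l.toZFSet) {γ : Ordinal.{u}} (hγ : γ ≤ k) :
    ∃ m < l, ∃ f : Ordinal.{u} → Ordinal.{u}, (∀ α, α.toZFSet ∈ S → f α < m) ∧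
      ∀ α β : Ordinal.{u}, α.toZFSet ∈ S → β.toZFSet ∈ S → f α = f β →
        pair α.toZFSet β.toZFSet ∈ csq Ψ L S U e γ := by
  have hLO : OD L := by rw [hL]; exact OD_ord l
  obtain ⟨m, hm, g, hg, hon⟩ := hk
  obtain ⟨m, hm', rfl⟩ := Ordinal.mem_toZFSet_iff.1 hm
  have h1 : ∀ α : Ordinal.{u}, α.toZFSet ∈ S → ∃ i < m,
      pair (Ordinal.toZFSet i) (fch Ψ L S U e k α.toZFSet) ∈ g := by
    intro α hα
    obtain ⟨i, hi, h2⟩ := hon _ (fun z hz => (mem_sep.1 hz).1)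
      (HOD_fch hΨ hLO hS hSO hU he k (OD_ord α))
    obtain ⟨i, hi', rfl⟩ := Ordinal.mem_toZFSet_iff.1 hi
    exact ⟨i, hi', h2⟩
  choose! f hf1 hf2 using h1
  refine ⟨m, hm', f, hf1, fun α β hα hβ h => ?_⟩
  have h2 := hf2 α hα
  have h3 := hf2 β hβ
  rw [← h] at h3
  have h4 : fch Ψ L S U e k α.toZFSet = fch Ψ L S U e k β.toZFSet :=
    ((app_iff hg (tz_mem.2 (hf1 α hα))).1 h2).symm.trans
      ((app_iff hg (tz_mem.2 (hf1 α hα))).1 h3)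
  rw [mem_csq hS]
  refine ⟨hα, hβ, fun γ' hγ' Y hY hd => ?_⟩
  have key : ∀ x : ZFSet.{u}, γ'.toZFSet ∈ fch Ψ L S U e k x ↔ x ∈ Y := by
    intro x
    rw [mem_fch]
    constructor
    · rintro ⟨_, Y', _, h5, h6⟩
      rw [hL] at h5 hd
      rw [Ch.unique hd h5]
      exact h6
    · intro h5
      exact ⟨hγ'.trans_le hγ, Y, hY, hd, h5⟩
  rw [← key, ← key, h4]

end Pool.Agent.H93.HM
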