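import Pool.Agent.H93.HM.Csq

/-!
Decomposition into few sets which cannot be split in `HOD`, for the two conditions in the definition
of strongly measurable cardinals.
-/

set_option autoImplicit false
set_option linter.unusedVariables false

namespace Pool.Agent.H93.HM

open ZFSet Gss969 Pool.Agent.H310.HD

universe u

variable {l : Ordinal.{u}}

theorem few_stat2 (hl : RegUnc l.toZFSet) {m : Ordinal.{u}} (hm : m < l) {S R : ZFSet.{u}}
    {f : Ordinal.{u} → Ordinal.{u}} (hf : ∀ α : Ordinal.{u}, α.toZFSet ∈ S → f α < m)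
    (hfR : ∀ α β : Ordinal.{u}, α.toZFSet ∈ S → β.toZFSet ∈ S → f α = f β →
      pair α.toZFSet β.toZFSet ∈ R) {T : Set Ordinal.{u}} (hT : StatL T l)
    (hTS : ∀ α ∈ T, α.toZFSet ∈ S) :
    ∃ α ∈ T, StatL {β | β ∈ T ∧ pair α.toZFSet β.toZFSet ∈ R} l := by
  obtain ⟨i, hi, h1⟩ := hT.union hl hm (P := fun i α => f α = i) fun α hα _ =>
    ⟨f α, hf α (hTS α hα), rfl⟩
  obtain ⟨α, hα, h2⟩ := StatL.ne hl h1
  refine ⟨α, h2.1, h1.mono fun β hβ h3 => ⟨h3.1, ?_⟩⟩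
  exact hfR α β (hTS α h2.1) (hTS β h3.1) (h2.2.trans h3.2.symm)

/-- Equivalent representatives are equal. -/
theorem Rep.eq {R L : ZFSet.{u}} {α β : Ordinal.{u}}
    (hsymm : ∀ a b, pair a b ∈ R → pair b a ∈ R) (hα : Rep R L α.toZFSet)
    (hβ : Rep R L β.toZFSet) (h : pair α.toZFSet β.toZFSet ∈ R) : α = β := by
  rcases lt_trichotomy α β with h1 | h1 | h1
  · exact absurd (hsymm _ _ h) (hβ.2.2 _ (tz_mem.2 h1))
  · exact h1
  · exact absurd h (hα.2.2 _ (tz_mem.2 h1))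

/-- A family of disjoint stationary sets from an injective sequence of representatives. -/
theorem fam_of_inj {R S w : ZFSet.{u}} (hRO : HOD R) (hRS : ∀ a b, pair a b ∈ R → a ∈ S ∧ b ∈ S)
    (hsymm : ∀ a b, pair a b ∈ R → pair b a ∈ R)
    (htrans : ∀ a b d, pair a b ∈ R → pair b d ∈ R → pair a d ∈ R)
    {k : Ordinal.{u}} (hwO : OD w) (hwf : IsFunc k.toZFSet l.toZFSet w)
    (hrep : ∀ i < k, Rep R l.toZFSet (app w (Ordinal.toZFSet i)))
    (hinj : ∀ i < k, ∀ j < k, app w (Ordinal.toZFSet i) = app w (Ordinal.toZFSet j) → i = j) :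
    ∃ g, HOD g ∧ DisjFam k.toZFSet l.toZFSet S g := by
  refine ⟨gr k.toZFSet fun i => ZFSet.sep (fun z => ∃ a ∈ l.toZFSet, pair i a ∈ w ∧
      pair a z ∈ R) l.toZFSet, ?_, isFunc_gr fun i hi => mem_powerset.2 fun z hz =>
        (mem_sep.1 hz).1, ?_, ?_⟩
  · refine HOD_grG (A := fun z i x => ∃ a ∈ x 0, pair i a ∈ x 1 ∧ pair a z ∈ x 2) ?_
      (HOD_ord _) (HOD_ord _) [l.toZFSet, w, R] ?_
    · exact Dfn.bex Gd_Trs _ ((dfn_pm Gd_Trs _ _ _).and (dfn_pm Gd_Trs _ _ _))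
    · intro p hp
      simp only [List.mem_cons, List.not_mem_nil, or_false] at hp
      rcases hp with rfl | rfl | rfl
      · exact OD_ord l
      · exact hwO
      · exact hRO.od
  · intro i hi A hA hiA
    rw [pair_mem_gr] at hiA
    obtain ⟨i, hi', rfl⟩ := Ordinal.mem_toZFSet_iff.1 hi
    have h5 := hrep i hi'
    have h1 := app_spec hwf hi
    have h2 := app_mem hwf hi
    rw [← hiA.2]
    refine ⟨?_, fun z hz => ?_⟩
    · intro C hC1 hC2
      obtain ⟨b, hb, hb'⟩ := h5.2.1 C hC1 hC2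
      exact ⟨b, mem_sep.2 ⟨hC1 hb, _, h2, h1, hb'⟩, hb⟩
    · obtain ⟨_, a, _, _, h6⟩ := mem_sep.1 hz
      exact (hRS _ _ h6).2
  · rintro i hi i' hi' A hA A' hA' hiA hiA' ⟨b, hb, hb'⟩
    rw [pair_mem_gr] at hiA hiA'
    rw [← hiA.2, mem_sep] at hb
    rw [← hiA'.2, mem_sep] at hb'
    obtain ⟨_, a, ha, hia, hab⟩ := hb
    obtain ⟨_, a', ha', hia', hab'⟩ := hb'
    rw [app_iff hwf hi] at hia
    rw [app_iff hwf hi'] at hia'
    obtain ⟨i, hi2, rfl⟩ := Ordinal.mem_toZFSet_iff.1 hi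
    obtain ⟨i', hi2', rfl⟩ := Ordinal.mem_toZFSet_iff.1 hi'
    have r1 := hrep i hi2
    have r2 := hrep i' hi2'
    rw [hia] at r1
    rw [hia'] at r2
    obtain ⟨α, hα, rfl⟩ := Ordinal.mem_toZFSet_iff.1 ha
    obtain ⟨α', hα', rfl⟩ := Ordinal.mem_toZFSet_iff.1 ha'
    have h3 : α = α' := Rep.eq hsymm r1 r2 (htrans _ _ _ hab (hsymm _ _ hab'))
    rw [hinj i hi2 i' hi2' (by rw [hia, hia', h3])]

/-- The candidates: representatives which are separated at the stage `i` from a smaller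
representative. -/
def Cnd (Ψ : ZFSet.{u} → ZFSet.{u} → ZFSet.{u} → Prop) (a i T P W L U e : ZFSet.{u}) : Prop :=
  a ∈ W ∧ ∃ a' ∈ a, a' ∈ W ∧ ∃ R ∈ P, pair i R ∈ T ∧ (pair a' a ∈ R ∧
    ∃ Y, Y ⊆ L ∧ (Ch Ψ U e L R Y ∧ ¬ (a' ∈ Y ↔ a ∈ Y)))

def Lam (Ψ : ZFSet.{u} → ZFSet.{u} → ZFSet.{u} → Prop) (a i T P W L U e : ZFSet.{u}) : Prop :=
  Cnd Ψ a i T P W L U e ∧ ∀ b ∈ a, ¬ Cnd Ψ b i T P W L U e

theorem dfn_Cnd {Ψ : ZFSet.{u} → ZFSet.{u} → ZFSet.{u} → Prop}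
    (hΨ : Dfn Gd.{u} (fun v => Ψ (v 0) (v 1) (v 2))) (a b c d e f g h : ℕ) :
    Dfn Gd.{u} (fun v => Cnd Ψ (v a) (v b) (v c) (v d) (v e) (v f) (v g) (v h)) := by
  unfold Cnd
  repeat' first
    | exact Dfn.mem _ _ | exact dfn_pm Gd_Trs _ _ _
    | exact dfn_Ch hΨ _ _ _ _ _
    | refine Dfn.and ?_ ?_ | refine Dfn.iff ?_ ?_ | refine Dfn.exsub Gd_Lvl _ ?_
    | refine Dfn.not ?_ | refine Dfn.bex Gd_Trs _ ?_

theorem lam_unique {Ψ : ZFSet.{u} → ZFSet.{u} → ZFSet.{u} → Prop} {i T P W L U e : ZFSet.{u}}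
    {α β : Ordinal.{u}} (h : Lam Ψ α.toZFSet i T P W L U e)
    (h' : Lam Ψ β.toZFSet i T P W L U e) : α = β := by
  rcases lt_trichotomy α β with h1 | h1 | h1
  · exact absurd h.1 (h'.2 _ (tz_mem.2 h1))
  · exact h1
  · exact absurd h'.1 (h.2 _ (tz_mem.2 h1))

/-- The sequence of the least candidates is ordinal definable. -/
theorem OD_lam {Ψ : ZFSet.{u} → ZFSet.{u} → ZFSet.{u} → Prop}
    (hΨ : Dfn Gd.{u} (fun v => Ψ (v 0) (v 1) (v 2))) {T P W L U e w : ZFSet.{u}}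
    (hT : OD T) (hP : OD P) (hW : OD W) (hL : OD L) (hU : OD U) (he : OD e) {k : Ordinal.{u}}
    (hwf : IsFunc k.toZFSet l.toZFSet w)
    (hw : ∀ i < k, Lam Ψ (app w (Ordinal.toZFSet i)) (Ordinal.toZFSet i) T P W L U e) :
    OD w := by
  refine OD_def (R := fun y x => IsFunc (x 0) (x 1) y ∧ ∀ i ∈ x 0, ∀ a ∈ x 1, pair i a ∈ y →
    (Cnd Ψ a i (x 2) (x 3) (x 4) (x 5) (x 6) (x 7) ∧
      ∀ b ∈ a, ¬ Cnd Ψ b i (x 2) (x 3) (x 4) (x 5) (x 6) (x 7)))
    ?_ [k.toZFSet, l.toZFSet, T, P, W, L, U, e] ?_ fun y => ?_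
  · repeat' first
      | exact dfn_pm Gd_Trs _ _ _ | exact dfn_isFunc Gd_Trs _ _ _
      | exact dfn_Cnd hΨ _ _ _ _ _ _ _ _
      | refine Dfn.and ?_ ?_
      | refine Dfn.not ?_ | refine Dfn.ball Gd_Trs _ ?_ | refine Dfn.imp ?_ ?_
  · intro p hp
    simp only [List.mem_cons, List.not_mem_nil, or_false] at hp
    rcases hp with rfl | rfl | rfl | rfl | rfl | rfl | rfl | rfl
    · exact OD_ord _
    · exact OD_ord _
    · exact hT
    · exact hP
    · exact hW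
    · exact hL
    · exact hU
    · exact he
  · show (IsFunc k.toZFSet l.toZFSet y ∧ ∀ i ∈ k.toZFSet, ∀ a ∈ l.toZFSet, pair i a ∈ y →
      Lam Ψ a i T P W L U e) ↔ _
    constructor
    · rintro ⟨hyf, hy⟩
      refine func_ext hyf hwf fun x hx => ?_
      obtain ⟨i, hi, rfl⟩ := Ordinal.mem_toZFSet_iff.1 hx
      have h1 := hy _ hx _ (app_mem hyf hx) (app_spec hyf hx)
      have h2 := hw i hi
      obtain ⟨α, hα, h3⟩ := Ordinal.mem_toZFSet_iff.1 (app_mem hyf hx)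
      obtain ⟨β, hβ, h4⟩ := Ordinal.mem_toZFSet_iff.1 (app_mem hwf hx)
      rw [← h3] at h1
      rw [← h4] at h2
      rw [← h3, ← h4, lam_unique h1 h2]
    · rintro rfl
      refine ⟨hwf, fun i hi a ha hia => ?_⟩
      obtain ⟨i, hi', rfl⟩ := Ordinal.mem_toZFSet_iff.1 hi
      rw [← (app_iff hwf hi).1 hia]
      exact hw i hi'

/-- **Decomposition.** -/
theorem decompose2 (hl : RegUnc l.toZFSet) {S : ZFSet.{u}} (hS : S ⊆ l.toZFSet) (hSO : HOD S)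
    {k : Ordinal.{u}} (hk : FewSub HOD k.toZFSet l.toZFSet)
    (hno : ¬ ∃ g, HOD g ∧ DisjFam k.toZFSet l.toZFSet S g) :
    ∃ θ < k, ∃ A : Ordinal.{u} → ZFSet.{u}, (∀ i < θ, Atom l (A i) ∧ A i ⊆ S) ∧
      ¬ StatL {α | α.toZFSet ∈ S ∧ ∀ i < θ, α.toZFSet ∉ A i} l := by
  classical
  obtain ⟨L, hL⟩ : ∃ L : ZFSet.{u}, L = l.toZFSet := ⟨_, rfl⟩
  have hLS : S ⊆ L := by rw [hL]; exact hS
  have hLO : OD L := by rw [hL]; exact OD_ord l
  obtain ⟨ρ, hρ⟩ := exists_rho L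
  obtain ⟨ζ, hζ, hU⟩ := exists_Gd (max l ρ)
  obtain ⟨U, hUe⟩ : ∃ U : ZFSet.{u}, U = V_ ζ := ⟨_, rfl⟩
  rw [← hUe] at hU
  have hUO : OD U := by rw [hUe]; exact OD_lev ζ
  obtain ⟨e, he⟩ : ∃ e : ZFSet.{u}, e = pair L ρ.toZFSet := ⟨_, rfl⟩
  have heO : OD e := by
    rw [he, hL]
    exact (HOD_pair (HOD_ord _) (HOD_ord _)).od
  have hLU : L ∈ U := by
    rw [hL, hUe, mem_vonNeumann, Ordinal.rank_toZFSet]
    exact (le_max_left _ _).trans_lt hζ
  have hρU : ρ.toZFSet ∈ U := by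
    rw [hUe, mem_vonNeumann, Ordinal.rank_toZFSet]
    exact (le_max_right _ _).trans_lt hζ
  have hRU : ∀ γ, csq Spl L S U e γ ∈ U :=
    fun γ => Lvl_sub hU.1 (Lvl_prod hU.1 hLU hLU) (csq_sub γ)
  have hRO : ∀ γ, HOD (csq Spl L S U e γ) := fun γ => HOD_csq dfn_Spl hL hLS hSO.od hUO heO γ
  have hRS : ∀ γ a b, pair a b ∈ csq Spl L S U e γ → a ∈ S ∧ b ∈ S := by
    intro γ a b h
    rw [mem_csq hLS] at h
    exact ⟨h.1, h.2.1⟩
  -- the sets of representatives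
  have hWex : ∀ γ, ∃ W : ZFSet.{u}, OD W ∧ ∀ η : Ordinal.{u}, η.toZFSet ∈ W ↔
      η < l ∧ Rep (csq Spl L S U e γ) L η.toZFSet := by
    intro γ
    refine ⟨ZFSet.sep (fun a => Rep (csq Spl L S U e γ) L a) L, ?_, fun η => ?_⟩
    · refine (HOD_sepG (A := fun a x => Rep (x 0) (x 1) a) (dfn_Rep _ _ _)
        (by rw [hL]; exact HOD_ord l) [csq Spl L S U e γ, L] ?_).od
      intro p hp
      simp only [List.mem_cons, List.not_mem_nil, or_false] at hp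
      rcases hp with rfl | rfl
      · exact (hRO γ).od
      · exact hLO
    · rw [mem_sep, hL, tz_mem]
  have hrep : ∀ γ, ∀ α : Ordinal.{u}, StatL {β | pair α.toZFSet β.toZFSet ∈ csq Spl L S U e γ} l →
      ∃ τ < l, Rep (csq Spl L S U e γ) L τ.toZFSet ∧
        pair α.toZFSet τ.toZFSet ∈ csq Spl L S U e γ := by
    intro γ α hst
    obtain ⟨τ, hτ, hmin⟩ := WellFounded.has_min (wellFounded_lt (α := Ordinal.{u}))
      {β | pair α.toZFSet β.toZFSet ∈ csq Spl L S U e γ} (by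
        obtain ⟨β, _, h⟩ := StatL.ne hl hst
        exact ⟨β, h⟩)
    have hτ' : pair α.toZFSet τ.toZFSet ∈ csq Spl L S U e γ := hτ
    have hτS : τ.toZFSet ∈ S := (hRS _ _ _ hτ').2
    refine ⟨τ, tz_mem.1 (hS hτS), ⟨csq_refl hLS hτS, ?_, ?_⟩, hτ'⟩
    · intro C hC1 hC2
      rw [hL] at hC1 hC2
      obtain ⟨β, _, h1, h2⟩ := hst C hC1 hC2
      exact ⟨_, h2, csq_trans hLS (csq_symm hLS hτ') h1⟩
    · intro b hb hb'
      obtain ⟨β, hβ, rfl⟩ := Ordinal.mem_toZFSet_iff.1 hb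
      exact hmin β (csq_trans hLS hτ' hb') hβ
  -- the stages at which nothing is split
  by_cases hA : ∃ γ < k, ¬ ∃ z, z ⊆ L ∧ HOD z ∧ Spl z (csq Spl L S U e γ) L
  · obtain ⟨γ, hγ, hns⟩ := hA
    obtain ⟨R, hR⟩ : ∃ R : ZFSet.{u}, R = csq Spl L S U e γ := ⟨_, rfl⟩
    obtain ⟨W, hWO, hWm⟩ := hWex γ
    have hrepγ := hrep γ
    have hROγ := hRO γ
    obtain ⟨m, hm, f, hf1, hf2⟩ := csq_few dfn_Spl hL hLS hSO.od hUO heO hk hγ.le
    have hRSγ := hRS γ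
    have hsymm : ∀ a b, pair a b ∈ csq Spl L S U e γ → pair b a ∈ csq Spl L S U e γ :=
      fun a b h => csq_symm hLS h
    have htrans : ∀ a b d, pair a b ∈ csq Spl L S U e γ → pair b d ∈ csq Spl L S U e γ →
      pair a d ∈ csq Spl L S U e γ := fun a b d h h' => csq_trans hLS h h'
    rw [← hR] at hns hWm hrepγ hROγ hf2 hRSγ hsymm htrans
    obtain ⟨Z, hZe⟩ : ∃ Z : Set Ordinal.{u}, Z = {η | η.toZFSet ∈ W ∨ l ≤ η} := ⟨_, rfl⟩
    have hZ : ¬ BddAbove Z := by rw [hZe]; exact notBdd_aux W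
    have hmono := Ordinal.enumOrd_strictMono hZ
    -- there are fewer than `k` representatives
    have hfew : ∃ i < k, l ≤ Ordinal.enumOrd Z i := by
      by_contra hcon
      push Not at hcon
      rw [hZe] at hcon
      obtain ⟨w, hw⟩ := exists_Enum' hcon
      have hwO : OD w := OD_enum hWO hw
      obtain ⟨hwf, hw1, hw2, hw3⟩ := hw
      refine hno (fam_of_inj hROγ hRSγ hsymm htrans hwO hwf (fun i hi => ?_)
        fun i hi j hj hij => ?_)
      · have hi' := tz_mem.2 hi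
        have h1 := hw1 _ hi' _ (app_mem hwf hi') (app_spec hwf hi')
        obtain ⟨η, hη, h2⟩ := Ordinal.mem_toZFSet_iff.1 (app_mem hwf hi')
        rw [← h2] at h1 ⊢
        rw [← hL]
        exact ((hWm η).1 h1).2
      · have hi' := tz_mem.2 hi
        have hj' := tz_mem.2 hj
        rcases lt_trichotomy i j with h | h | h
        · have h1 := hw2 _ hj' _ (tz_mem.2 h) _ (app_mem hwf hj') _ (app_mem hwf hi')
            (app_spec hwf hj') (app_spec hwf hi')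
          rw [hij] at h1
          exact absurd h1 (mem_irrefl _)
        · exact h
        · have h1 := hw2 _ hi' _ (tz_mem.2 h) _ (app_mem hwf hi') _ (app_mem hwf hj')
            (app_spec hwf hi') (app_spec hwf hj')
          rw [hij] at h1
          exact absurd h1 (mem_irrefl _)
    obtain ⟨θ, ⟨hθk, hθ⟩, hmin⟩ := WellFounded.has_min (wellFounded_lt (α := Ordinal.{u}))
      {i | i < k ∧ l ≤ Ordinal.enumOrd Z i} (by
        obtain ⟨i, hi, h⟩ := hfew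
        exact ⟨i, hi, h⟩)
    have hlt : ∀ i < θ, Ordinal.enumOrd Z i < l := by
      intro i hi
      by_contra hcon
      push Not at hcon
      exact hmin i ⟨hi.trans hθk, hcon⟩ hi
    have hmemW : ∀ i < θ, Rep R L (Ordinal.enumOrd Z i).toZFSet := by
      intro i hi
      have h1 := Ordinal.enumOrd_mem hZ i
      rw [hZe] at h1
      rcases h1 with h1 | h1
      · rw [← hZe] at h1
        exact ((hWm _).1 h1).2
      · rw [← hZe] at h1
        exact absurd h1 (not_le.2 (hlt i hi))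
    refine ⟨θ, hθk, fun i => ZFSet.sep (fun b => pair (Ordinal.enumOrd Z i).toZFSet b ∈ R)
      l.toZFSet, fun i hi => ⟨⟨?_, fun z hz => (mem_sep.1 hz).1, ?_, ?_⟩, fun z hz => ?_⟩, ?_⟩
    · refine HOD_sepG (A := fun b x => pair (x 0) b ∈ x 1) (dfn_pm Gd_Trs _ _ _) (HOD_ord l)
        [(Ordinal.enumOrd Z i).toZFSet, R] ?_
      intro p hp
      simp only [List.mem_cons, List.not_mem_nil, or_false] at hp
      rcases hp with rfl | rfl
      · exact OD_ord _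
      · exact hROγ.od
    · intro C hC1 hC2
      obtain ⟨b, hb, hb'⟩ := (hmemW i hi).2.1 C (by rw [hL]; exact hC1) (by rw [hL]; exact hC2)
      obtain ⟨β, hβ, rfl⟩ := Ordinal.mem_toZFSet_iff.1 (hC1 hb)
      refine ⟨β, hβ, ?_, hb⟩
      show β.toZFSet ∈ ZFSet.sep (fun b => pair (Ordinal.enumOrd Z i).toZFSet b ∈ R) l.toZFSet
      exact mem_sep.2 ⟨hC1 hb, hb'⟩
    · rintro Y hY ⟨h1, h2⟩
      refine hns ⟨Y ∩ L, fun z hz => (mem_inter.1 hz).2, ?_, ?_, (Ordinal.enumOrd Z i).toZFSet,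
        hLS (hRSγ _ _ (hmemW i hi).1).1, ?_, ?_⟩
      · rw [hL]; exact HOD_inter_ord hY l
      · rw [hL]; exact HOD_inter_ord hY l
      · rw [hL, stIn_iff]
        refine h1.mono fun β hβ h => ?_
        obtain ⟨h3, h4⟩ := h
        exact ⟨(mem_sep.1 h3).2, mem_inter.2 ⟨h4, tz_mem.2 hβ⟩⟩
      · rw [hL, stOut_iff]
        refine h2.mono fun β hβ h => ?_
        obtain ⟨h3, h4⟩ := h
        exact ⟨(mem_sep.1 h3).2, fun h5 => h4 (mem_inter.1 h5).1⟩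
    · exact (hRSγ _ _ (mem_sep.1 hz).2).2
    · intro hst
      obtain ⟨α, hα, h1⟩ := few_stat2 hl hm hf1 hf2 hst fun α hα => hα.1
      obtain ⟨τ, hτ, hτ', hατ⟩ := hrepγ α (h1.mono fun β _ h => h.2)
      have hτW : τ ∈ Z := by
        rw [hZe]
        exact Or.inl ((hWm τ).2 ⟨hτ, hτ'⟩)
      rw [← Ordinal.range_enumOrd hZ] at hτW
      obtain ⟨i, rfl⟩ := hτW
      have hiθ : i < θ := hmono.lt_iff_lt.1 (hτ.trans_le hθ)
      exact hα.2 i hiθ (mem_sep.2 ⟨hS hα.1, hsymm _ _ hατ⟩)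
  · exfalso
    push Not at hA
    -- the choices
    have hsel : ∀ γ < k, ∃ Y, Ch Spl U e L (csq Spl L S U e γ) Y := by
      intro γ hγ
      obtain ⟨z, h1, h2, h3⟩ := hA γ hγ
      rw [he, hL]
      refine exists_ch dfn_Spl hU ?_ (hL ▸ hLU) hρU (hL ▸ hρ) ⟨z, hL ▸ h1, h2, ?_⟩
      · rw [← hL, ← he]; exact hRU γ
      · rw [← hL, ← he]; exact h3
    obtain ⟨R, hR⟩ : ∃ R : ZFSet.{u}, R = csq Spl L S U e k := ⟨_, rfl⟩
    obtain ⟨W, hWO, hWm⟩ := hWex k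
    have hrepk := hrep k
    have hROk := hRO k
    obtain ⟨m, hm, f, hf1, hf2⟩ := csq_few dfn_Spl hL hLS hSO.od hUO heO hk le_rfl
    have hRSk := hRS k
    have hsymm : ∀ a b, pair a b ∈ csq Spl L S U e k → pair b a ∈ csq Spl L S U e k :=
      fun a b h => csq_symm hLS h
    have htrans : ∀ a b d, pair a b ∈ csq Spl L S U e k → pair b d ∈ csq Spl L S U e k →
      pair a d ∈ csq Spl L S U e k := fun a b d h h' => csq_trans hLS h h'
    obtain ⟨T, hT⟩ : ∃ T : ZFSet.{u}, T = csf Spl L S U e k := ⟨_, rfl⟩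
    obtain ⟨P, hP⟩ : ∃ P : ZFSet.{u}, P = powerset (prod L L) := ⟨_, rfl⟩
    -- candidates
    have hcnd : ∀ {a : Ordinal.{u}} {γ : Ordinal.{u}}, γ < k →
        (Cnd Spl a.toZFSet γ.toZFSet T P W L U e ↔ a.toZFSet ∈ W ∧ ∃ a' < a,
          (Ordinal.toZFSet a') ∈ W ∧ pair (Ordinal.toZFSet a') a.toZFSet ∈ csq Spl L S U e γ ∧
          ∃ Y, Ch Spl U e L (csq Spl L S U e γ) Y ∧
            ¬ ((Ordinal.toZFSet a') ∈ Y ↔ a.toZFSet ∈ Y)) := by
      intro a γ hγ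
      unfold Cnd
      refine and_congr_right fun _ => ?_
      constructor
      · rintro ⟨a', ha', h1, R', hR', h2, h3, Y, _, h4, h5⟩
        obtain ⟨a', ha'', rfl⟩ := Ordinal.mem_toZFSet_iff.1 ha'
        rw [hT] at h2
        rw [(mem_csf.1 h2).2] at h3 h4
        exact ⟨a', ha'', h1, h3, Y, h4, h5⟩
      · rintro ⟨a', ha', h1, h2, Y, h3, h4⟩
        refine ⟨_, tz_mem.2 ha', h1, csq Spl L S U e γ, ?_, ?_, h2, Y, h3.sub, h3, h4⟩
        · rw [hP]; exact mem_powerset.2 (csq_sub γ)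
        · rw [hT]; exact mem_csf.2 ⟨hγ, rfl⟩
    have hex : ∀ γ < k, ∃ a < l, Lam Spl (Ordinal.toZFSet a) (Ordinal.toZFSet γ) T P W L U e := by
      intro γ hγ
      obtain ⟨Y, hY⟩ := hsel γ hγ
      obtain ⟨_, a, ha, h1, h2⟩ := hY.prop
      rw [hL, stIn_iff, ← hL] at h1
      rw [hL, stOut_iff, ← hL] at h2
      have hin : ∀ {x y : Ordinal.{u}}, pair x.toZFSet y.toZFSet ∈ csq Spl L S U e k →
          (x.toZFSet ∈ Y ↔ y.toZFSet ∈ Y) := by
        intro x y h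
        rw [mem_csq hLS] at h
        exact h.2.2 γ hγ _ hY.sub hY
      have hdn : ∀ {x y : ZFSet.{u}}, pair x y ∈ csq Spl L S U e k →
          pair x y ∈ csq Spl L S U e γ := fun h => csq_anti hLS hγ.le h
      obtain ⟨x, hx, hx'⟩ := few_stat2 hl hm hf1 hf2 h1 fun β hβ => (hRS _ _ _ hβ.1).2
      obtain ⟨y, hy, hy'⟩ := few_stat2 hl hm hf1 hf2 h2 fun β hβ => (hRS _ _ _ hβ.1).2
      obtain ⟨s, hs, hs1, hs2⟩ := hrepk x (hx'.mono fun β _ h => h.2)
      obtain ⟨t, ht, ht1, ht2⟩ := hrepk y (hy'.mono fun β _ h => h.2)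
      have hsY : s.toZFSet ∈ Y := (hin hs2).1 hx.2
      have htY : t.toZFSet ∉ Y := fun h => hy.2 ((hin ht2).2 h)
      have hst : pair s.toZFSet t.toZFSet ∈ csq Spl L S U e γ :=
        csq_trans hLS (csq_symm hLS (csq_trans hLS hx.1 (hdn hs2)))
          (csq_trans hLS hy.1 (hdn ht2))
      have hne : ∃ a : Ordinal.{u}, a < l ∧ Cnd Spl a.toZFSet γ.toZFSet T P W L U e := by
        rcases lt_trichotomy s t with h | h | h
        · refine ⟨t, ht, (hcnd hγ).2 ⟨(hWm t).2 ⟨ht, ht1⟩, s, h, (hWm s).2 ⟨hs, hs1⟩, hst, Y, hY,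
            fun h => htY (h.1 hsY)⟩⟩
        · rw [h] at hsY
          exact absurd hsY htY
        · refine ⟨s, hs, (hcnd hγ).2 ⟨(hWm s).2 ⟨hs, hs1⟩, t, h, (hWm t).2 ⟨ht, ht1⟩,
            csq_symm hLS hst, Y, hY, fun h => htY (h.2 hsY)⟩⟩
      obtain ⟨a, ⟨ha1, ha2⟩, hmin⟩ := WellFounded.has_min (wellFounded_lt (α := Ordinal.{u}))
        {a | a < l ∧ Cnd Spl (Ordinal.toZFSet a) γ.toZFSet T P W L U e} hne
      refine ⟨a, ha1, ha2, fun b hb hb' => ?_⟩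
      obtain ⟨b, hb2, rfl⟩ := Ordinal.mem_toZFSet_iff.1 hb
      exact hmin b ⟨hb2.trans ha1, hb'⟩ hb2
    choose! c hc1 hc2 using hex
    -- the choices are different
    have hcinj : ∀ γ γ' : Ordinal.{u}, γ < γ' → γ' < k → c γ = c γ' → False := by
      intro γ γ' h1 h2 h3
      obtain ⟨ha, a', ha', hW', hR', Y, hY, hsep⟩ := (hcnd (h1.trans h2)).1 (hc2 γ (h1.trans h2)).1
      have hmin := (hc2 γ (h1.trans h2)).2
      obtain ⟨hb, b', hb', hWb, hRb, Y', hY', hsep'⟩ := (hcnd h2).1 (hc2 γ' h2).1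
      rw [← h3] at hb hb' hRb hsep'
      have hRb' : pair (Ordinal.toZFSet b') (c γ).toZFSet ∈ csq Spl L S U e γ :=
        csq_anti hLS h1.le hRb
      have hbY : ((Ordinal.toZFSet b') ∈ Y ↔ (c γ).toZFSet ∈ Y) := by
        rw [mem_csq hLS] at hRb
        exact hRb.2.2 γ h1 _ hY.sub hY
      have hab : pair (Ordinal.toZFSet a') (Ordinal.toZFSet b') ∈ csq Spl L S U e γ :=
        csq_trans hLS hR' (csq_symm hLS hRb')
      have hsep2 : ¬ ((Ordinal.toZFSet a') ∈ Y ↔ (Ordinal.toZFSet b') ∈ Y) := by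
        rw [hbY]; exact hsep
      rcases lt_trichotomy a' b' with h | h | h
      · refine hmin _ (tz_mem.2 hb') ((hcnd (h1.trans h2)).2 ⟨hWb, a', h, hW', hab, Y, hY, hsep2⟩)
      · rw [h] at hsep2
        exact hsep2 Iff.rfl
      · refine hmin _ (tz_mem.2 ha') ((hcnd (h1.trans h2)).2 ⟨hW', b', h, hWb,
          csq_symm hLS hab, Y, hY, fun h => hsep2 h.symm⟩)
    obtain ⟨w, hw⟩ : ∃ w : ZFSet.{u}, w = gr k.toZFSet fun i => (c (rank i)).toZFSet := ⟨_, rfl⟩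
    have hwf : IsFunc k.toZFSet l.toZFSet w := by
      rw [hw]
      refine isFunc_gr fun x hx => ?_
      obtain ⟨i, hi, rfl⟩ := Ordinal.mem_toZFSet_iff.1 hx
      rw [Ordinal.rank_toZFSet]
      exact tz_mem.2 (hc1 i hi)
    have happ : ∀ i < k, app w (Ordinal.toZFSet i) = (c i).toZFSet := by
      intro i hi
      refine (app_iff hwf (tz_mem.2 hi)).1 ?_
      rw [hw, pair_mem_gr, Ordinal.rank_toZFSet]
      exact ⟨tz_mem.2 hi, rfl⟩
    have hwO : OD w := by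
      refine OD_lam dfn_Spl (T := T) (P := P) (W := W) (L := L) (U := U) (e := e) ?_ ?_ hWO hLO hUO
        heO hwf fun i hi => ?_
      · rw [hT]; exact OD_csf dfn_Spl hLO hLS hSO.od hUO heO k
      · rw [hP]; exact OD_pow (OD_prod hLO)
      · rw [happ i hi]; exact hc2 i hi
    refine hno (fam_of_inj hROk hRSk hsymm htrans hwO hwf (fun i hi => ?_)
      fun i hi j hj hij => ?_)
    · rw [happ i hi, ← hL]
      exact ((hWm _).1 (hc2 i hi).1.1).2
    · rw [happ i hi, happ j hj] at hij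
      have hij' := Ordinal.toZFSet_injective hij
      rcases lt_trichotomy i j with h | h | h
      · exact (hcinj i j h hj hij').elim
      · exact h
      · exact (hcinj j i h hi hij'.symm).elim

end Pool.Agent.H93.HM
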