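import Pool.Agent.H93.HM.Atom

/-!
Increasing enumerations of initial segments of sets of ordinals.
-/

set_option autoImplicit false
set_option linter.unusedVariables false

namespace Pool.Agent.H93.HM

open ZFSet Gss969 Pool.Agent.H310.HD

universe u

variable {l : Ordinal.{u}}

theorem notBdd_aux (W : ZFSet.{u}) : ¬ BddAbove {η : Ordinal.{u} | η.toZFSet ∈ W ∨ l ≤ η} := by
  rintro ⟨b, hb⟩
  have h1 : Order.succ (max b l) ∈ {η : Ordinal.{u} | η.toZFSet ∈ W ∨ l ≤ η} :=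
    Or.inr ((le_max_right _ _).trans (Order.le_succ _))
  have h2 := hb h1
  exact absurd ((Order.lt_succ (max b l)).trans_le h2) (not_lt.2 (le_max_left _ _))

theorem exists_Enum' {W : ZFSet.{u}} {k : Ordinal.{u}}
    (hlt : ∀ i < k, Ordinal.enumOrd {η : Ordinal.{u} | η.toZFSet ∈ W ∨ l ≤ η} i < l) :
    ∃ w, Enum w W k.toZFSet l.toZFSet := by
  obtain ⟨S, hSe⟩ : ∃ S : Set Ordinal.{u}, S = {η | η.toZFSet ∈ W ∨ l ≤ η} := ⟨_, rfl⟩
  have hS : ¬ BddAbove S := by rw [hSe]; exact notBdd_aux W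
  rw [← hSe] at hlt
  have hmono := Ordinal.enumOrd_strictMono hS
  have hmem : ∀ i < k, (Ordinal.enumOrd S i).toZFSet ∈ W := by
    intro i hi
    have h1 := Ordinal.enumOrd_mem hS i
    rw [hSe] at h1
    rcases h1 with h1 | h1
    · rw [hSe]; exact h1
    · rw [← hSe] at h1
      exact absurd h1 (not_le.2 (hlt i hi))
  refine ⟨gr k.toZFSet fun x => (Ordinal.enumOrd S (rank x)).toZFSet, isFunc_gr fun x hx => ?_,
    ?_, ?_, ?_⟩
  · obtain ⟨i, hi, rfl⟩ := Ordinal.mem_toZFSet_iff.1 hx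
    rw [Ordinal.rank_toZFSet]
    exact tz_mem.2 (hlt i hi)
  · intro i hi a ha hia
    obtain ⟨i, hi', rfl⟩ := Ordinal.mem_toZFSet_iff.1 hi
    rw [pair_mem_gr, Ordinal.rank_toZFSet] at hia
    rw [← hia.2]
    exact hmem i hi'
  · intro i hi j hj a ha b hb hia hjb
    obtain ⟨i, hi', rfl⟩ := Ordinal.mem_toZFSet_iff.1 hi
    obtain ⟨j, hj', rfl⟩ := Ordinal.mem_toZFSet_iff.1 hj
    rw [pair_mem_gr, Ordinal.rank_toZFSet] at hia hjb
    rw [← hia.2, ← hjb.2]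
    exact tz_mem.2 (hmono hj')
  · intro i hi a ha hia b hb hbW
    obtain ⟨i, hi', rfl⟩ := Ordinal.mem_toZFSet_iff.1 hi
    rw [pair_mem_gr, Ordinal.rank_toZFSet] at hia
    rw [← hia.2] at hb
    obtain ⟨β, hβ, rfl⟩ := Ordinal.mem_toZFSet_iff.1 hb
    have h1 : β ∈ Set.range (Ordinal.enumOrd S) := by
      rw [Ordinal.range_enumOrd hS, hSe]
      exact Or.inl hbW
    obtain ⟨j, rfl⟩ := h1
    have hji : j < i := hmono.lt_iff_lt.1 hβ
    refine ⟨j.toZFSet, tz_mem.2 hji, ?_⟩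
    rw [pair_mem_gr, Ordinal.rank_toZFSet]
    exact ⟨tz_mem.2 (hji.trans hi'), rfl⟩

theorem OD_enum {W w : ZFSet.{u}} {k : Ordinal.{u}} (hW : OD W)
    (hw : Enum w W k.toZFSet l.toZFSet) : OD w := by
  refine OD_of (R := fun y x => Enum y (x 0) (x 2) (x 3))
    (x := asg W W k.toZFSet l.toZFSet ∅ ∅) (dfn_Enum _ _ _ _) hW hW
    (asg_ord (isOrdinal_toZFSet _) (isOrdinal_toZFSet _) empty_ord empty_ord) fun y => ?_
  show Enum y W k.toZFSet l.toZFSet ↔ _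
  exact ⟨fun h => h.unique hw, fun h => by rw [h]; exact hw⟩

/-- A set of ordinals of large cardinality has long enumerations. -/
theorem enum_lt {W : ZFSet.{u}} {c : Cardinal.{u}}
    (hW : Cardinal.lift.{u + 1} c ≤ Cardinal.mk {η : Ordinal.{u} | η < l ∧ η.toZFSet ∈ W}) :
    ∀ i < c.ord, Ordinal.enumOrd {η : Ordinal.{u} | η.toZFSet ∈ W ∨ l ≤ η} i < l := by
  intro i hi
  by_contra hcon
  push Not at hcon
  obtain ⟨S, hSe⟩ : ∃ S : Set Ordinal.{u}, S = {η | η.toZFSet ∈ W ∨ l ≤ η} := ⟨_, rfl⟩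
  have hS : ¬ BddAbove S := by rw [hSe]; exact notBdd_aux W
  rw [← hSe] at hcon
  have hmono := Ordinal.enumOrd_strictMono hS
  have h1 : {η : Ordinal.{u} | η < l ∧ η.toZFSet ∈ W} ⊆ Ordinal.enumOrd S '' Set.Iio i := by
    rintro η ⟨h1, h2⟩
    have h3 : η ∈ Set.range (Ordinal.enumOrd S) := by
      rw [Ordinal.range_enumOrd hS, hSe]
      exact Or.inl h2
    obtain ⟨j, rfl⟩ := h3
    exact ⟨j, hmono.lt_iff_lt.1 (h1.trans_le hcon), rfl⟩
  have h2 : Cardinal.mk {η : Ordinal.{u} | η < l ∧ η.toZFSet ∈ W} ≤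
      Cardinal.mk (Set.Iio i) := (Cardinal.mk_le_mk_of_subset h1).trans Cardinal.mk_image_le
  have h3 := hW.trans h2
  rw [Cardinal.mk_Iio_ordinal, Cardinal.lift_le] at h3
  exact absurd h3 (not_le.2 (Cardinal.lt_ord.1 hi))

end Pool.Agent.H93.HM
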