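import Pool.Agent.H93.HM.Ind

/-!
Extendible cardinals: strong limit cardinals, and transfer of families of stationary sets.
-/

set_option autoImplicit false
set_option linter.unusedVariables false

namespace Pool.Agent.H93.HM

open ZFSet Gss969 Pool.Agent.H310.HD

universe u

/-- The power set of `k` is an image of an element of `l`. -/
def PFew (k l : ZFSet.{u}) : Prop :=
  ∃ m ∈ l, ∃ g, IsFunc m (powerset k) g ∧ ∀ B, B ⊆ k → ∃ i ∈ m, pair i B ∈ g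

theorem dfn_PFew (b c : ℕ) : Dfn Lvl.{u} (fun v => PFew (v b) (v c)) := by
  unfold PFew
  refine Dfn.bex Lvl_sub_Trs _ ?_
  refine Dfn_pow (b + 1) (A := fun T v => ∃ g, IsFunc (v 0) T g ∧
    ∀ B, B ⊆ v (b + 1) → ∃ i ∈ v 0, pair i B ∈ g) ?_
  refine Dfn.exfun _ _ ?_
  refine Dfn.allsub subset_rfl _ ?_
  exact Dfn.bex Lvl_sub_Trs _ (dfn_pm Lvl_sub_Trs _ _ _)

theorem PFew.pow_lt {c : Cardinal.{u}} {l : Ordinal.{u}} (h : PFew c.ord.toZFSet l.toZFSet) :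
    ((2 : Cardinal.{u}) ^ c).ord < l := by
  classical
  obtain ⟨m, hm, g, hg, hon⟩ := h
  obtain ⟨m, hm', rfl⟩ := Ordinal.mem_toZFSet_iff.1 hm
  let B : Set (Set.Iio c.ord) → ZFSet.{u} := fun X =>
    ZFSet.sep (fun z => ∃ x ∈ X, z = x.1.toZFSet) c.ord.toZFSet
  have hB : ∀ X, B X ⊆ c.ord.toZFSet := fun X z hz => (mem_sep.1 hz).1
  have hinj : Function.Injective B := by
    intro X Y h
    ext x
    have h1 : ∀ X : Set (Set.Iio c.ord), x.1.toZFSet ∈ B X ↔ x ∈ X := by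
      intro X
      simp only [B, mem_sep]
      constructor
      · rintro ⟨_, y, hy, hxy⟩
        have : x = y := Subtype.ext (Ordinal.toZFSet_injective hxy)
        rw [this]
        exact hy
      · intro hx
        exact ⟨tz_mem.2 x.2, x, hx, rfl⟩
    rw [← h1 X, ← h1 Y, h]
  have h2 : ∀ X, ∃ i : Set.Iio m, pair i.1.toZFSet (B X) ∈ g := by
    intro X
    obtain ⟨i, hi, h3⟩ := hon (B X) (hB X)
    obtain ⟨i, hi', rfl⟩ := Ordinal.mem_toZFSet_iff.1 hi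
    exact ⟨⟨i, hi'⟩, h3⟩
  choose I hI using h2
  have hIinj : Function.Injective I := by
    intro X Y h
    have h3 := hI X
    have h4 := hI Y
    rw [← h] at h4
    exact hinj (((app_iff hg (tz_mem.2 (I X).2)).1 h3).symm.trans
      ((app_iff hg (tz_mem.2 (I X).2)).1 h4))
  have h3 := Cardinal.mk_le_of_injective hIinj
  rw [Cardinal.mk_set, Cardinal.mk_Iio_ordinal, Cardinal.mk_Iio_ordinal, Cardinal.card_ord,
    ← Cardinal.lift_two.{u + 1, u}, ← Cardinal.lift_power, Cardinal.lift_le] at h3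
  refine lt_of_le_of_lt ?_ hm'
  exact (Cardinal.ord_le_ord.2 h3).trans (Cardinal.ord_card_le m)

/-- Extendible cardinals are strong limit cardinals. -/
theorem Extendible.strongLimit {δ : Ordinal.{u}} (hδ : Extendible δ) (c : Cardinal.{u})
    (hc : c.ord < δ) : ((2 : Cardinal.{u}) ^ c).ord < δ := by
  obtain ⟨m, hm⟩ := exists_list (powerset c.ord.toZFSet)
    ⟨c.ord.toZFSet, mem_powerset.2 subset_rfl⟩
  obtain ⟨η, θ, τ, j, h1, D⟩ := hδ.data m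
  obtain ⟨g, hg, hon⟩ := hm m le_rfl
  have h2 := (D.E.el.t2 D.E.lvl D.nl (A := fun a b => PFew a b) (dfn_PFew 0 1)
    (ExtData.ordB (hc.trans D.lt)) D.dB).2 (by
      rw [D.fix _ hc, D.jd]
      exact ⟨m.toZFSet, tz_mem.2 (h1.trans D.ητ), g, hg, fun B hB => hon B (mem_powerset.2 hB)⟩)
  exact h2.pow_lt

/-- For each `k ∈ d` there are `l ∈ W` and `S ∈ W` in `HOD` which is a sequence of length `k` of
disjoint stationary subsets of the regular cardinal `l > k` of points of small cofinality. -/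
def AllFam (W d m : ZFSet.{u}) : Prop :=
  ∀ k ∈ d, ∃ l ∈ W, k ∈ l ∧ (RegUnc l ∧ ∃ S, HODin W S ∧ Fam m k l S)

theorem dfn_AllFam (a b c : ℕ) : Dfn Lvl.{u} (fun v => AllFam (v a) (v b) (v c)) := by
  unfold AllFam
  refine Dfn.ball Lvl_sub_Trs _ (Dfn.bex Lvl_sub_Trs _ (Dfn.and (Dfn.mem _ _)
    (Dfn.and (dfn_RegUnc _) (Dfn.ex ?_ ?_))))
  · exact (dfn_HODin _ _).and (dfn_Fam _ _ _ _)
  · rintro U hU v hv ⟨S, h1, h2⟩
    exact ⟨S, Lvl_func hU (hv 1) (Lvl_powerset hU (hv 0)) h2.1, h1, h2⟩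

/-- If `HOD` has for all `k < δ` sequences of length `k` of disjoint stationary subsets of some
`l > k`, then there are arbitrarily long such sequences. -/
theorem Extendible.families {δ : Ordinal.{u}} (hδ : Extendible δ) {μ : Ordinal.{u}} (hμ : μ < δ)
    (h : ∀ k < δ, ∃ l > k, RegUnc (Ordinal.toZFSet l) ∧
      ∃ S, HOD S ∧ Fam μ.toZFSet (Ordinal.toZFSet k) l.toZFSet S)
    (k₀ : Ordinal.{u}) : ∃ l' : Ordinal.{u}, RegUnc l'.toZFSet ∧
      ∃ S, HOD S ∧ Fam μ.toZFSet k₀.toZFSet l'.toZFSet S := by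
  classical
  choose! l hl1 hl2 S hS1 hS2 using h
  have hev : ∀ k : Ordinal.{u}, k < δ → ∃ β : Ordinal.{u}, ∀ ζ ≥ β, HODin (V_ ζ) (S k) :=
    fun k hk => (hS1 k hk).eventually
  choose! B hB using hev
  obtain ⟨β, hβ⟩ : ∃ β : Ordinal.{u}, ∀ k < δ, B k ≤ β ∧ l k < β := by
    refine ⟨⨆ w : {w // w ∈ δ.toZFSet}, max (B (rank w.1)) (Order.succ (l (rank w.1))),
      fun k hk => ?_⟩
    have h1 := Ordinal.le_iSup (fun w : {w // w ∈ δ.toZFSet} =>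
      max (B (rank w.1)) (Order.succ (l (rank w.1)))) ⟨k.toZFSet, tz_mem.2 hk⟩
    simp only [Ordinal.rank_toZFSet] at h1
    exact ⟨(le_max_left _ _).trans h1, (Order.lt_succ _).trans_le ((le_max_right _ _).trans h1)⟩
  obtain ⟨η, θ, τ, j, h1, D⟩ := hδ.data (max β k₀)
  have hβη : β < η := (le_max_left _ _).trans_lt h1
  have hkη : k₀ < η := (le_max_right _ _).trans_lt h1
  have hW : V_ β ∈ V_ η := vonNeumann_mem_vonNeumann_iff.2 hβη
  have h2 : AllFam (V_ β) δ.toZFSet μ.toZFSet := by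
    intro k hk
    obtain ⟨k, hk', rfl⟩ := Ordinal.mem_toZFSet_iff.1 hk
    exact ⟨(l k).toZFSet, ExtData.ordB (hβ k hk').2, tz_mem.2 (hl1 k hk'), hl2 k hk', S k,
      hB k hk' β (hβ k hk').1, hS2 k hk'⟩
  have h3 := (D.E.el.t3 D.E.lvl D.nl (A := fun a b c => AllFam a b c) (dfn_AllFam 0 1 2)
    hW D.dB (ExtData.ordB (hμ.trans D.lt))).1 h2
  rw [D.jd, D.fix μ hμ] at h3
  obtain ⟨l', _, _, hl', S', hS', hF⟩ := h3 k₀.toZFSet (tz_mem.2 (hkη.trans D.ητ))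
  refine ⟨rank l', ?_, S', hS'.hod, ?_⟩
  · rw [hl'.1.toZFSet_rank_eq]; exact hl'
  · rw [hl'.1.toZFSet_rank_eq]; exact hF

/-- Restriction of a family. -/
theorem DisjFam.fam {k K l μ : Ordinal.{u}} (hk : k ≤ K) {g : ZFSet.{u}} (hg : HOD g)
    (h : DisjFam K.toZFSet l.toZFSet (SCf l.toZFSet μ.toZFSet) g) :
    ∃ S, HOD S ∧ Fam μ.toZFSet k.toZFSet l.toZFSet S := by
  obtain ⟨h1, h2, h3⟩ := h
  have hkK : ∀ i ∈ k.toZFSet, i ∈ K.toZFSet := by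
    intro i hi
    obtain ⟨i, hi', rfl⟩ := Ordinal.mem_toZFSet_iff.1 hi
    exact tz_mem.2 (hi'.trans_le hk)
  have hm : ∀ i A, pair i A ∈ ZFSet.sep (fun z => ∃ a b, z = pair a b ∧ a ∈ k.toZFSet) g ↔
      pair i A ∈ g ∧ i ∈ k.toZFSet := by
    intro i A
    rw [mem_sep]
    refine and_congr_right fun _ => ?_
    constructor
    · rintro ⟨a, b, hab, ha⟩
      rw [pair_inj] at hab
      rw [hab.1]
      exact ha
    · intro hi
      exact ⟨i, A, rfl, hi⟩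
  refine ⟨ZFSet.sep (fun z => ∃ a b, z = pair a b ∧ a ∈ k.toZFSet) g, ?_, ?_, ?_, ?_⟩
  · refine HOD_sepG (A := fun z x => ∃ a b, z = pair a b ∧ a ∈ x 0) ?_ hg [k.toZFSet] ?_
    · exact Dfn_unpair Gd_Trs 0 (A := fun a b v => a ∈ v 1) (Dfn.mem _ _)
    · intro p hp
      rw [List.mem_singleton] at hp
      rw [hp]
      exact OD_ord k
  · refine ⟨fun p hp => ?_, fun i hi => ?_⟩
    · obtain ⟨hpg, a, b, rfl, ha⟩ := mem_sep.1 hp
      exact pair_mem_prod.2 ⟨ha, (pair_mem_prod.1 (h1.1 hpg)).2⟩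
    · obtain ⟨w, hw, huniq⟩ := h1.2 i (hkK i hi)
      refine ⟨w, (hm i w).2 ⟨hw, hi⟩, fun y hy => huniq y ((hm i y).1 hy).1⟩
  · intro i hi A hA hiA
    obtain ⟨h4, h5⟩ := h2 i (hkK i hi) A hA ((hm i A).1 hiA).1
    refine ⟨h4, fun a ha => ?_⟩
    exact (mem_sep.1 (h5 ha)).2.1
  · intro i hi i' hi' A hA A' hA' hiA hiA'
    exact h3 i (hkK i hi) i' (hkK i' hi') A hA A' hA' ((hm i A).1 hiA).1 ((hm i' A').1 hiA').1

/-- If the arbitrarily long families do not exist, then splitting is impossible. -/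
theorem Extendible.noSplit {δ : Ordinal.{u}} (hδ : Extendible δ)
    (h : ¬ ∀ k₀ : Ordinal.{u}, ∃ k ≥ k₀, ∃ μ < δ, ∃ l : Ordinal.{u}, RegUnc l.toZFSet ∧
      ∃ S, HOD S ∧ Fam μ.toZFSet (Ordinal.toZFSet k) l.toZFSet S) : NoSplit δ := by
  intro μ hμ _
  have h1 : ∃ k < δ, ∀ l > k, RegUnc (Ordinal.toZFSet l) →
      ¬ ∃ S, HOD S ∧ Fam μ.toZFSet (Ordinal.toZFSet k) l.toZFSet S := by
    by_contra hcon
    push Not at hcon
    refine h fun k₀ => ⟨k₀, le_rfl, μ, hμ, ?_⟩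
    exact Extendible.families hδ hμ (fun k hk => by
      obtain ⟨l, h2, h3, S, h4, h5⟩ := hcon k hk
      exact ⟨l, h2, h3, S, h4, h5⟩) k₀
  obtain ⟨k, hk, h2⟩ := h1
  obtain ⟨c, hc⟩ : ∃ c : Cardinal.{u}, c = (2 : Cardinal.{u}) ^ max Cardinal.aleph0 k.card :=
    ⟨_, rfl⟩
  have hlt : max Cardinal.aleph0 k.card < c := by
    rw [hc]
    exact Cardinal.cantor _
  have hkc : k < c.ord := by
    rw [Cardinal.lt_ord]
    exact (le_max_right _ _).trans_lt hlt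
  refine ⟨c, ((le_max_left _ _).trans_lt hlt).le, ?_, k, hk, fun l hl hlr => ?_⟩
  · rw [hc]
    refine Extendible.strongLimit hδ _ ?_
    rcases le_total Cardinal.aleph0 k.card with h3 | h3
    · rw [max_eq_right h3]
      exact (Cardinal.ord_card_le k).trans_lt hk
    · rw [max_eq_left h3, Cardinal.ord_aleph0]
      exact hδ.om_lt
  · rintro ⟨g, hg, hF⟩
    exact h2 l hl hlr (DisjFam.fam hkc.le hg hF)

/-- Extendible cardinals are Mahlo cardinals. -/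
theorem Extendible.mahlo {δ : Ordinal.{u}} (hδ : Extendible δ) {G : Ordinal.{u} → Ordinal.{u}}
    (hG : ∀ ξ < δ, G ξ < δ) {β : Ordinal.{u}} (hβ : β < δ) :
    ∃ γ < δ, β < γ ∧ RegUnc (Ordinal.toZFSet γ) ∧ ∀ ξ < γ, G ξ < γ := by
  obtain ⟨g, hg⟩ : ∃ g : ZFSet.{u}, g = gr δ.toZFSet fun x => (G (rank x)).toZFSet := ⟨_, rfl⟩
  have hgf : IsFunc δ.toZFSet δ.toZFSet g := by
    rw [hg]
    refine isFunc_gr fun x hx => ?_
    obtain ⟨ξ, hξ, rfl⟩ := Ordinal.mem_toZFSet_iff.1 hx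
    rw [Ordinal.rank_toZFSet]
    exact tz_mem.2 (hG ξ hξ)
  obtain ⟨η, θ, τ, j, _, D⟩ := hδ.data δ
  have hgη : g ∈ V_ η := Lvl_func D.E.lvl D.dB D.dB hgf
  have hβη : β.toZFSet ∈ V_ η := ExtData.ordB (hβ.trans D.lt)
  have h1 := (D.E.el.t3 D.E.lvl D.nl (A := fun g d b => ∃ c ∈ d, b ∈ c ∧ (RegUnc c ∧
    ∀ x ∈ c, ∃ y ∈ c, pair x y ∈ g)) (by
      repeat' first
        | exact Dfn.mem _ _ | exact dfn_pm Lvl_sub_Trs _ _ _ | exact dfn_RegUnc _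
        | refine Dfn.and ?_ ?_
        | refine Dfn.ball Lvl_sub_Trs _ ?_ | refine Dfn.bex Lvl_sub_Trs _ ?_)
    hgη D.dB hβη).2 (by
      rw [D.jd, D.fix β hβ]
      refine ⟨δ.toZFSet, tz_mem.2 (D.lt.trans D.ητ), tz_mem.2 hβ, hδ.regUnc, fun x hx => ?_⟩
      obtain ⟨ξ, hξ, rfl⟩ := Ordinal.mem_toZFSet_iff.1 hx
      refine ⟨(G ξ).toZFSet, tz_mem.2 (hG ξ hξ), ?_⟩
      have h2 : pair ξ.toZFSet (G ξ).toZFSet ∈ g := by
        rw [hg, pair_mem_gr, Ordinal.rank_toZFSet]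
        exact ⟨hx, rfl⟩
      have h3 : ξ.toZFSet ∈ V_ η := ExtData.ordB (hξ.trans D.lt)
      have h4 : (G ξ).toZFSet ∈ V_ η := ExtData.ordB ((hG ξ hξ).trans D.lt)
      have h5 := (D.E.mem_iff (Lvl_pair D.E.lvl h3 h4) hgη).1 h2
      rw [D.E.pair_eq h3 h4, D.fix ξ hξ, D.fix _ (hG ξ hξ)] at h5
      exact h5)
  obtain ⟨c, hc, h2, h3, h4⟩ := h1
  obtain ⟨γ, hγ, rfl⟩ := Ordinal.mem_toZFSet_iff.1 hc
  refine ⟨γ, hγ, tz_mem.1 h2, h3, fun ξ hξ => ?_⟩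
  obtain ⟨y, hy, hxy⟩ := h4 _ (tz_mem.2 hξ)
  rw [hg, pair_mem_gr, Ordinal.rank_toZFSet] at hxy
  rw [← hxy.2] at hy
  exact tz_mem.1 hy

end Pool.Agent.H93.HM
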