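import Pool.Agent.H93.HM.Mit

/-!
The Mitchell rank in `HOD` of regular cardinals.
-/

set_option autoImplicit false
set_option linter.unusedVariables false

namespace Pool.Agent.H93.HM

open ZFSet Gss969 Pool.Agent.H310.HD

universe u

variable {l : Ordinal.{u}}

/-- The set of the `a ∈ l` of cofinality `m`. -/
noncomputable def SCf (l m : ZFSet.{u}) : ZFSet.{u} := ZFSet.sep (fun a => Cf m a) l

theorem mem_SCf {μ α : Ordinal.{u}} : α.toZFSet ∈ SCf l.toZFSet μ.toZFSet ↔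
    α < l ∧ Cf μ.toZFSet α.toZFSet := by
  unfold SCf
  rw [mem_sep, tz_mem]

theorem SCf_sub {m : ZFSet.{u}} : SCf l.toZFSet m ⊆ l.toZFSet := fun z hz => (mem_sep.1 hz).1

theorem HOD_SCf (μ : Ordinal.{u}) : HOD (SCf l.toZFSet μ.toZFSet) := by
  refine HOD_sepG (A := fun a x => Cf (x 0) a) (dfn_Cf _ _) (HOD_ord l) [μ.toZFSet] ?_
  intro p hp
  rw [List.mem_singleton] at hp
  rw [hp]
  exact OD_ord μ

theorem stat_SCf {α ν : Ordinal.{u}} (h : Uc α ν) (hαl : α ≤ l) {μ : Ordinal.{u}} (hμν : μ < ν)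
    (hμ : Rg μ) : StatL {β | β.toZFSet ∈ SCf l.toZFSet μ.toZFSet} α := by
  intro C hC1 hC2
  obtain ⟨a, ha, haC, hcf⟩ := club_cf h hμν hμ hC1 hC2
  exact ⟨a, ha, mem_SCf.2 ⟨ha.trans_le hαl, hcf⟩, haC⟩

theorem mem_uf_of_sub {A S : ZFSet.{u}} (hl : RegUnc l.toZFSet) (hAS : A ⊆ S)
    (hS : S ⊆ l.toZFSet) (hSO : HOD S) : S ∈ uf l A :=
  mem_uf'.2 ⟨hS, hSO, l.toZFSet, fun z hz => hz, club_self fun x hx => hl.succ_lt hx,
    fun a ha _ => hAS ha⟩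

theorem DisjFam.mono {k L S S' g : ZFSet.{u}} (hS : S ⊆ S') (h : DisjFam k L S g) :
    DisjFam k L S' g :=
  ⟨h.1, fun i hi A hA hiA => ⟨(h.2.1 i hi A hA hiA).1, fun z hz =>
    hS ((h.2.1 i hi A hA hiA).2 hz)⟩, h.2.2⟩

/-- Existence of sets which cannot be split. -/
theorem exists_atom (hl : RegUnc l.toZFSet) {S : ZFSet.{u}} (hS : S ⊆ l.toZFSet) (hSO : HOD S)
    (hst : StatL {β | β.toZFSet ∈ S} l)
    {c : Cardinal.{u}} (hc : Cardinal.aleph0 ≤ c) (hcl : ((2 : Cardinal.{u}) ^ c).ord < l)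
    (hno : ¬ ∃ g, HOD g ∧ DisjFam c.ord.toZFSet l.toZFSet S g) :
    ∃ A, Atom l A ∧ A ⊆ S := by
  obtain ⟨R, hR, hRS, hrefl, hsymm, htrans, ⟨f, hf1, hf2⟩, hat⟩ :=
    decompose hl hS hSO hc hcl hno
  obtain ⟨α, hα, h1⟩ := few_stat hl hcl hf1 hf2 hst fun α hα => hα
  refine ⟨_, hat α hα (h1.mono fun β _ h => h.2), fun z hz => ?_⟩
  exact (hRS _ _ (mem_sep.1 hz).2).2

/-- If the ordinals of cofinality `μ` cannot be split much, and `A` is a set of ordinals of a larger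
cofinality `ν`, then a set of ordinals of cofinality `μ` which cannot be split reflects at
stationary many elements of `A`. -/
theorem exists_below (hl : RegUnc l.toZFSet) {μ ν : Ordinal.{u}} (hμ : RegUnc μ.toZFSet)
    (hν : RegUnc ν.toZFSet) (hμν : μ < ν) (hνl : ν < l)
    {c : Cardinal.{u}} (hc : Cardinal.aleph0 ≤ c) (hcν : ((2 : Cardinal.{u}) ^ c).ord < ν)
    (hno : ¬ ∃ g, HOD g ∧ DisjFam c.ord.toZFSet l.toZFSet (SCf l.toZFSet μ.toZFSet) g)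
    {A : ZFSet.{u}} (hA : Atom l A) (hAν : A ⊆ SCf l.toZFSet ν.toZFSet) :
    ∃ B, Atom l B ∧ B ⊆ SCf l.toZFSet μ.toZFSet ∧ MLt l (uf l B) (uf l A) := by
  have hων := hν.om_lt
  have hcl := hcν.trans hνl
  obtain ⟨R, hR, hRS, hrefl, hsymm, htrans, ⟨f, hf1, hf2⟩, hat⟩ :=
    decompose hl SCf_sub (HOD_SCf μ) hc hcl hno
  have hcf : ∀ α : Ordinal.{u}, α.toZFSet ∈ A → α < l ∧ Cf ν.toZFSet α.toZFSet :=
    fun α hα => mem_SCf.1 (hAν hα)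
  have h2 : ∀ α : Ordinal.{u}, α.toZFSet ∈ A → α < l → ∃ i < ((2 : Cardinal.{u}) ^ c).ord,
      StatL {β | β.toZFSet ∈ SCf l.toZFSet μ.toZFSet ∧ f β = i} α := by
    intro α hα hαl
    have h3 := (hcf α hα).2
    exact stat_union h3.lim h3.uc hων hcν (stat_SCf (l := l) h3.uc hαl.le hμν (RegUnc.rg hμ))
      (P := fun i β => f β = i) fun β _ _ => ⟨f β, hf1 β, rfl⟩
  obtain ⟨i, hi, h4⟩ := hA.2.2.1.union hl hcl (P := fun i α =>
    StatL {β | β.toZFSet ∈ SCf l.toZFSet μ.toZFSet ∧ f β = i} α) fun α hα hαl => h2 α hα hαl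
  obtain ⟨α, hα, hα1, hα2⟩ := StatL.ne hl h4
  obtain ⟨β, hβ, ⟨hβ1, hβ2⟩, _⟩ := hα2 α.toZFSet (fun x hx => hx) (club_self (hcf α hα1).2.lim)
  have h5 : ∀ γ : Ordinal.{u}, γ.toZFSet ∈ SCf l.toZFSet μ.toZFSet → f γ = i →
      pair β.toZFSet γ.toZFSet ∈ R := fun γ hγ hγi => hf2 β γ hβ1 hγ (hβ2.trans hγi.symm)
  obtain ⟨B, hB⟩ : ∃ B : ZFSet.{u}, B = ZFSet.sep (fun b => pair β.toZFSet b ∈ R) l.toZFSet :=
    ⟨_, rfl⟩
  have hAB : StatL {α | α.toZFSet ∈ A ∧ StatL {γ | γ.toZFSet ∈ B} α} l := by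
    refine h4.mono fun α hα h6 => ⟨h6.1, ?_⟩
    have h7 : StatL {β | β.toZFSet ∈ SCf l.toZFSet μ.toZFSet ∧ f β = i} α := h6.2
    refine h7.mono fun γ hγ h8 => ?_
    show γ.toZFSet ∈ B
    rw [hB, mem_sep]
    exact ⟨tz_mem.2 (hγ.trans hα), h5 γ h8.1 h8.2⟩
  have hBst : StatL {γ | γ.toZFSet ∈ B} l :=
    stat_of_reflect (RegUnc.uc hl) hl.om_lt (hAB.mono fun α _ h => h.2)
  have hBa : Atom l B := by
    rw [hB]
    refine hat β hβ1 (hBst.mono fun γ _ h => ?_)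
    have h' : γ.toZFSet ∈ B := h
    rw [hB] at h'
    exact (mem_sep.1 h').2
  refine ⟨B, hBa, fun z hz => ?_, mlt_uf hl hBa hA hων (fun α hα => (hcf α hα).2) hAB⟩
  rw [hB] at hz
  exact (hRS _ _ (mem_sep.1 hz).2).2

/-- The hypothesis of the induction: for each regular `μ < δ`, the ordinals of cofinality `μ` below a
large regular cardinal `l` cannot be split in `HOD` into few stationary sets. -/
def NoSplit (δ : Ordinal.{u}) : Prop :=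
  ∀ μ < δ, RegUnc (Ordinal.toZFSet μ) → ∃ c : Cardinal.{u}, Cardinal.aleph0 ≤ c ∧
    c.ord < δ ∧ ∃ b < δ, ∀ l > b, RegUnc (Ordinal.toZFSet l) →
      ¬ ∃ g, HOD g ∧ DisjFam c.ord.toZFSet l.toZFSet (SCf l.toZFSet μ.toZFSet) g

/-- There are regular cardinals in each interval below a strong limit. -/
theorem exists_reg {δ : Ordinal.{u}} (hδ : RegUnc δ.toZFSet)
    (hsl : ∀ c : Cardinal.{u}, c.ord < δ → ((2 : Cardinal.{u}) ^ c).ord < δ) {σ : Ordinal.{u}}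
    (hσ : σ < δ) : ∃ ν < δ, σ < ν ∧ RegUnc (Ordinal.toZFSet ν) := by
  obtain ⟨n, hn⟩ : ∃ n : Cardinal.{u}, n = Order.succ (max Cardinal.aleph0 σ.card) := ⟨_, rfl⟩
  have hreg : n.IsRegular := by
    rw [hn]
    exact Cardinal.isRegular_succ (le_max_left _ _)
  have h1 : Cardinal.aleph0 < n := by
    rw [hn]
    exact (le_max_left _ _).trans_lt (Order.lt_succ _)
  have hσn : σ < n.ord := by
    rw [Cardinal.lt_ord, hn]
    exact (le_max_right _ _).trans_lt (Order.lt_succ _)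
  have hnδ : n.ord < δ := by
    have h2 : (max Cardinal.aleph0 σ.card).ord < δ := by
      rcases le_total Cardinal.aleph0 σ.card with h3 | h3
      · rw [max_eq_right h3]
        exact (Cardinal.ord_card_le σ).trans_lt hσ
      · rw [max_eq_left h3, Cardinal.ord_aleph0]
        exact hδ.om_lt
    refine lt_of_le_of_lt ?_ (hsl _ h2)
    rw [Cardinal.ord_le_ord, hn]
    exact Order.succ_le_of_lt (Cardinal.cantor _)
  exact ⟨n.ord, hnδ, hσn, regUnc_ord hreg h1⟩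

/-- **The induction.** -/
theorem mrank_ind {δ : Ordinal.{u}} (hδ : RegUnc δ.toZFSet)
    (hsl : ∀ c : Cardinal.{u}, c.ord < δ → ((2 : Cardinal.{u}) ^ c).ord < δ) (H : NoSplit δ)
    (ξ : Ordinal.{u}) (hξ : ξ < δ) : ∃ σ < δ, ∀ ν, σ < ν → ν < δ → RegUnc (Ordinal.toZFSet ν) →
      ∀ l > ν, RegUnc (Ordinal.toZFSet l) →
      ∀ A, Atom l A → A ⊆ SCf l.toZFSet ν.toZFSet → MRank l ξ (uf l A) := by
  classical
  induction ξ using WellFoundedLT.induction with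
  | ind ξ ih =>
    have ih' : ∀ ζ < ξ, ∃ μ < δ, RegUnc (Ordinal.toZFSet μ) ∧
        ∀ l > μ, RegUnc (Ordinal.toZFSet l) →
        ∀ A, Atom l A → A ⊆ SCf l.toZFSet μ.toZFSet → MRank l ζ (uf l A) := by
      intro ζ hζ
      obtain ⟨σ, hσ, h⟩ := ih ζ hζ (hζ.trans hξ)
      obtain ⟨μ, h1, h2, h3⟩ := exists_reg hδ hsl hσ
      exact ⟨μ, h1, h3, h μ h2 h1 h3⟩
    choose! μ hμδ hμr hμ using ih'
    have H' : ∀ ζ < ξ, ∃ c : Cardinal.{u}, Cardinal.aleph0 ≤ c ∧ c.ord < δ ∧ ∃ b < δ,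
        ∀ l > b, RegUnc (Ordinal.toZFSet l) →
        ¬ ∃ g, HOD g ∧ DisjFam c.ord.toZFSet l.toZFSet (SCf l.toZFSet (μ ζ).toZFSet) g :=
      fun ζ hζ => H (μ ζ) (hμδ ζ hζ) (hμr ζ hζ)
    choose! c hc1 hc2 b hb1 hb2 using H'
    obtain ⟨σ, hσ, hσ'⟩ := hδ.bdd hξ
      (fun ζ => max (b ζ) (max (μ ζ) ((2 : Cardinal.{u}) ^ c ζ).ord))
      fun ζ hζ => max_lt (hb1 ζ hζ) (max_lt (hμδ ζ hζ) (hsl _ (hc2 ζ hζ)))
    refine ⟨σ, hσ, fun ν hσν hνδ hν l hl hlr A hA hAν => ?_⟩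
    rw [MRank]
    refine ⟨hA.normU hlr, fun ζ hζ => ?_⟩
    have hbν : b ζ < ν := ((le_max_left _ _).trans_lt (hσ' ζ hζ)).trans hσν
    have hμν : μ ζ < ν :=
      (((le_max_left _ _).trans (le_max_right _ _)).trans_lt (hσ' ζ hζ)).trans hσν
    have hcν : ((2 : Cardinal.{u}) ^ c ζ).ord < ν :=
      (((le_max_right _ _).trans (le_max_right _ _)).trans_lt (hσ' ζ hζ)).trans hσν
    obtain ⟨B, hB1, hB2, hB3⟩ := exists_below hlr (hμr ζ hζ) hν hμν hl (hc1 ζ hζ) hcν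
      (hb2 ζ hζ l (hbν.trans hl) hlr) hA hAν
    exact ⟨uf l B, hB3, hμ ζ hζ l (hμν.trans hl) hlr B hB1 hB2⟩

/-- **Measures of large Mitchell rank.** -/
theorem exists_mrank {δ : Ordinal.{u}} (hδ : RegUnc δ.toZFSet)
    (hsl : ∀ c : Cardinal.{u}, c.ord < δ → ((2 : Cardinal.{u}) ^ c).ord < δ) (H : NoSplit δ)
    (ξ : Ordinal.{u}) (hξ : ξ < δ) : ∃ σ < δ, ∀ ν, σ < ν → ν < δ → RegUnc (Ordinal.toZFSet ν) →
      ∃ b < δ, ∀ l > b, RegUnc (Ordinal.toZFSet l) →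
        StatL {α | Cf ν.toZFSet α.toZFSet} l ∧ ∀ X, HOD X → X ⊆ l.toZFSet →
        StatL {α | α.toZFSet ∈ X ∧ Cf ν.toZFSet α.toZFSet} l →
        ∃ U, MRank l ξ U ∧ ZFSet.sep (fun a => a ∈ X ∧ Cf ν.toZFSet a) l.toZFSet ∈ U := by
  obtain ⟨σ, hσ, h⟩ := mrank_ind hδ hsl H ξ hξ
  refine ⟨σ, hσ, fun ν hσν hνδ hν => ?_⟩
  obtain ⟨c, hc1, hc2, b, hb1, hb2⟩ := H ν hνδ hν
  refine ⟨max b (max ν ((2 : Cardinal.{u}) ^ c).ord), max_lt hb1 (max_lt hνδ (hsl _ hc2)),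
    fun l hl hlr => ?_⟩
  have h1 : b < l := (le_max_left _ _).trans_lt hl
  have h2 : ν < l := ((le_max_left _ _).trans (le_max_right _ _)).trans_lt hl
  have h3 : ((2 : Cardinal.{u}) ^ c).ord < l :=
    ((le_max_right _ _).trans (le_max_right _ _)).trans_lt hl
  refine ⟨(stat_SCf (l := l) (RegUnc.uc hlr) le_rfl h2 (RegUnc.rg hν)).mono fun α _ h => (mem_SCf.1 h).2,
    fun X hX hXl hst => ?_⟩
  obtain ⟨S, hS⟩ : ∃ S : ZFSet.{u}, S =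
    ZFSet.sep (fun a => a ∈ X ∧ Cf ν.toZFSet a) l.toZFSet := ⟨_, rfl⟩
  have hSO : HOD S := by
    rw [hS]
    refine HOD_sepG (A := fun a x => a ∈ x 0 ∧ Cf (x 1) a) ((Dfn.mem _ _).and (dfn_Cf _ _))
      (HOD_ord l) [X, ν.toZFSet] ?_
    intro p hp
    simp only [List.mem_cons, List.not_mem_nil, or_false] at hp
    rcases hp with rfl | rfl
    · exact hX.od
    · exact OD_ord ν
  have hSl : S ⊆ l.toZFSet := fun z hz => by
    rw [hS] at hz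
    exact (mem_sep.1 hz).1
  have hSS : S ⊆ SCf l.toZFSet ν.toZFSet := fun z hz => by
    rw [hS] at hz
    exact mem_sep.2 ⟨(mem_sep.1 hz).1, (mem_sep.1 hz).2.2⟩
  obtain ⟨A, hA, hAS⟩ := exists_atom hlr hSl hSO (hst.mono fun α hα h4 => by
      show α.toZFSet ∈ S
      rw [hS]
      exact mem_sep.2 ⟨tz_mem.2 hα, h4⟩) hc1 h3
    (fun ⟨g, hg1, hg2⟩ => hb2 l h1 hlr ⟨g, hg1, hg2.mono hSS⟩)
  rw [← hS]
  exact ⟨uf l A, h ν hσν hνδ hν l h2 hlr A hA fun z hz => hSS (hAS hz),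
    mem_uf_of_sub hlr hAS hSl hSO⟩

end Pool.Agent.H93.HM
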