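import Pool.Agent.H93.HM.Ind
import Pool.Agent.H93.HM.Dec2

/-!
The Mitchell rank of a cardinal which is strongly measurable in `HOD` for several cofinalities.
-/

set_option autoImplicit false
set_option linter.unusedVariables false

namespace Pool.Agent.H93.HM

open ZFSet Gss969 Pool.Agent.H310.HD

universe u

variable {l : Ordinal.{u}}

/-- The function `g : k → P(l)` is a partition of the set of the elements of `l` of cofinality `m`
into stationary subsets of `l`. -/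
def PartCf (m k l g : ZFSet.{u}) : Prop :=
  IsFunc k (powerset l) g ∧
  (∀ i ∈ k, ∀ S, S ⊆ l → pair i S ∈ g → Stat S l) ∧
  (∀ i ∈ k, ∀ i' ∈ k, ∀ S, S ⊆ l → ∀ S', S' ⊆ l → pair i S ∈ g → pair i' S' ∈ g →
    (∃ a ∈ S, a ∈ S') → i = i') ∧
  ∀ a ∈ l, (Cf m a ↔ ∃ i ∈ k, ∃ S, S ⊆ l ∧ (pair i S ∈ g ∧ a ∈ S))

/-- `l` is `μ`-strongly measurable in `HOD`, witnessed by `k`: `0 < k < l`, in `HOD` there are fewer
than `l` subsets of `k`, and no partition of `cof(μ) ∩ l` into `k` stationary sets is in `HOD`. -/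
def StrM (μ k l : Ordinal.{u}) : Prop :=
  0 < k ∧ k < l ∧ FewSub HOD k.toZFSet l.toZFSet ∧
    ¬ ∃ g, HOD g ∧ PartCf μ.toZFSet k.toZFSet l.toZFSet g

/-- Disjoint families extend to partitions. -/
theorem part_of_fam {μ k : Ordinal.{u}} (hk : 0 < k) {g : ZFSet.{u}} (hg : HOD g)
    (h : DisjFam k.toZFSet l.toZFSet (SCf l.toZFSet μ.toZFSet) g) :
    ∃ g', HOD g' ∧ PartCf μ.toZFSet k.toZFSet l.toZFSet g' := by
  classical
  obtain ⟨h1, h2, h3⟩ := h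
  obtain ⟨A, hA⟩ : ∃ A : ZFSet.{u} → ZFSet.{u} → Prop, A = fun z i =>
    (∃ B, pair i B ∈ g ∧ z ∈ B) ∨ ((∀ y ∈ i, ¬ y = y) ∧ (Cf μ.toZFSet z ∧
      ∀ j ∈ k.toZFSet, ∀ B, pair j B ∈ g → ¬ z ∈ B)) := ⟨_, rfl⟩
  have hdef : HOD (gr k.toZFSet fun i => ZFSet.sep (fun z => A z i) l.toZFSet) := by
    have h4 := HOD_grG (A := fun z i x => (∃ B, pair i B ∈ x 0 ∧ z ∈ B) ∨ ((∀ y ∈ i, ¬ y = y) ∧
      (Cf (x 1) z ∧ ∀ j ∈ x 2, ∀ B, pair j B ∈ x 0 → ¬ z ∈ B))) (by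
        have : Dfn Gd.{u} (fun v => (∃ B, pair (v 1) B ∈ v 2 ∧ v 0 ∈ B) ∨ ((∀ y ∈ v 1, ¬ y = y) ∧
          (Cf (v 3) (v 0) ∧ ∀ j ∈ v 4, ∀ B, pair j B ∈ v 2 → ¬ v 0 ∈ B))) := by
          refine Dfn.or ?_ (Dfn.and ?_ (Dfn.and (dfn_Cf _ _) ?_))
          · exact Dfn.ex (A := fun B v => pair (v 1) B ∈ v 2 ∧ v 0 ∈ B)
              ((dfn_pm Gd_Trs _ _ _).and (Dfn.mem _ _)) (by
                rintro U hU v hv ⟨X, h1, h2⟩
                have h5 : ({v 1, X} : ZFSet.{u}) ∈ U := (Gd_Trs hU).mem_trans (by simp [pair])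
                  ((Gd_Trs hU).mem_trans h1 (hv 2))
                exact ⟨X, (Gd_Trs hU).mem_trans (by simp) h5, h1, h2⟩)
          · exact Dfn.ball Gd_Trs _ (Dfn.eq _ _).not
          · refine Dfn.ball Gd_Trs _ ?_
            refine Dfn_allp Gd_Trs _ _ (A := fun B v => ¬ v 1 ∈ B) (Dfn.mem _ _).not
        exact this) (HOD_ord k) (HOD_ord l) [g, μ.toZFSet, k.toZFSet] (by
        intro p hp
        simp only [List.mem_cons, List.not_mem_nil, or_false] at hp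
        rcases hp with rfl | rfl | rfl
        · exact hg.od
        · exact OD_ord _
        · exact OD_ord _)
    rw [hA]
    exact h4
  have happ : ∀ i ∈ k.toZFSet, ∀ B, pair i B ∈ g → B = app g i := fun i hi B hB =>
    ((app_iff h1 hi).1 hB).symm
  have hAm : ∀ z i, i ∈ k.toZFSet → (A z i ↔ z ∈ app g i ∨ ((∀ y ∈ i, ¬ y = y) ∧
      (Cf μ.toZFSet z ∧ ∀ j ∈ k.toZFSet, ¬ z ∈ app g j))) := by
    intro z i hi
    rw [hA]
    constructor
    · rintro (⟨B, h4, h5⟩ | ⟨h4, h5, h6⟩)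
      · rw [happ i hi B h4] at h5
        exact Or.inl h5
      · exact Or.inr ⟨h4, h5, fun j hj => h6 j hj _ (app_spec h1 hj)⟩
    · rintro (h4 | ⟨h4, h5, h6⟩)
      · exact Or.inl ⟨_, app_spec h1 hi, h4⟩
      · refine Or.inr ⟨h4, h5, fun j hj B hB => ?_⟩
        rw [happ j hj B hB]
        exact h6 j hj
  have hCf : ∀ i ∈ k.toZFSet, ∀ z ∈ app g i, z ∈ l.toZFSet ∧ Cf μ.toZFSet z := by
    intro i hi z hz
    have h4 := (h2 i hi _ (mem_powerset.1 (app_mem h1 hi)) (app_spec h1 hi)).2 hz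
    exact mem_sep.1 h4
  have hzero : ∀ i ∈ k.toZFSet, (∀ y ∈ i, ¬ y = y) → i = (0 : Ordinal.{u}).toZFSet := by
    intro i hi h4
    obtain ⟨i, hi', rfl⟩ := Ordinal.mem_toZFSet_iff.1 hi
    rcases (bot_le : (0 : Ordinal.{u}) ≤ i).lt_or_eq with h5 | h5
    · exact absurd rfl (h4 _ (tz_mem.2 h5))
    · exact congrArg Ordinal.toZFSet h5.symm
  refine ⟨_, hdef, isFunc_gr fun i hi => mem_powerset.2 fun z hz => (mem_sep.1 hz).1, ?_, ?_, ?_⟩
  · intro i hi B hB hiB C hC1 hC2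
    rw [pair_mem_gr] at hiB
    obtain ⟨x, hx, hx'⟩ := (h2 i hi _ (mem_powerset.1 (app_mem h1 hi)) (app_spec h1 hi)).1 C hC1 hC2
    refine ⟨x, ?_, hx'⟩
    rw [← hiB.2, mem_sep]
    exact ⟨(hCf i hi x hx).1, (hAm x i hi).2 (Or.inl hx)⟩
  · rintro i hi i' hi' B hB B' hB' hiB hiB' ⟨a, ha, ha'⟩
    rw [pair_mem_gr] at hiB hiB'
    rw [← hiB.2, mem_sep, hAm a i hi] at ha
    rw [← hiB'.2, mem_sep, hAm a i' hi'] at ha'
    rcases ha.2 with h4 | ⟨h4, h5, h6⟩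
    · rcases ha'.2 with h7 | ⟨h7, h8, h9⟩
      · exact h3 i hi i' hi' _ (mem_powerset.1 (app_mem h1 hi)) _
          (mem_powerset.1 (app_mem h1 hi')) (app_spec h1 hi) (app_spec h1 hi') ⟨a, h4, h7⟩
      · exact absurd h4 (h9 i hi)
    · rcases ha'.2 with h7 | ⟨h7, h8, h9⟩
      · exact absurd h7 (h6 i' hi')
      · rw [hzero i hi h4, hzero i' hi' h7]
  · intro a ha
    constructor
    · intro hcf
      by_cases h4 : ∃ j ∈ k.toZFSet, a ∈ app g j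
      · obtain ⟨j, hj, h5⟩ := h4
        refine ⟨j, hj, ZFSet.sep (fun z => A z j) l.toZFSet, fun z hz => (mem_sep.1 hz).1, ?_, ?_⟩
        · rw [pair_mem_gr]
          exact ⟨hj, rfl⟩
        · exact mem_sep.2 ⟨ha, (hAm a j hj).2 (Or.inl h5)⟩
      · push Not at h4
        have h0 : (0 : Ordinal.{u}).toZFSet ∈ k.toZFSet := tz_mem.2 hk
        refine ⟨_, h0, ZFSet.sep (fun z => A z (0 : Ordinal.{u}).toZFSet) l.toZFSet,
          fun z hz => (mem_sep.1 hz).1, ?_, ?_⟩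
        · rw [pair_mem_gr]
          exact ⟨h0, rfl⟩
        · refine mem_sep.2 ⟨ha, (hAm a _ h0).2 (Or.inr ⟨?_, hcf, h4⟩)⟩
          intro y hy
          obtain ⟨y, hy', _⟩ := Ordinal.mem_toZFSet_iff.1 hy
          exact absurd hy' (not_lt.2 bot_le)
    · rintro ⟨i, hi, B, hB, hiB, haB⟩
      rw [pair_mem_gr] at hiB
      rw [← hiB.2, mem_sep, hAm a i hi] at haB
      rcases haB.2 with h4 | ⟨_, h5, _⟩
      · exact (hCf i hi a h4).2
      · exact h5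

/-- Removing the complement of a closed unbounded set. -/
theorem stat_club {α ν : Ordinal.{u}} (hlim : ∀ x < α, Order.succ x < α) (h : Uc α ν)
    (hν : Ordinal.omega0 < ν) {S : Set Ordinal.{u}} (hS : StatL S α) {C : ZFSet.{u}}
    (hC1 : C ⊆ α.toZFSet) (hC2 : Club C α.toZFSet) : StatL {β | β ∈ S ∧ β.toZFSet ∈ C} α := by
  have h2ν : (2 : Ordinal.{u}) < ν := by
    have : (2 : Ordinal.{u}) < Ordinal.omega0 := by exact_mod_cast Ordinal.natCast_lt_omega0 2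
    exact this.trans hν
  obtain ⟨i, hi, h1⟩ := stat_union hlim h hν h2ν hS
    (P := fun i β => if i = 0 then β.toZFSet ∈ C else β.toZFSet ∉ C) fun β _ _ => by
      by_cases h3 : β.toZFSet ∈ C
      · exact ⟨0, by norm_num, by simpa using h3⟩
      · exact ⟨1, by norm_num, by simpa using h3⟩
  by_cases h0 : i = 0
  · refine h1.mono fun β _ h2 => ⟨h2.1, ?_⟩
    have := h2.2
    rwa [if_pos h0] at this
  · exfalso
    obtain ⟨β, _, h2, h3⟩ := h1 C hC1 hC2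
    have := h2.2
    rw [if_neg h0] at this
    exact this h3

/-- Sets of ordinals of cofinality `μ` which cannot be split reflect at stationary many elements of
such sets of larger cofinality. -/
theorem exists_below2 (hl : RegUnc l.toZFSet) {μ ν : Ordinal.{u}} (hμ : Rg μ)
    (hμν : μ < ν) (hων : Ordinal.omega0 < ν) (hνl : ν < l) {θ : Ordinal.{u}} (hθ : θ < ν)
    {B : Ordinal.{u} → ZFSet.{u}} (hB : ∀ i < θ, Atom l (B i))
    (hBS : ¬ StatL {α | α.toZFSet ∈ SCf l.toZFSet μ.toZFSet ∧ ∀ i < θ, α.toZFSet ∉ B i} l)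
    {A : ZFSet.{u}} (hA : Atom l A) (hAν : A ⊆ SCf l.toZFSet ν.toZFSet) :
    ∃ i < θ, MLt l (uf l (B i)) (uf l A) := by
  unfold StatL at hBS
  push Not at hBS
  obtain ⟨C, hC1, hC2, hC3⟩ := hBS
  have hcf : ∀ α : Ordinal.{u}, α.toZFSet ∈ A → α < l ∧ Cf ν.toZFSet α.toZFSet :=
    fun α hα => mem_SCf.1 (hAν hα)
  have h1 : StatL {α | α ∈ {α : Ordinal.{u} | α.toZFSet ∈ A} ∧ α.toZFSet ∈ lims C l} l :=
    stat_club (fun x hx => hl.succ_lt hx) (RegUnc.uc hl) hl.om_lt hA.2.2.1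
      (fun x hx => (mem_sep.1 hx).1) (club_lims (RegUnc.uc hl) hl.om_lt hC1 hC2)
  have h2 : ∀ α ∈ {α | α ∈ {α : Ordinal.{u} | α.toZFSet ∈ A} ∧ α.toZFSet ∈ lims C l}, α < l →
      ∃ i < θ, StatL {β | β.toZFSet ∈ B i} α := by
    rintro α ⟨hα, hαC⟩ hαl
    have h3 := (hcf α hα).2
    obtain ⟨i, hi, h4⟩ := stat_union h3.lim h3.uc hων hθ
      (stat_club h3.lim h3.uc hων (stat_SCf (l := l) h3.uc hαl.le hμν hμ)
        (fun z hz => (mem_inter.1 hz).2) (club_below hC2 hαC))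
      (P := fun i β => β.toZFSet ∈ B i) fun β hβ hβα => by
        by_contra hcon
        push Not at hcon
        exact hC3 β (hβα.trans hαl) ⟨hβ.1, hcon⟩ (mem_inter.1 hβ.2).1
    exact ⟨i, hi, h4.mono fun β _ h => h.2⟩
  obtain ⟨i, hi, h3⟩ := h1.union hl (hθ.trans hνl)
    (P := fun i α => StatL {β | β.toZFSet ∈ B i} α) h2
  exact ⟨i, hi, mlt_uf hl (hB i hi) hA hων (fun α hα => (hcf α hα).2)
    (h3.mono fun α _ h => ⟨h.1.1, h.2⟩)⟩

/-- The decomposition for strongly measurable cardinals. -/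
theorem StrM.atoms (hl : RegUnc l.toZFSet) {μ k : Ordinal.{u}} (h : StrM μ k l) :
    ∃ θ < k, ∃ B : Ordinal.{u} → ZFSet.{u}, (∀ i < θ, Atom l (B i) ∧
      B i ⊆ SCf l.toZFSet μ.toZFSet) ∧
      ¬ StatL {α | α.toZFSet ∈ SCf l.toZFSet μ.toZFSet ∧ ∀ i < θ, α.toZFSet ∉ B i} l :=
  decompose2 hl SCf_sub (HOD_SCf μ) h.2.2.1 fun ⟨g, hg, hF⟩ => h.2.2.2 (part_of_fam h.1 hg hF)

/-- **The local theorem.** -/
theorem mrank_loc (hl : RegUnc l.toZFSet) {ξ : Ordinal.{u}} {μ k : Ordinal.{u} → Ordinal.{u}}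
    (h1 : ∀ i < ξ, Rg (μ i) ∧ μ i < l ∧ StrM (μ i) (k i) l)
    (h2 : ∀ i j, i < j → j < ξ → μ i < μ j ∧ k i ≤ μ j) (i : Ordinal.{u}) (hi : i < ξ) :
    ∀ A, Atom l A → A ⊆ SCf l.toZFSet (μ i).toZFSet → MRank l i (uf l A) := by
  induction i using WellFoundedLT.induction with
  | ind i ih =>
    intro A hA hAμ
    rw [MRank]
    refine ⟨hA.normU hl, fun ζ hζ => ?_⟩
    obtain ⟨hμ, hμl, hS⟩ := h1 ζ (hζ.trans hi)
    obtain ⟨h3, h4⟩ := h2 ζ i hζ hi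
    obtain ⟨θ, hθ, B, hB1, hB2⟩ := StrM.atoms hl hS
    have hω : Ordinal.omega0 ≤ μ ζ := by
      by_contra hcon
      push Not at hcon
      obtain ⟨n, hn⟩ := Ordinal.lt_omega0.1 hcon
      have h5 : ∀ m : ℕ, (m : Ordinal.{u}) < μ ζ := by
        intro m
        induction m with
        | zero => exact_mod_cast hμ.1
        | succ m ihm =>
          have := hμ.2.1 _ ihm
          rw [Order.succ_eq_add_one] at this
          exact_mod_cast this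
      exact absurd (h5 n) (by rw [hn]; exact lt_irrefl _)
    obtain ⟨j, hj, h6⟩ := exists_below2 hl hμ h3 (hω.trans_lt h3) (h1 i hi).2.1
      (hθ.trans_le h4) (fun j hj => (hB1 j hj).1) hB2 hA hAμ
    exact ⟨_, h6, ih ζ hζ (hζ.trans hi) _ (hB1 j hj).1 (hB1 j hj).2⟩

/-- Atoms contained in a given set. -/
theorem exists_mem_uf (hl : RegUnc l.toZFSet) {μ k : Ordinal.{u}} (h : StrM μ k l)
    {X : ZFSet.{u}} (hX : HOD X) (hXl : X ⊆ l.toZFSet)
    (hst : StatL {α | α.toZFSet ∈ X ∧ Cf μ.toZFSet α.toZFSet} l) :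
    ∃ A, Atom l A ∧ A ⊆ SCf l.toZFSet μ.toZFSet ∧
      ZFSet.sep (fun a => a ∈ X ∧ Cf μ.toZFSet a) l.toZFSet ∈ uf l A := by
  obtain ⟨θ, hθ, B, hB1, hB2⟩ := StrM.atoms hl h
  unfold StatL at hB2
  push Not at hB2
  obtain ⟨C, hC1, hC2, hC3⟩ := hB2
  have hst' := stat_club (fun x hx => hl.succ_lt hx) (RegUnc.uc hl) hl.om_lt hst hC1 hC2
  obtain ⟨i, hi, h1⟩ := hst'.union hl (hθ.trans h.2.1) (P := fun i α => α.toZFSet ∈ B i)
    fun α hα hαl => by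
      by_contra hcon
      push Not at hcon
      exact hC3 α hαl ⟨mem_SCf.2 ⟨hαl, hα.1.2⟩, hcon⟩ hα.2
  obtain ⟨hat, hsub⟩ := hB1 i hi
  refine ⟨B i, hat, hsub, ?_⟩
  rw [hat.mem_iff hl (fun z hz => (mem_sep.1 hz).1)]
  · exact h1.mono fun α hα h2 => ⟨h2.2, mem_sep.2 ⟨tz_mem.2 hα, h2.1.1⟩⟩
  · refine HOD_sepG (A := fun a x => a ∈ x 0 ∧ Cf (x 1) a) ((Dfn.mem _ _).and (dfn_Cf _ _))
      (HOD_ord l) [X, μ.toZFSet] ?_
    intro p hp
    simp only [List.mem_cons, List.not_mem_nil, or_false] at hp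
    rcases hp with rfl | rfl
    · exact hX.od
    · exact OD_ord μ

end Pool.Agent.H93.HM
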