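import Pool.Agent.H93.HM.Cof

/-!
The Mitchell order of `HOD`.
-/

set_option autoImplicit false
set_option linter.unusedVariables false

namespace Pool.Agent.H93.HM

open ZFSet Gss969 Pool.Agent.H310.HD

universe u

/-- `U` belongs to the ultrapower of `HOD` by the measure `W` on `κ`: some function `f ∈ HOD` on
`κ` represents `U`, that is, for all `X ⊆ κ` in `HOD`, `X ∈ U` iff `X ∩ α ∈ f(α)` for `W`-almost
all `α`. -/
def MLt (κ : Ordinal.{u}) (U W : ZFSet.{u}) : Prop :=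
  ∃ f T, HOD f ∧ IsFunc κ.toZFSet T f ∧ ∀ X, X ⊆ κ.toZFSet → HOD X →
    (X ∈ U ↔ ZFSet.sep (fun a => ∃ F ∈ T, pair a F ∈ f ∧ X ∩ a ∈ F) κ.toZFSet ∈ W)

/-- In `HOD`, `U` is a normal measure on `κ` of rank at least `ξ` in the Mitchell order. -/
def MRank (κ ξ : Ordinal.{u}) (U : ZFSet.{u}) : Prop :=
  NormU κ U ∧ ∀ ζ : Ordinal.{u}, (h : ζ < ξ) → ∃ U', MLt κ U' U ∧ MRank κ ζ U'
termination_by ξ
decreasing_by exact h

variable {l : Ordinal.{u}}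

/-- `F` is the set of all `Z ⊆ a` in `HOD` with `A ∩ C ⊆ Z` for some closed unbounded `C ⊆ a`. -/
def IsUf (F a A : ZFSet.{u}) : Prop :=
  (∀ Z ∈ F, Z ⊆ a ∧ (HOD Z ∧ ∃ C, C ⊆ a ∧ (Club C a ∧ ∀ b ∈ A, b ∈ C → b ∈ Z))) ∧
    ∀ Z, Z ⊆ a → (HOD Z ∧ ∃ C, C ⊆ a ∧ (Club C a ∧ ∀ b ∈ A, b ∈ C → b ∈ Z)) → Z ∈ F

theorem isUf_iff {F A : ZFSet.{u}} {α : Ordinal.{u}} : IsUf F α.toZFSet A ↔ F = uf α A := by
  constructor
  · rintro ⟨h1, h2⟩
    ext Z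
    rw [mem_uf']
    exact ⟨h1 Z, fun h => h2 Z h.1 h.2⟩
  · rintro rfl
    exact ⟨fun Z hZ => mem_uf'.1 hZ, fun Z h1 h2 => mem_uf'.2 ⟨h1, h2⟩⟩

theorem dfn_IsUf (a b c : ℕ) : Dfn Gd.{u} (fun v => IsUf (v a) (v b) (v c)) := by
  unfold IsUf
  repeat' first
    | exact Dfn.mem _ _ | exact dfn_sub Gd_Trs _ _ | exact dfn_HOD _
    | exact (dfn_Club _ _).mono Gd_Lvl
    | refine Dfn.exsub Gd_Lvl _ ?_ | refine Dfn.allsub Gd_Lvl _ ?_
    | refine Dfn.and ?_ ?_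
    | refine Dfn.ball Gd_Trs _ ?_ | refine Dfn.bex Gd_Trs _ ?_ | refine Dfn.imp ?_ ?_

/-- The sequence of the filters. -/
noncomputable def ufs (l : Ordinal.{u}) (A : ZFSet.{u}) : ZFSet.{u} :=
  gr l.toZFSet fun a => uf (rank a) A

theorem HOD_ufs {A : ZFSet.{u}} (hA : HOD A) : HOD (ufs l A) := by
  have hbd : ∀ {U a F A : ZFSet.{u}}, U ∈ Gd → a ∈ U → IsUf F a A → F ∈ U := by
    intro U a F A hU ha h
    refine Lvl_sub hU.1 (Lvl_powerset hU.1 ha) fun Z hZ => ?_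
    exact mem_powerset.2 (h.1 Z hZ).1
  refine HOD_def (R := fun y x => (∀ p ∈ y, ∃ a ∈ x 0, ∃ F, IsUf F a (x 1) ∧ p = pair a F) ∧
      ∀ a ∈ x 0, ∃ F, IsUf F a (x 1) ∧ pair a F ∈ y)
    ?_ [l.toZFSet, A] ?_ (fun y => ?_) fun z hz => ?_
  · refine Dfn.and (Dfn.ball Gd_Trs _ (Dfn.bex Gd_Trs _ (Dfn.ex ?_ ?_)))
      (Dfn.ball Gd_Trs _ (Dfn.ex ?_ ?_))
    · exact (dfn_IsUf _ _ _).and (dfn_pair Gd_Trs _ _ _)
    · rintro U hU v hv ⟨F, h1, h2⟩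
      exact ⟨F, hbd hU (hv _) h1, h1, h2⟩
    · exact (dfn_IsUf _ _ _).and (dfn_pm Gd_Trs _ _ _)
    · rintro U hU v hv ⟨F, h1, h2⟩
      exact ⟨F, hbd hU (hv _) h1, h1, h2⟩
  · intro p hp
    simp only [List.mem_cons, List.not_mem_nil, or_false] at hp
    rcases hp with rfl | rfl
    · exact OD_ord l
    · exact hA.od
  · show ((∀ p ∈ y, ∃ a ∈ l.toZFSet, ∃ F, IsUf F a A ∧ p = pair a F) ∧
      ∀ a ∈ l.toZFSet, ∃ F, IsUf F a A ∧ pair a F ∈ y) ↔ _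
    unfold ufs
    constructor
    · rintro ⟨h1, h2⟩
      ext p
      rw [mem_gr]
      constructor
      · intro hp
        obtain ⟨a, ha, F, hF, rfl⟩ := h1 p hp
        obtain ⟨α, hα, rfl⟩ := Ordinal.mem_toZFSet_iff.1 ha
        rw [isUf_iff] at hF
        exact ⟨_, ha, by rw [Ordinal.rank_toZFSet, hF]⟩
      · rintro ⟨a, ha, rfl⟩
        obtain ⟨F, hF, h3⟩ := h2 a ha
        obtain ⟨α, hα, rfl⟩ := Ordinal.mem_toZFSet_iff.1 ha
        rw [isUf_iff] at hF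
        rw [Ordinal.rank_toZFSet, ← hF]
        exact h3
    · rintro rfl
      constructor
      · intro p hp
        obtain ⟨a, ha, rfl⟩ := mem_gr.1 hp
        obtain ⟨α, hα, rfl⟩ := Ordinal.mem_toZFSet_iff.1 ha
        rw [Ordinal.rank_toZFSet]
        exact ⟨_, ha, _, isUf_iff.2 rfl, rfl⟩
      · intro a ha
        obtain ⟨α, hα, rfl⟩ := Ordinal.mem_toZFSet_iff.1 ha
        refine ⟨_, isUf_iff.2 rfl, ?_⟩
        rw [pair_mem_gr, Ordinal.rank_toZFSet]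
        exact ⟨ha, rfl⟩
  · unfold ufs at hz
    obtain ⟨a, ha, rfl⟩ := mem_gr.1 hz
    obtain ⟨α, hα, rfl⟩ := Ordinal.mem_toZFSet_iff.1 ha
    exact HOD_pair (HOD_ord α) (HOD_uf hA)

/-- **The Mitchell order between the measures.** -/
theorem mlt_uf (hl : RegUnc l.toZFSet) {A B : ZFSet.{u}} (hA : Atom l A) (hB : Atom l B)
    {ν : Ordinal.{u}} (hν : Ordinal.omega0 < ν)
    (hBν : ∀ α : Ordinal.{u}, α.toZFSet ∈ B → Cf ν.toZFSet α.toZFSet)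
    (hAB : StatL {α | α.toZFSet ∈ B ∧ StatL {β | β.toZFSet ∈ A} α} l) :
    MLt l (uf l A) (uf l B) := by
  obtain ⟨T, hT⟩ : ∃ T : ZFSet.{u}, T = powerset (powerset l.toZFSet) := ⟨_, rfl⟩
  have hufT : ∀ α < l, uf α A ∈ T := by
    intro α hα
    rw [hT, mem_powerset]
    intro Z hZ
    rw [mem_powerset]
    have h1 := (mem_uf.1 hZ).1
    intro z hz
    exact (isOrdinal_toZFSet l).1.mem_trans (h1 hz) (tz_mem.2 hα)
  have hf : IsFunc l.toZFSet T (ufs l A) := isFunc_gr fun a ha => by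
    obtain ⟨α, hα, rfl⟩ := Ordinal.mem_toZFSet_iff.1 ha
    rw [Ordinal.rank_toZFSet]
    exact hufT α hα
  obtain ⟨E, hE⟩ : ∃ E : ZFSet.{u} → ZFSet.{u}, ∀ X, E X = ZFSet.sep (fun a => ∃ F ∈ T,
    pair a F ∈ ufs l A ∧ X ∩ a ∈ F) l.toZFSet := ⟨_, fun _ => rfl⟩
  have hmE : ∀ X : ZFSet.{u}, ∀ α : Ordinal.{u}, α.toZFSet ∈ E X ↔
      α < l ∧ X ∩ α.toZFSet ∈ uf α A := by
    intro X α
    rw [hE, mem_sep, tz_mem]
    refine and_congr_right fun hα => ?_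
    constructor
    · rintro ⟨F, _, h1, h2⟩
      unfold ufs at h1
      rw [pair_mem_gr, Ordinal.rank_toZFSet] at h1
      rw [h1.2]
      exact h2
    · intro h
      refine ⟨uf α A, hufT α hα, ?_, h⟩
      unfold ufs
      rw [pair_mem_gr, Ordinal.rank_toZFSet]
      exact ⟨tz_mem.2 hα, rfl⟩
  have hEO : ∀ X, HOD X → HOD (E X) := by
    intro X hX
    rw [hE]
    have h := HOD_sepG (A := fun a x => ∃ F ∈ x 0, pair a F ∈ x 1 ∧ ∃ Z ∈ F, (∀ z ∈ Z, z ∈ x 2 ∧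
      z ∈ a) ∧ ∀ z ∈ x 2, z ∈ a → z ∈ Z) (by
        repeat' first
          | exact Dfn.mem _ _ | exact dfn_pm Gd_Trs _ _ _
          | refine Dfn.and ?_ ?_
          | refine Dfn.ball Gd_Trs _ ?_ | refine Dfn.bex Gd_Trs _ ?_ | refine Dfn.imp ?_ ?_)
      (HOD_ord l) [T, ufs l A, X] (by
      intro p hp
      simp only [List.mem_cons, List.not_mem_nil, or_false] at hp
      rcases hp with rfl | rfl | rfl
      · rw [hT]; exact OD_pow (OD_pow (OD_ord l))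
      · exact (HOD_ufs hA.1).od
      · exact hX.od)
    refine Eq.mp (congrArg HOD ?_) h
    ext a
    rw [mem_sep, mem_sep]
    refine and_congr_right fun _ => ?_
    show (∃ F ∈ T, pair a F ∈ ufs l A ∧ ∃ Z ∈ F, (∀ z ∈ Z, z ∈ X ∧ z ∈ a) ∧
      ∀ z ∈ X, z ∈ a → z ∈ Z) ↔ _
    refine exists_congr fun F => and_congr_right fun _ => and_congr_right fun _ => ?_
    constructor
    · rintro ⟨Z, hZ, h1, h2⟩
      have : X ∩ a = Z := by
        ext z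
        rw [mem_inter]
        exact ⟨fun h => h2 z h.1 h.2, h1 z⟩
      rw [this]
      exact hZ
    · intro h
      exact ⟨_, h, fun z hz => mem_inter.1 hz, fun z h1 h2 => mem_inter.2 ⟨h1, h2⟩⟩
  have hEl : ∀ X, E X ⊆ l.toZFSet := by
    intro X z hz
    rw [hE, mem_sep] at hz
    exact hz.1
  have hup : ∀ X, X ∈ uf l A → E X ∈ uf l B := by
    intro X hX
    obtain ⟨hXl, hXO, C, hC1, hC2, hC3⟩ := mem_uf'.1 hX
    refine mem_uf'.2 ⟨hEl X, hEO X hXO, lims C l, fun z hz => (mem_sep.1 hz).1,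
      club_lims (RegUnc.uc hl) hl.om_lt hC1 hC2, fun a ha haC => ?_⟩
    obtain ⟨α, hα, rfl⟩ := Ordinal.mem_toZFSet_iff.1 (mem_sep.1 haC).1
    refine (hmE X α).2 ⟨hα, mem_uf'.2 ⟨fun z hz => (mem_inter.1 hz).2, HOD_inter_ord hXO α,
      C ∩ α.toZFSet, fun z hz => (mem_inter.1 hz).2, club_below hC2 haC, fun b hb hbC => ?_⟩⟩
    exact mem_inter.2 ⟨hC3 b hb (mem_inter.1 hbC).1, (mem_inter.1 hbC).2⟩
  have hNA := hA.normU hl
  refine ⟨ufs l A, T, HOD_ufs hA.1, hf, fun X hX hXO => ?_⟩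
  rw [← hE]
  refine ⟨hup X, fun h1 => ?_⟩
  by_contra hcon
  have hd : l.toZFSet \ X ⊆ l.toZFSet := fun z hz => (mem_sdiff.1 hz).1
  have h2 : l.toZFSet \ X ∈ uf l A := by
    by_contra h3
    exact hcon ((hNA.ultra X hX hXO).2 h3)
  have h3 := hup _ h2
  -- an ordinal at which both sets are large
  rcases stat_two hl hAB (fun α => α.toZFSet ∈ E X) with h4 | h4
  swap
  · exact (mem_uf.1 h1).2.2 (h4.mono fun α _ h => ⟨h.1.1, h.2⟩)
  rcases stat_two hl h4 (fun α => α.toZFSet ∈ E (l.toZFSet \ X)) with h5 | h5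
  swap
  · exact (mem_uf.1 h3).2.2 (h5.mono fun α _ h => ⟨h.1.1.1, h.2⟩)
  obtain ⟨α, hα, ⟨⟨hαB, hst⟩, h6⟩, h7⟩ := StatL.ne hl h5
  obtain ⟨_, _, C1, hC1, hC1', hC1''⟩ := mem_uf'.1 ((hmE _ _).1 h6).2
  obtain ⟨_, _, C2, hC2, hC2', hC2''⟩ := mem_uf'.1 ((hmE _ _).1 h7).2
  have hcf := hBν α hαB
  have h2ν : (2 : Ordinal.{u}) < ν := by
    have : (2 : Ordinal.{u}) < Ordinal.omega0 := by exact_mod_cast Ordinal.natCast_lt_omega0 2
    exact this.trans hν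
  have hclub := club_inter (C := fun i => if i = 0 then C1 else C2) (Cf.lim hcf) (Cf.uc hcf) hν h2ν
    (fun i _ => by
      split_ifs
      · exact hC1
      · exact hC2) (fun i _ => by
      split_ifs
      · exact hC1'
      · exact hC2')
  obtain ⟨β, hβ, hβA, hβC⟩ := hst _ (fun x hx => (mem_sep.1 hx).1) hclub
  have h8 := (mem_sep.1 hβC).2
  have h9 : β.toZFSet ∈ C1 := by simpa using h8 0 (by norm_num)
  have h10 : β.toZFSet ∈ C2 := by simpa using h8 1 (by norm_num)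
  exact (mem_sdiff.1 (mem_inter.1 (hC2'' _ hβA h10)).1).2 (mem_inter.1 (hC1'' _ hβA h9)).1

end Pool.Agent.H93.HM
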