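import Pool.Agent.H93.HM.Dec

/-!
The normal measure of `HOD` given by the closed unbounded filter below a stationary set which
cannot be split in `HOD`.
-/

set_option autoImplicit false
set_option linter.unusedVariables false

namespace Pool.Agent.H93.HM

open ZFSet Gss969 Pool.Agent.H310.HD

universe u

/-- In `HOD`, `U` is a normal nonprincipal `κ`-complete ultrafilter on `κ`. -/
structure NormU (κ : Ordinal.{u}) (U : ZFSet.{u}) : Prop where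
  hod : HOD U
  sub : ∀ X ∈ U, X ⊆ κ.toZFSet ∧ HOD X
  up : ∀ X ∈ U, ∀ Y, Y ⊆ κ.toZFSet → HOD Y → X ⊆ Y → Y ∈ U
  ultra : ∀ X, X ⊆ κ.toZFSet → HOD X → (X ∈ U ↔ κ.toZFSet \ X ∉ U)
  free : ∀ ξ < κ, {Ordinal.toZFSet ξ} ∉ U
  complete : ∀ μ < κ, ∀ g, HOD g → IsFunc (Ordinal.toZFSet μ) U g →
    ZFSet.sep (fun x => ∀ i ∈ Ordinal.toZFSet μ, ∀ X ∈ U, pair i X ∈ g → x ∈ X) κ.toZFSet ∈ U
  normal : ∀ f, HOD f → IsFunc κ.toZFSet κ.toZFSet f →
    ZFSet.sep (fun x => ∃ y ∈ x, pair x y ∈ f) κ.toZFSet ∈ U →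
    ∃ ξ < κ, ZFSet.sep (fun x => pair x (Ordinal.toZFSet ξ) ∈ f) κ.toZFSet ∈ U

/-- The subsets `X ∈ HOD` of `l` with `A ∩ C ⊆ X` for some closed unbounded `C`. -/
noncomputable def uf (l : Ordinal.{u}) (A : ZFSet.{u}) : ZFSet.{u} :=
  ZFSet.sep (fun X => HOD X ∧ ∃ C, C ⊆ l.toZFSet ∧ (Club C l.toZFSet ∧ ∀ a ∈ A, a ∈ C → a ∈ X))
    (powerset l.toZFSet)

variable {l : Ordinal.{u}}

theorem mem_uf' {A X : ZFSet.{u}} : X ∈ uf l A ↔ X ⊆ l.toZFSet ∧ HOD X ∧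
    ∃ C, C ⊆ l.toZFSet ∧ (Club C l.toZFSet ∧ ∀ a ∈ A, a ∈ C → a ∈ X) := by
  unfold uf
  rw [mem_sep, mem_powerset]

theorem mem_uf {A X : ZFSet.{u}} : X ∈ uf l A ↔ X ⊆ l.toZFSet ∧ HOD X ∧
    ¬ StatL {α | α.toZFSet ∈ A ∧ α.toZFSet ∉ X} l := by
  rw [mem_uf']
  refine and_congr_right fun _ => and_congr_right fun _ => ?_
  constructor
  · rintro ⟨C, hC1, hC2, h⟩ hst
    obtain ⟨α, _, h1, h2⟩ := hst C hC1 hC2
    exact h1.2 (h _ h1.1 h2)
  · intro h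
    unfold StatL at h
    push Not at h
    obtain ⟨C, hC1, hC2, h⟩ := h
    refine ⟨C, hC1, hC2, fun a ha haC => ?_⟩
    by_contra hcon
    obtain ⟨α, hα, rfl⟩ := Ordinal.mem_toZFSet_iff.1 (hC1 haC)
    exact h α hα ⟨ha, hcon⟩ haC

theorem HOD_uf {A : ZFSet.{u}} (hA : HOD A) : HOD (uf l A) := by
  refine HOD_def (R := fun y x => (∀ X ∈ y, X ⊆ x 0 ∧ (HOD X ∧
      ∃ C, C ⊆ x 0 ∧ (Club C (x 0) ∧ ∀ a ∈ x 1, a ∈ C → a ∈ X))) ∧
      ∀ X, X ⊆ x 0 → (HOD X ∧ ∃ C, C ⊆ x 0 ∧ (Club C (x 0) ∧ ∀ a ∈ x 1, a ∈ C → a ∈ X)) → X ∈ y)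
    ?_ [l.toZFSet, A] ?_ (fun y => ?_) fun z hz => (mem_uf.1 hz).2.1
  · repeat' first
      | exact Dfn.mem _ _ | exact dfn_sub Gd_Trs _ _ | exact dfn_HOD _
      | exact (dfn_Club _ _).mono Gd_Lvl
      | refine Dfn.exsub Gd_Lvl _ ?_ | refine Dfn.allsub Gd_Lvl _ ?_
      | refine Dfn.and ?_ ?_
      | refine Dfn.ball Gd_Trs _ ?_ | refine Dfn.bex Gd_Trs _ ?_ | refine Dfn.imp ?_ ?_
  · intro p hp
    simp only [List.mem_cons, List.not_mem_nil, or_false] at hp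
    rcases hp with rfl | rfl
    · exact OD_ord l
    · exact hA.od
  · show ((∀ X ∈ y, X ⊆ l.toZFSet ∧ (HOD X ∧
      ∃ C, C ⊆ l.toZFSet ∧ (Club C l.toZFSet ∧ ∀ a ∈ A, a ∈ C → a ∈ X))) ∧
      ∀ X, X ⊆ l.toZFSet → (HOD X ∧ ∃ C, C ⊆ l.toZFSet ∧ (Club C l.toZFSet ∧
        ∀ a ∈ A, a ∈ C → a ∈ X)) → X ∈ y) ↔ _
    constructor
    · rintro ⟨h1, h2⟩
      ext X
      rw [mem_uf']
      exact ⟨h1 X, fun h => h2 X h.1 h.2⟩
    · rintro rfl
      exact ⟨fun X hX => mem_uf'.1 hX, fun X h1 h2 => mem_uf'.2 ⟨h1, h2⟩⟩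

theorem stat_two (hl : RegUnc l.toZFSet) {S : Set Ordinal.{u}} (hS : StatL S l)
    (P : Ordinal.{u} → Prop) : StatL {α | α ∈ S ∧ P α} l ∨ StatL {α | α ∈ S ∧ ¬ P α} l := by
  have h2 : (2 : Ordinal.{u}) < l := by
    have : (2 : Ordinal.{u}) < Ordinal.omega0 := by exact_mod_cast Ordinal.natCast_lt_omega0 2
    exact this.trans hl.om_lt
  obtain ⟨i, hi, h⟩ := hS.union hl h2 (P := fun i α => if i = 0 then P α else ¬ P α)
    fun α _ _ => by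
      by_cases h : P α
      · exact ⟨0, by norm_num, by simpa using h⟩
      · exact ⟨1, by norm_num, by simpa using h⟩
  by_cases h0 : i = 0
  · left
    refine h.mono fun α _ h1 => ⟨h1.1, ?_⟩
    have := h1.2
    rwa [if_pos h0] at this
  · right
    refine h.mono fun α _ h1 => ⟨h1.1, ?_⟩
    have := h1.2
    rwa [if_neg h0] at this

namespace Atom

variable {A : ZFSet.{u}}

theorem mem_iff (hl : RegUnc l.toZFSet) (h : Atom l A) {X : ZFSet.{u}} (hX : X ⊆ l.toZFSet)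
    (hXO : HOD X) : X ∈ uf l A ↔ StatL {α | α.toZFSet ∈ A ∧ α.toZFSet ∈ X} l := by
  rw [mem_uf]
  constructor
  · rintro ⟨_, _, h1⟩
    rcases stat_two hl h.2.2.1 (fun α => α.toZFSet ∈ X) with h2 | h2
    · exact h2
    · exact absurd h2 h1
  · intro h1
    exact ⟨hX, hXO, fun h2 => h.2.2.2 X hXO ⟨h1, h2⟩⟩

theorem normU (hl : RegUnc l.toZFSet) (h : Atom l A) : NormU l (uf l A) := by
  have hdiff : ∀ {X : ZFSet.{u}}, HOD X → HOD (l.toZFSet \ X) := by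
    intro X hX
    have h1 : l.toZFSet \ X = ZFSet.sep (fun z => z ∉ X) l.toZFSet := by
      ext z
      rw [mem_sdiff, mem_sep]
    rw [h1]
    refine HOD_sepG (A := fun z x => z ∉ x 0) (Dfn.mem _ _).not (HOD_ord l) [X] ?_
    intro p hp
    rw [List.mem_singleton] at hp
    rw [hp]
    exact hX.od
  refine ⟨HOD_uf h.1, fun X hX => ⟨(mem_uf.1 hX).1, (mem_uf.1 hX).2.1⟩, ?_, ?_, ?_, ?_, ?_⟩
  · intro X hX Y hY hYO hXY
    refine mem_uf.2 ⟨hY, hYO, fun h1 => (mem_uf.1 hX).2.2 (h1.mono fun α _ h2 => ?_)⟩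
    exact ⟨h2.1, fun h3 => h2.2 (hXY h3)⟩
  · intro X hX hXO
    have hd : l.toZFSet \ X ⊆ l.toZFSet := fun z hz => (mem_sdiff.1 hz).1
    rw [h.mem_iff hl hX hXO, h.mem_iff hl hd (hdiff hXO)]
    constructor
    · intro h1 h2
      refine h.2.2.2 X hXO ⟨h1, h2.mono fun α _ h3 => ⟨h3.1, ?_⟩⟩
      exact (mem_sdiff.1 h3.2).2
    · intro h1
      rcases stat_two hl h.2.2.1 (fun α => α.toZFSet ∈ X) with h2 | h2
      · exact h2
      · refine absurd ?_ h1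
        exact h2.mono fun α hα h3 => ⟨h3.1, mem_sdiff.2 ⟨tz_mem.2 hα, h3.2⟩⟩
  · intro ξ hξ hmem
    refine (mem_uf.1 hmem).2.2 ?_
    refine (h.2.2.1.tail hl hξ).mono fun α _ h1 => ?_
    refine ⟨h1.1, fun h2 => ?_⟩
    rw [ZFSet.mem_singleton] at h2
    have h3 := h1.2
    rw [← tz_mem, h2] at h3
    exact mem_irrefl _ h3
  · intro μ hμ g hg hgf
    refine mem_uf.2 ⟨fun z hz => (mem_sep.1 hz).1, ?_, fun hst => ?_⟩
    · refine HOD_sepG (A := fun z x => ∀ i ∈ x 0, ∀ X ∈ x 1, pair i X ∈ x 2 → z ∈ X) ?_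
        (HOD_ord l) [μ.toZFSet, uf l A, g] ?_
      · exact Dfn.ball Gd_Trs _ (Dfn.ball Gd_Trs _ ((dfn_pm Gd_Trs _ _ _).imp (Dfn.mem _ _)))
      · intro p hp
        simp only [List.mem_cons, List.not_mem_nil, or_false] at hp
        rcases hp with rfl | rfl | rfl
        · exact OD_ord μ
        · exact (HOD_uf h.1).od
        · exact hg.od
    · obtain ⟨i, hi, h1⟩ := hst.union hl hμ (P := fun i α => α.toZFSet ∉ app g i.toZFSet)
        fun α hα hαl => by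
          have h1 := hα.2
          by_contra hcon
          push Not at hcon
          refine h1 (mem_sep.2 ⟨tz_mem.2 hαl, fun i hi X hX hiX => ?_⟩)
          obtain ⟨i, hi', rfl⟩ := Ordinal.mem_toZFSet_iff.1 hi
          rw [← (app_iff hgf hi).1 hiX]
          exact hcon i hi'
      exact (mem_uf.1 (app_mem hgf (tz_mem.2 hi))).2.2 (h1.mono fun α _ h2 => ⟨h2.1.1, h2.2⟩)
  · intro f hf hff hreg
    have h1 := (h.mem_iff hl (mem_uf.1 hreg).1 (mem_uf.1 hreg).2.1).1 hreg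
    have h2 : ∀ α : Ordinal.{u}, α < l → α.toZFSet ∈ ZFSet.sep (fun x => ∃ y ∈ x, pair x y ∈ f)
        l.toZFSet → ∃ β < α, app f α.toZFSet = β.toZFSet := by
      intro α hα h2
      obtain ⟨_, y, hy, hxy⟩ := mem_sep.1 h2
      obtain ⟨β, hβ, rfl⟩ := Ordinal.mem_toZFSet_iff.1 hy
      exact ⟨β, hβ, (app_iff hff (tz_mem.2 hα)).1 hxy⟩
    obtain ⟨ξ, hξ, h3⟩ := fodor hl h1 (f := fun α => rank (app f α.toZFSet)) fun α hα hαl => by
      obtain ⟨β, hβ, h3⟩ := h2 α hαl hα.2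
      rw [h3, Ordinal.rank_toZFSet]
      exact hβ
    refine ⟨ξ, hξ, ?_⟩
    rw [h.mem_iff hl (fun z hz => (mem_sep.1 hz).1)]
    · refine h3.mono fun α hα h4 => ⟨h4.1.1, mem_sep.2 ⟨tz_mem.2 hα, ?_⟩⟩
      obtain ⟨β, hβ, h5⟩ := h2 α hα h4.1.2
      have h6 : rank (app f α.toZFSet) = ξ := h4.2
      rw [h5, Ordinal.rank_toZFSet] at h6
      rw [app_iff hff (tz_mem.2 hα), h5, h6]
    · refine HOD_sepG (A := fun z x => pair z (x 0) ∈ x 1) (dfn_pm Gd_Trs _ _ _)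
        (HOD_ord l) [ξ.toZFSet, f] ?_
      intro p hp
      simp only [List.mem_cons, List.not_mem_nil, or_false] at hp
      rcases hp with rfl | rfl
      · exact OD_ord ξ
      · exact hf.od

end Atom

end Pool.Agent.H93.HM
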