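import Pool.Agent.H93.HM.Sep

/-!
Definability over a set `U` from one parameter; it is a definable relation.
-/

set_option autoImplicit false
set_option linter.unusedVariables false

namespace Pool.Agent.H93.HM

open ZFSet Gss969 Pool.Agent.H310.HD

universe u

/-- `x` is definable over `(U, ∈)` from the parameter `d ∈ U`. -/
def DfP (U d x : ZFSet.{u}) : Prop :=
  d ∈ U ∧ x ∈ U ∧ ∃ φ : Fml, ∀ y ∈ U, (Sat U (Function.update (fun _ => d) 0 y) φ ↔ y = x)

def DPI (W U d x : ZFSet.{u}) : Prop :=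
  d ∈ U ∧ (x ∈ U ∧ ∃ z ∈ W, (∀ y ∈ z, ¬ y = y) ∧ ∃ X, (∀ t ∈ X, IsFunc W U t) ∧ DefS W U X ∧
    ∀ y ∈ U, ∀ s', IsFunc W U s' → pair z y ∈ s' →
      (∀ l ∈ W, ¬ l = z → pair l d ∈ s') → (s' ∈ X ↔ y = x))

theorem app_upd {U d y s : ZFSet.{u}} (hs : IsFunc om U s) (h0 : pair (nt 0) y ∈ s)
    (h : ∀ l ∈ om.{u}, ¬ l = nt 0 → pair l d ∈ s) :
    (fun m => app s (nt m)) = Function.update (fun _ => d) 0 y := by
  funext m
  by_cases hm : m = 0
  · subst hm
    simp only [Function.update_self]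
    exact (app_iff hs (nt_mem 0)).1 h0
  · rw [Function.update_of_ne hm]
    exact (app_iff hs (nt_mem m)).1 (h _ (nt_mem m) fun e => hm (nt_inj.1 e))

theorem dfP_iff {U d x : ZFSet.{u}} : DfP U d x ↔ DPI om U d x := by
  unfold DfP DPI
  refine and_congr_right fun hd => and_congr_right fun hx => ?_
  constructor
  · rintro ⟨φ, h⟩
    refine ⟨nt 0, nt_mem 0, (zero_iff (nt_mem 0)).2 rfl, xs U φ, fun t => xs_func,
      defS_iff.2 ⟨φ, rfl⟩, ?_⟩
    intro y hy s' hs' h0 hag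
    rw [mem_xs hs', app_upd hs' h0 hag, h y hy]
  · rintro ⟨z, hz, hz0, X, _, hX, h⟩
    rw [zero_iff hz] at hz0
    subst hz0
    obtain ⟨φ, rfl⟩ := defS_iff.1 hX
    refine ⟨φ, fun y hy => ?_⟩
    have hu : ∀ i, Function.update (fun _ => d) 0 y i ∈ U := by
      intro i
      by_cases hi : i = 0
      · subst hi; simpa using hy
      · rw [Function.update_of_ne hi]; exact hd
    have hf := fn_func hu
    have h0 : pair (nt 0) y ∈ fn (Function.update (fun _ => d) 0 y) := pair_fn.2 (by simp)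
    have h1 : ∀ l ∈ om.{u}, ¬ l = nt 0 →
        pair l d ∈ fn (Function.update (fun _ => d) 0 y) := by
      intro l hl hne
      obtain ⟨m, rfl⟩ := mem_om.1 hl
      refine pair_fn.2 ?_
      rw [Function.update_of_ne]
      rintro rfl
      exact hne rfl
    rw [← h y hy _ hf h0 h1, mem_xs hf, app_upd hf h0 h1]

theorem dfn_DPI (a b c d : ℕ) :
    Dfn Lvl.{u} (fun v => DPI (v a) (v b) (v c) (v d)) := by
  unfold DPI
  refine Dfn.and (Dfn.mem _ _) (Dfn.and (Dfn.mem _ _) ?_)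
  refine Dfn.bex Lvl_sub_Trs _ ?_
  refine Dfn.and ?_ ?_
  · repeat' first
      | exact Dfn.eq _ _ | refine Dfn.ball Lvl_sub_Trs _ ?_ | refine Dfn.not ?_
  refine Dfn.ex ?_ ?_
  · refine Dfn.and ?_ ?_
    · repeat' first
        | exact dfn_isFunc Lvl_sub_Trs _ _ _ | refine Dfn.ball Lvl_sub_Trs _ ?_
    refine Dfn.and (dfn_DefS _ _ _) ?_
    repeat' first
      | exact Dfn.mem _ _ | exact Dfn.eq _ _ | exact dfn_pm Lvl_sub_Trs _ _ _
      | refine Dfn.allfun _ _ ?_ | refine Dfn.ball Lvl_sub_Trs _ ?_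
      | refine Dfn.iff ?_ ?_ | refine Dfn.not ?_ | refine Dfn.imp ?_ ?_
  · rintro U hU v hv ⟨X, h1, h2⟩
    refine ⟨X, ?_, h1, h2⟩
    refine Lvl_sub hU (Lvl_funs hU (hv (a + 1)) (hv (b + 1))) ?_
    intro s hs
    exact mem_funs.2 (h1 s hs)

theorem dfn_DfP (a b c : ℕ) : Dfn Lvl.{u} (fun v => DfP (v a) (v b) (v c)) := by
  refine Dfn.congr (A := fun v => DPI om (v a) (v b) (v c)) ?_ fun v => dfP_iff.symm
  exact Dfn_om (A := fun W v => DPI W (v a) (v b) (v c)) (dfn_DPI 0 (a + 1) (b + 1) (c + 1))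

/-- There are only countably many definable sets. -/
theorem exists_enumP (U d : ZFSet.{u}) : ∃ E : ℕ → ZFSet.{u}, ∀ x, DfP U d x → ∃ n, E n = x := by
  classical
  obtain ⟨en, hen⟩ := exists_enum
  refine ⟨fun n => if h : ∃ x ∈ U, ∀ y ∈ U,
    (Sat U (Function.update (fun _ => d) 0 y) (en n) ↔ y = x) then h.choose else ∅, ?_⟩
  rintro x ⟨_, hx, φ, h⟩
  obtain ⟨n, rfl⟩ := hen φ
  refine ⟨n, ?_⟩
  have h1 : ∃ x ∈ U, ∀ y ∈ U,
    (Sat U (Function.update (fun _ => d) 0 y) (en n) ↔ y = x) := ⟨x, hx, h⟩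
  simp only
  rw [dif_pos h1]
  exact (h _ h1.choose_spec.1).1 ((h1.choose_spec.2 _ h1.choose_spec.1).2 rfl)

/-- Definitions from the parameter `d` over a level in `Gd`. -/
theorem DfP_of {A : ZFSet.{u} → ZFSet.{u} → Prop} (hA : Dfn Gd.{u} (fun v => A (v 0) (v 1)))
    {U d x : ZFSet.{u}} (hU : U ∈ Gd) (hd : d ∈ U) (hx : x ∈ U)
    (h : ∀ y ∈ U, (A y d ↔ y = x)) : DfP U d x := by
  obtain ⟨φ, hφ⟩ := hA (fun n => if n = 0 then 0 else 2 * n) (by
    refine Set.infinite_of_injective_forall_mem (f := fun n : ℕ => 2 * n + 1) ?_ ?_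
    · intro a b hab; simpa using hab
    · rintro n ⟨m, hm⟩
      simp only at hm
      split_ifs at hm <;> omega)
  refine ⟨hd, hx, φ, fun y hy => ?_⟩
  rw [hφ U hU _ (by
    intro i
    by_cases hi : i = 0
    · subst hi; simpa using hy
    · rw [Function.update_of_ne hi]; exact hd)]
  have e0 : Function.update (fun _ => d) 0 y (if (0 : ℕ) = 0 then 0 else 2 * 0) = y := by simp
  have e1 : Function.update (fun _ => d) 0 y (if (1 : ℕ) = 0 then 0 else 2 * 1) = d := by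
    simp
  show A (Function.update (fun _ => d) 0 y (if (0 : ℕ) = 0 then 0 else 2 * 0))
    (Function.update (fun _ => d) 0 y (if (1 : ℕ) = 0 then 0 else 2 * 1)) ↔ _
  rw [e0, e1]
  exact h y hy

end Pool.Agent.H93.HM
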