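import Pool.Agent.H93.HM.Ref

/-!
Definability by formulas of bounded rank, and a canonical choice of a definable set with a given
property.
-/

set_option autoImplicit false
set_option linter.unusedVariables false

namespace Pool.Agent.H93.HM

open ZFSet Gss969 Pool.Agent.H310.HD

universe u

/-- The rank of a formula. -/
def rk : Fml → ℕ
  | .mem i l => max i l + 1
  | .eq i l => max i l + 1
  | .neg φ => rk φ + 1
  | .and φ ψ => max (rk φ) (rk ψ) + 1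
  | .ex i φ => max i (rk φ) + 1

theorem fin_rk (n : ℕ) : {φ : Fml | rk φ ≤ n}.Finite := by
  induction n with
  | zero =>
    convert Set.finite_empty using 1
    ext φ
    simp only [Set.mem_ofPred_eq, Set.mem_empty_iff_false, iff_false]
    cases φ <;> simp [rk]
  | succ n ih =>
    have h1 : (Set.Iic n).Finite := Set.finite_Iic n
    refine ((((h1.prod h1).image fun p : ℕ × ℕ => Fml.mem p.1 p.2).union
      ((h1.prod h1).image fun p : ℕ × ℕ => Fml.eq p.1 p.2)).union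
      (((ih.image Fml.neg).union ((ih.prod ih).image fun p : Fml × Fml => Fml.and p.1 p.2)).union
      ((h1.prod ih).image fun p : ℕ × Fml => Fml.ex p.1 p.2))).subset ?_
    intro φ hφ
    cases φ with
    | mem i l =>
      left; left
      simp only [Set.mem_ofPred_eq, rk] at hφ
      exact ⟨(i, l), ⟨by simp only [Set.mem_Iic]; omega, by simp only [Set.mem_Iic]; omega⟩, rfl⟩
    | eq i l =>
      left; right
      simp only [Set.mem_ofPred_eq, rk] at hφ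
      exact ⟨(i, l), ⟨by simp only [Set.mem_Iic]; omega, by simp only [Set.mem_Iic]; omega⟩, rfl⟩
    | neg φ =>
      right; left; left
      simp only [Set.mem_ofPred_eq, rk] at hφ
      exact ⟨φ, by simp only [Set.mem_ofPred_eq]; omega, rfl⟩
    | and φ ψ =>
      right; left; right
      simp only [Set.mem_ofPred_eq, rk] at hφ
      exact ⟨(φ, ψ), ⟨by simp only [Set.mem_ofPred_eq]; omega,
        by simp only [Set.mem_ofPred_eq]; omega⟩, rfl⟩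
    | ex i φ =>
      right; right
      simp only [Set.mem_ofPred_eq, rk] at hφ
      exact ⟨(i, φ), ⟨by simp only [Set.mem_Iic]; omega,
        by simp only [Set.mem_ofPred_eq]; omega⟩, rfl⟩

theorem pair_mem_trs {𝒰 : Set ZFSet.{u}} (ht : 𝒰 ⊆ Trs) {U a b : ZFSet.{u}} (hU : U ∈ 𝒰)
    (hp : pair a b ∈ U) : a ∈ U ∧ b ∈ U := by
  have h1 : ({a, b} : ZFSet.{u}) ∈ U := (ht hU).mem_trans (by simp [pair]) hp
  exact ⟨(ht hU).mem_trans (by simp) h1, (ht hU).mem_trans (by simp) h1⟩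

theorem Dfn_exp {𝒰 : Set ZFSet.{u}} (ht : 𝒰 ⊆ Trs) (i l : ℕ)
    {A : ZFSet.{u} → (ℕ → ZFSet.{u}) → Prop}
    (h : Dfn 𝒰 (fun w => A (w 0) (fun n => w (n + 1)))) :
    Dfn 𝒰 (fun v => ∃ X, pair (v i) X ∈ v l ∧ A X v) :=
  Dfn.ex (A := fun X v => pair (v i) X ∈ v l ∧ A X v) ((dfn_pm ht _ _ _).and h)
    fun U hU v hv ⟨X, h1, h2⟩ => ⟨X, (pair_mem_trs ht hU ((ht hU).mem_trans h1 (hv l))).2, h1, h2⟩

theorem Dfn_allp {𝒰 : Set ZFSet.{u}} (ht : 𝒰 ⊆ Trs) (i l : ℕ)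
    {A : ZFSet.{u} → (ℕ → ZFSet.{u}) → Prop}
    (h : Dfn 𝒰 (fun w => A (w 0) (fun n => w (n + 1)))) :
    Dfn 𝒰 (fun v => ∀ X, pair (v i) X ∈ v l → A X v) :=
  ((Dfn_exp ht i l (A := fun a v => ¬ A a v) h.not).not).congr fun v => by
    push Not; exact Iff.rfl

theorem Dfn_omG {A : ZFSet.{u} → (ℕ → ZFSet.{u}) → Prop}
    (h : Dfn Gd (fun w => A (w 0) (fun n => w (n + 1)))) : Dfn Gd (fun v => A om v) := by
  refine Dfn.congr (A := fun v => ∃ w, IsOm w ∧ A w v)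
    (Dfn.ex (A := fun w v => IsOm w ∧ A w v) (((dfn_isOm 0).mono Gd_Lvl).and h) ?_) ?_
  · rintro U hU v hv ⟨a, ha, h1⟩
    exact ⟨a, by rw [isOm_iff.1 ha]; exact om_mem_Lvl hU.1, ha, h1⟩
  · intro v
    constructor
    · rintro ⟨w, hw, h1⟩
      rwa [isOm_iff.1 hw] at h1
    · intro h1
      exact ⟨om, isOm_iff.2 rfl, h1⟩

/-- `F` is a filtered family of sets of assignments `W → U`, closed under the logical operations. -/
def ClosedN (W U F : ZFSet.{u}) : Prop :=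
  (∀ n ∈ W, ∀ i ∈ n, ∀ l ∈ n, ∃ X, pair n X ∈ F ∧ ∀ s, IsFunc W U s →
    (s ∈ X ↔ ∃ a ∈ U, ∃ b ∈ U, pair i a ∈ s ∧ pair l b ∈ s ∧ a ∈ b)) ∧
  (∀ n ∈ W, ∀ i ∈ n, ∀ l ∈ n, ∃ X, pair n X ∈ F ∧ ∀ s, IsFunc W U s →
    (s ∈ X ↔ ∃ a ∈ U, pair i a ∈ s ∧ pair l a ∈ s)) ∧
  (∀ n ∈ W, ∀ m ∈ n, ∀ X, pair m X ∈ F → ∃ Y, pair n Y ∈ F ∧ ∀ s, IsFunc W U s →
    (s ∈ Y ↔ ¬ s ∈ X)) ∧
  (∀ n ∈ W, ∀ m ∈ n, ∀ m' ∈ n, ∀ X, pair m X ∈ F → ∀ Y, pair m' Y ∈ F → ∃ Z, pair n Z ∈ F ∧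
    ∀ s, IsFunc W U s → (s ∈ Z ↔ s ∈ X ∧ s ∈ Y)) ∧
  (∀ n ∈ W, ∀ i ∈ n, ∀ m ∈ n, ∀ X, pair m X ∈ F → ∃ Y, pair n Y ∈ F ∧ ∀ s, IsFunc W U s →
    (s ∈ Y ↔ ∃ s', IsFunc W U s' ∧
    (s' ∈ X ∧ ∀ l ∈ W, ¬ l = i → ∀ a ∈ U, pair l a ∈ s → pair l a ∈ s')))

theorem dfn_ClosedN (a b c : ℕ) : Dfn Lvl.{u} (fun v => ClosedN (v a) (v b) (v c)) := by
  unfold ClosedN
  repeat' first
    | exact Dfn.mem _ _ | exact Dfn.eq _ _ | exact dfn_pm Lvl_sub_Trs _ _ _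
    | refine Dfn.and ?_ ?_ | refine Dfn.iff ?_ ?_ | refine Dfn.not ?_
    | refine Dfn.allfun _ _ ?_ | refine Dfn.exfun _ _ ?_
    | refine Dfn_allp Lvl_sub_Trs _ _ ?_ | refine Dfn_exp Lvl_sub_Trs _ _ ?_
    | refine Dfn.ball Lvl_sub_Trs _ ?_ | refine Dfn.bex Lvl_sub_Trs _ ?_
    | refine Dfn.imp ?_ ?_

/-- The elements of `F` are pairs of an element of `W` and a set of functions `W → U`. -/
def WfN (W U F : ZFSet.{u}) : Prop :=
  ∀ p ∈ F, ∃ m Y, p = pair m Y ∧ (m ∈ W ∧ ∀ s ∈ Y, IsFunc W U s)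

theorem dfn_WfN (a b c : ℕ) : Dfn Lvl.{u} (fun v => WfN (v a) (v b) (v c)) := by
  unfold WfN
  refine Dfn.ball Lvl_sub_Trs _ (Dfn_unpair Lvl_sub_Trs 0
    (A := fun m Y v => m ∈ v (a + 1) ∧ ∀ s ∈ Y, IsFunc (v (a + 1)) (v (b + 1)) s) ?_)
  exact (Dfn.mem _ _).and (Dfn.ball Lvl_sub_Trs _ (dfn_isFunc Lvl_sub_Trs _ _ _))

/-- `X` is the set of assignments satisfying some formula of rank at most `n`. -/
def DefN (W U n X : ZFSet.{u}) : Prop :=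
  ∀ F, (WfN W U F ∧ ClosedN W U F) → pair n X ∈ F

theorem dfn_DefN (a b c d : ℕ) : Dfn Lvl.{u} (fun v => DefN (v a) (v b) (v c) (v d)) := by
  refine Dfn.all (A := fun F v => (WfN (v a) (v b) F ∧ ClosedN (v a) (v b) F) →
    pair (v c) (v d) ∈ F) ?_ ?_
  · exact ((dfn_WfN _ _ _).and (dfn_ClosedN _ _ _)).imp (dfn_pm Lvl_sub_Trs _ _ _)
  · rintro U hU v hv ⟨F, hF⟩
    refine ⟨F, ?_, hF⟩
    push Not at hF
    refine Lvl_sub hU (Lvl_prod hU (hv a) (Lvl_powerset hU (Lvl_funs hU (hv a) (hv b)))) ?_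
    intro p hp
    obtain ⟨m, Y, rfl, hm, hY⟩ := hF.1.1 p hp
    refine pair_mem_prod.2 ⟨hm, mem_powerset.2 fun s hs => ?_⟩
    exact mem_funs.2 (hY s hs)

/-- The filtration given by the rank. -/
noncomputable def xsN (U : ZFSet.{u}) : ZFSet.{u} :=
  ZFSet.sep (fun p => ∃ n φ, rk φ ≤ n ∧ p = pair (nt n) (xs U φ))
    (prod om (powerset (funs om U)))

theorem mem_xsN {U X : ZFSet.{u}} {n : ℕ} :
    pair (nt n) X ∈ xsN U ↔ ∃ φ, rk φ ≤ n ∧ X = xs U φ := by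
  unfold xsN
  rw [mem_sep]
  constructor
  · rintro ⟨_, m, φ, h1, h2⟩
    rw [pair_inj] at h2
    rw [nt_inj.1 h2.1]
    exact ⟨φ, h1, h2.2⟩
  · rintro ⟨φ, h1, rfl⟩
    refine ⟨pair_mem_prod.2 ⟨nt_mem n, ?_⟩, n, φ, h1, rfl⟩
    rw [mem_powerset]
    exact sep_subset

theorem wf_xsN (U : ZFSet.{u}) : WfN om U (xsN U) := by
  intro p hp
  have hp' := hp
  unfold xsN at hp'
  rw [mem_sep] at hp'
  obtain ⟨_, n, φ, _, rfl⟩ := hp'
  exact ⟨_, _, rfl, nt_mem n, fun s hs => xs_func hs⟩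

theorem closed_xsN (U : ZFSet.{u}) : ClosedN om U (xsN U) := by
  refine ⟨?_, ?_, ?_, ?_, ?_⟩
  · intro n hn i hi l hl
    obtain ⟨n, rfl⟩ := mem_om.1 hn
    obtain ⟨i, hi', rfl⟩ := mem_nt.1 hi
    obtain ⟨l, hl', rfl⟩ := mem_nt.1 hl
    refine ⟨xs U (.mem i l), mem_xsN.2 ⟨_, by simp only [rk]; omega, rfl⟩, fun s hs => ?_⟩
    rw [mem_xs hs]
    simp only [Sat]
    constructor
    · intro h
      exact ⟨_, app_mem hs (nt_mem i), _, app_mem hs (nt_mem l), app_spec hs (nt_mem i),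
        app_spec hs (nt_mem l), h⟩
    · rintro ⟨a, _, b, _, h3, h4, h5⟩
      rw [(app_iff hs (nt_mem i)).1 h3, (app_iff hs (nt_mem l)).1 h4]; exact h5
  · intro n hn i hi l hl
    obtain ⟨n, rfl⟩ := mem_om.1 hn
    obtain ⟨i, hi', rfl⟩ := mem_nt.1 hi
    obtain ⟨l, hl', rfl⟩ := mem_nt.1 hl
    refine ⟨xs U (.eq i l), mem_xsN.2 ⟨_, by simp only [rk]; omega, rfl⟩, fun s hs => ?_⟩
    rw [mem_xs hs]
    simp only [Sat]
    constructor
    · intro h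
      exact ⟨_, app_mem hs (nt_mem i), app_spec hs (nt_mem i), h ▸ app_spec hs (nt_mem l)⟩
    · rintro ⟨a, _, h3, h4⟩
      rw [(app_iff hs (nt_mem i)).1 h3, (app_iff hs (nt_mem l)).1 h4]
  · intro n hn m hm X hX
    obtain ⟨n, rfl⟩ := mem_om.1 hn
    obtain ⟨m, hm', rfl⟩ := mem_nt.1 hm
    obtain ⟨φ, hφ, rfl⟩ := mem_xsN.1 hX
    refine ⟨xs U (.neg φ), mem_xsN.2 ⟨_, by simp only [rk]; omega, rfl⟩, fun s hs => ?_⟩
    rw [mem_xs hs, mem_xs hs]; exact Iff.rfl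
  · intro n hn m hm m' hm' X hX Y hY
    obtain ⟨n, rfl⟩ := mem_om.1 hn
    obtain ⟨m, hm1, rfl⟩ := mem_nt.1 hm
    obtain ⟨m', hm1', rfl⟩ := mem_nt.1 hm'
    obtain ⟨φ, hφ, rfl⟩ := mem_xsN.1 hX
    obtain ⟨ψ, hψ, rfl⟩ := mem_xsN.1 hY
    refine ⟨xs U (.and φ ψ), mem_xsN.2 ⟨_, by simp only [rk]; omega, rfl⟩, fun s hs => ?_⟩
    rw [mem_xs hs, mem_xs hs, mem_xs hs]; exact Iff.rfl
  · intro n hn i hi m hm X hX
    obtain ⟨n, rfl⟩ := mem_om.1 hn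
    obtain ⟨i, hi', rfl⟩ := mem_nt.1 hi
    obtain ⟨m, hm', rfl⟩ := mem_nt.1 hm
    obtain ⟨φ, hφ, rfl⟩ := mem_xsN.1 hX
    refine ⟨xs U (.ex i φ), mem_xsN.2 ⟨_, by simp only [rk]; omega, rfl⟩, fun s hs => ?_⟩
    rw [mem_xs hs]
    simp only [Sat]
    constructor
    · rintro ⟨a, ha, h1⟩
      obtain ⟨s', hs', h2, h3⟩ := exists_upd hs i ha
      refine ⟨s', hs', ?_, h3⟩
      rw [mem_xs hs', upd_of hs hs' i h3, h2]
      exact h1
    · rintro ⟨s', hs', h1, h3⟩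
      rw [mem_xs hs', upd_of hs hs' i h3] at h1
      exact ⟨_, app_mem hs' (nt_mem i), h1⟩

theorem xs_mem_closedN {U F : ZFSet.{u}} (hF : WfN om U F)
    (h : ClosedN om U F) (φ : Fml) : ∀ n, rk φ ≤ n → pair (nt n) (xs U φ) ∈ F := by
  obtain ⟨c1, c2, c3, c4, c5⟩ := h
  have hFs : ∀ {m X : ZFSet.{u}}, pair m X ∈ F → ∀ s ∈ X, IsFunc om U s := by
    intro m X hX
    obtain ⟨m', X', h1, _, h2⟩ := hF _ hX
    rw [pair_inj] at h1
    rw [h1.2]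
    exact h2
  induction φ with
  | mem i l =>
    intro n hn
    simp only [rk] at hn
    obtain ⟨X, hX, h1⟩ := c1 _ (nt_mem n) (nt i) (nt_sub.2 (by omega)) (nt l) (nt_sub.2 (by omega))
    have : xs U (.mem i l) = X := by
      refine set_eq (fun s => xs_func) (hFs hX) fun s hs => ?_
      rw [h1 s hs, mem_xs hs]
      simp only [Sat]
      constructor
      · intro h
        exact ⟨_, app_mem hs (nt_mem i), _, app_mem hs (nt_mem l), app_spec hs (nt_mem i),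
          app_spec hs (nt_mem l), h⟩
      · rintro ⟨a, _, b, _, h3, h4, h5⟩
        rw [(app_iff hs (nt_mem i)).1 h3, (app_iff hs (nt_mem l)).1 h4]; exact h5
    rw [this]; exact hX
  | eq i l =>
    intro n hn
    simp only [rk] at hn
    obtain ⟨X, hX, h1⟩ := c2 _ (nt_mem n) (nt i) (nt_sub.2 (by omega)) (nt l) (nt_sub.2 (by omega))
    have : xs U (.eq i l) = X := by
      refine set_eq (fun s => xs_func) (hFs hX) fun s hs => ?_
      rw [h1 s hs, mem_xs hs]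
      simp only [Sat]
      constructor
      · intro h
        exact ⟨_, app_mem hs (nt_mem i), app_spec hs (nt_mem i), h ▸ app_spec hs (nt_mem l)⟩
      · rintro ⟨a, _, h3, h4⟩
        rw [(app_iff hs (nt_mem i)).1 h3, (app_iff hs (nt_mem l)).1 h4]
    rw [this]; exact hX
  | neg φ ih =>
    intro n hn
    simp only [rk] at hn
    obtain ⟨X, hX, h1⟩ := c3 _ (nt_mem n) (nt (rk φ)) (nt_sub.2 (by omega)) _ (ih _ le_rfl)
    have : xs U (.neg φ) = X := by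
      refine set_eq (fun s => xs_func) (hFs hX) fun s hs => ?_
      rw [h1 s hs, mem_xs hs, mem_xs hs]; exact Iff.rfl
    rw [this]; exact hX
  | and φ ψ ih ih' =>
    intro n hn
    simp only [rk] at hn
    obtain ⟨X, hX, h1⟩ := c4 _ (nt_mem n) (nt (rk φ)) (nt_sub.2 (by omega)) (nt (rk ψ))
      (nt_sub.2 (by omega)) _ (ih _ le_rfl) _ (ih' _ le_rfl)
    have : xs U (.and φ ψ) = X := by
      refine set_eq (fun s => xs_func) (hFs hX) fun s hs => ?_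
      rw [h1 s hs, mem_xs hs, mem_xs hs, mem_xs hs]; exact Iff.rfl
    rw [this]; exact hX
  | ex i φ ih =>
    intro n hn
    simp only [rk] at hn
    obtain ⟨X, hX, h1⟩ := c5 _ (nt_mem n) (nt i) (nt_sub.2 (by omega)) (nt (rk φ))
      (nt_sub.2 (by omega)) _ (ih _ le_rfl)
    have : xs U (.ex i φ) = X := by
      refine set_eq (fun s => xs_func) (hFs hX) fun s hs => ?_
      rw [h1 s hs, mem_xs hs]
      simp only [Sat]
      constructor
      · rintro ⟨a, ha, h1⟩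
        obtain ⟨s', hs', h2, h3⟩ := exists_upd hs i ha
        refine ⟨s', hs', ?_, h3⟩
        rw [mem_xs hs', upd_of hs hs' i h3, h2]
        exact h1
      · rintro ⟨s', hs', h1, h3⟩
        rw [mem_xs hs', upd_of hs hs' i h3] at h1
        exact ⟨_, app_mem hs' (nt_mem i), h1⟩
    rw [this]; exact hX

theorem defN_iff {U X : ZFSet.{u}} {n : ℕ} :
    DefN om U (nt n) X ↔ ∃ φ, rk φ ≤ n ∧ X = xs U φ := by
  constructor
  · intro h
    exact mem_xsN.1 (h (xsN U) ⟨wf_xsN U, closed_xsN U⟩)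
  · rintro ⟨φ, h1, rfl⟩ F ⟨hF, hC⟩
    exact xs_mem_closedN hF hC φ n h1

/-- `x` is definable over `(U, ∈)` from the parameter `d ∈ U` by a formula of rank at most `n`. -/
def DfN (U d : ZFSet.{u}) (n : ℕ) (x : ZFSet.{u}) : Prop :=
  d ∈ U ∧ x ∈ U ∧ ∃ φ : Fml, rk φ ≤ n ∧
    ∀ y ∈ U, (Sat U (Function.update (fun _ => d) 0 y) φ ↔ y = x)

def DPN (W U d n x : ZFSet.{u}) : Prop :=
  d ∈ U ∧ (x ∈ U ∧ ∃ z ∈ W, (∀ y ∈ z, ¬ y = y) ∧ ∃ X, (∀ t ∈ X, IsFunc W U t) ∧ DefN W U n X ∧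
    ∀ y ∈ U, ∀ s', IsFunc W U s' → pair z y ∈ s' →
      (∀ l ∈ W, ¬ l = z → pair l d ∈ s') → (s' ∈ X ↔ y = x))

theorem dfN_iff {U d x : ZFSet.{u}} {n : ℕ} : DfN U d n x ↔ DPN om U d (nt n) x := by
  unfold DfN DPN
  refine and_congr_right fun hd => and_congr_right fun hx => ?_
  constructor
  · rintro ⟨φ, hn, h⟩
    refine ⟨nt 0, nt_mem 0, (zero_iff (nt_mem 0)).2 rfl, xs U φ, fun t => xs_func,
      defN_iff.2 ⟨φ, hn, rfl⟩, ?_⟩
    intro y hy s' hs' h0 hag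
    rw [mem_xs hs', app_upd hs' h0 hag, h y hy]
  · rintro ⟨z, hz, hz0, X, _, hX, h⟩
    rw [zero_iff hz] at hz0
    subst hz0
    obtain ⟨φ, hn, rfl⟩ := defN_iff.1 hX
    refine ⟨φ, hn, fun y hy => ?_⟩
    have hu : ∀ i, Function.update (fun _ => d) 0 y i ∈ U := by
      intro i
      by_cases hi : i = 0
      · subst hi; simpa using hy
      · rw [Function.update_of_ne hi]; exact hd
    have hf := fn_func hu
    have h0 : pair (nt 0) y ∈ fn (Function.update (fun _ => d) 0 y) := pair_fn.2 (by simp)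
    have h1 : ∀ l ∈ om.{u}, ¬ l = nt 0 →
        pair l d ∈ fn (Function.update (fun _ => d) 0 y) := by
      intro l hl hne
      obtain ⟨m, rfl⟩ := mem_om.1 hl
      refine pair_fn.2 ?_
      rw [Function.update_of_ne]
      rintro rfl
      exact hne rfl
    rw [← h y hy _ hf h0 h1, mem_xs hf, app_upd hf h0 h1]

theorem dfn_DPN (a b c d e : ℕ) :
    Dfn Lvl.{u} (fun v => DPN (v a) (v b) (v c) (v d) (v e)) := by
  unfold DPN
  refine Dfn.and (Dfn.mem _ _) (Dfn.and (Dfn.mem _ _) ?_)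
  refine Dfn.bex Lvl_sub_Trs _ ?_
  refine Dfn.and ?_ ?_
  · repeat' first
      | exact Dfn.eq _ _ | refine Dfn.ball Lvl_sub_Trs _ ?_ | refine Dfn.not ?_
  refine Dfn.ex ?_ ?_
  · refine Dfn.and ?_ ?_
    · repeat' first
        | exact dfn_isFunc Lvl_sub_Trs _ _ _ | refine Dfn.ball Lvl_sub_Trs _ ?_
    refine Dfn.and (dfn_DefN _ _ _ _) ?_
    repeat' first
      | exact Dfn.mem _ _ | exact Dfn.eq _ _ | exact dfn_pm Lvl_sub_Trs _ _ _
      | refine Dfn.allfun _ _ ?_ | refine Dfn.ball Lvl_sub_Trs _ ?_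
      | refine Dfn.iff ?_ ?_ | refine Dfn.not ?_ | refine Dfn.imp ?_ ?_
  · rintro U hU v hv ⟨X, h1, h2⟩
    refine ⟨X, ?_, h1, h2⟩
    refine Lvl_sub hU (Lvl_funs hU (hv (a + 1)) (hv (b + 1))) ?_
    intro s hs
    exact mem_funs.2 (h1 s hs)

theorem DfP.exists_rk {U d x : ZFSet.{u}} (h : DfP U d x) : ∃ n, DfN U d n x := by
  obtain ⟨h1, h2, φ, h3⟩ := h
  exact ⟨rk φ, h1, h2, φ, le_rfl, h3⟩

/-- There are finitely many definable sets of each rank. -/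
theorem fin_DfN (U d : ZFSet.{u}) (n : ℕ) : {x | DfN U d n x}.Finite := by
  classical
  refine ((fin_rk n).image fun φ => if h : ∃ x ∈ U, ∀ y ∈ U,
    (Sat U (Function.update (fun _ => d) 0 y) φ ↔ y = x) then h.choose else ∅).subset ?_
  rintro x ⟨_, hx, φ, hn, h⟩
  have h1 : ∃ x ∈ U, ∀ y ∈ U,
    (Sat U (Function.update (fun _ => d) 0 y) φ ↔ y = x) := ⟨x, hx, h⟩
  refine ⟨φ, hn, ?_⟩
  simp only
  rw [dif_pos h1]
  exact (h _ h1.choose_spec.1).1 ((h1.choose_spec.2 _ h1.choose_spec.1).2 rfl)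

/-- The first difference of `Y` and `Z` belongs to `Z`. -/
def Lx (Y Z : ZFSet.{u}) : Prop := ∃ a ∈ Z, ¬ a ∈ Y ∧ ∀ b ∈ a, (b ∈ Y ↔ b ∈ Z)

theorem dfn_Lx (a b : ℕ) : Dfn Lvl.{u} (fun v => Lx (v a) (v b)) := by
  unfold Lx
  repeat' first
    | exact Dfn.mem _ _ | refine Dfn.and ?_ ?_ | refine Dfn.iff ?_ ?_ | refine Dfn.not ?_
    | refine Dfn.ball Lvl_sub_Trs _ ?_ | refine Dfn.bex Lvl_sub_Trs _ ?_

variable {l : Ordinal.{u}}

theorem Lx.irrefl {Y : ZFSet.{u}} : ¬ Lx Y Y := fun ⟨a, h1, h2, _⟩ => h2 h1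

theorem Lx.trans {X Y Z : ZFSet.{u}} (hY : Y ⊆ l.toZFSet) (hZ : Z ⊆ l.toZFSet)
    (h : Lx X Y) (h' : Lx Y Z) : Lx X Z := by
  obtain ⟨a, ha, h1, h2⟩ := h
  obtain ⟨b, hb, h3, h4⟩ := h'
  obtain ⟨α, hα, rfl⟩ := Ordinal.mem_toZFSet_iff.1 (hY ha)
  obtain ⟨β, hβ, rfl⟩ := Ordinal.mem_toZFSet_iff.1 (hZ hb)
  rcases lt_trichotomy α β with h | h | h
  · refine ⟨_, (h4 _ (tz_mem.2 h)).1 ha, h1, fun c hc => ?_⟩
    rw [h2 c hc]
    exact h4 c ((isOrdinal_toZFSet β).1.mem_trans hc (tz_mem.2 h))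
  · subst h
    exact absurd ha h3
  · refine ⟨_, hb, fun h5 => h3 ((h2 _ (tz_mem.2 h)).1 h5), fun c hc => ?_⟩
    rw [h2 c ((isOrdinal_toZFSet α).1.mem_trans hc (tz_mem.2 h))]
    exact h4 c hc

theorem Lx.total {Y Z : ZFSet.{u}} (hY : Y ⊆ l.toZFSet) (hZ : Z ⊆ l.toZFSet) (hne : Y ≠ Z) :
    Lx Y Z ∨ Lx Z Y := by
  have h1 : ∃ α : Ordinal.{u}, ¬ (α.toZFSet ∈ Y ↔ α.toZFSet ∈ Z) := by
    by_contra hcon
    push Not at hcon
    refine hne ?_
    ext z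
    constructor
    · intro hz
      obtain ⟨α, _, rfl⟩ := Ordinal.mem_toZFSet_iff.1 (hY hz)
      exact (hcon α).1 hz
    · intro hz
      obtain ⟨α, _, rfl⟩ := Ordinal.mem_toZFSet_iff.1 (hZ hz)
      exact (hcon α).2 hz
  obtain ⟨α, hα, hmin⟩ := WellFounded.has_min (wellFounded_lt (α := Ordinal.{u}))
    {α | ¬ (α.toZFSet ∈ Y ↔ α.toZFSet ∈ Z)} h1
  have h2 : ∀ b ∈ α.toZFSet, (b ∈ Y ↔ b ∈ Z) := by
    intro b hb
    obtain ⟨β, hβ, rfl⟩ := Ordinal.mem_toZFSet_iff.1 hb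
    by_contra h3
    exact hmin β h3 hβ
  have hα' : ¬ (α.toZFSet ∈ Y ↔ α.toZFSet ∈ Z) := hα
  by_cases h3 : α.toZFSet ∈ Y
  · right
    refine ⟨_, h3, fun h4 => hα' ⟨fun _ => h4, fun _ => h3⟩, fun b hb => (h2 b hb).symm⟩
  · left
    refine ⟨_, ?_, h3, h2⟩
    by_contra h4
    exact hα' ⟨fun h => absurd h h3, fun h => absurd h h4⟩

theorem Lx.asymm {Y Z : ZFSet.{u}} (hY : Y ⊆ l.toZFSet) (hZ : Z ⊆ l.toZFSet) (h : Lx Y Z)
    (h' : Lx Z Y) : False := Lx.irrefl (h.trans hZ hY h')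

/-- Finite sets of subsets of an ordinal have a least element. -/
theorem exists_Lx_min {P : Set ZFSet.{u}} (hP : P.Finite) (hne : P.Nonempty)
    (hsub : ∀ Y ∈ P, Y ⊆ l.toZFSet) : ∃ Y ∈ P, ∀ Z ∈ P, Z = Y ∨ Lx Y Z := by
  induction P, hP using Set.Finite.induction_on with
  | empty => exact absurd hne Set.not_nonempty_empty
  | @insert a s ha hs ih =>
    rcases s.eq_empty_or_nonempty with h | h
    · subst h
      refine ⟨a, Set.mem_insert _ _, fun Z hZ => ?_⟩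
      simp only [Set.mem_insert_iff, Set.mem_empty_iff_false, or_false] at hZ
      exact Or.inl hZ
    · obtain ⟨Y, hY, h1⟩ := ih h fun Y hY => hsub Y (Set.mem_insert_of_mem _ hY)
      have ha' := hsub a (Set.mem_insert _ _)
      have hY' := hsub Y (Set.mem_insert_of_mem _ hY)
      have hne : a ≠ Y := fun h => ha (h ▸ hY)
      rcases Lx.total ha' hY' hne with h2 | h2
      · refine ⟨a, Set.mem_insert _ _, fun Z hZ => ?_⟩
        rcases hZ with rfl | hZ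
        · exact Or.inl rfl
        · right
          rcases h1 Z hZ with rfl | h3
          · exact h2
          · exact h2.trans hY' (hsub Z (Set.mem_insert_of_mem _ hZ)) h3
      · refine ⟨Y, Set.mem_insert_of_mem _ hY, fun Z hZ => ?_⟩
        rcases hZ with rfl | hZ
        · exact Or.inr h2
        · exact h1 Z hZ

end Pool.Agent.H93.HM
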