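import Pool.Agent.H93.HM.Sel

/-!
A decreasing sequence of equivalence relations in `HOD`.
-/

set_option autoImplicit false
set_option linter.unusedVariables false

namespace Pool.Agent.H93.HM

open ZFSet Gss969 Pool.Agent.H310.HD

universe u

theorem OD_lev (ζ : Ordinal.{u}) : OD (V_ ζ) := by
  refine OD_def (R := fun y x => LevOf y (x 0)) ?_ [ζ.toZFSet] ?_ fun y => ?_
  · exact (dfn_LevOf _ _).mono Gd_Lvl
  · intro p hp
    rw [List.mem_singleton] at hp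
    rw [hp]
    exact OD_ord ζ
  · exact levOf_iff

theorem OD_prod {x : ZFSet.{u}} (hx : OD x) : OD (prod x x) := by
  refine OD_def (R := fun y x => (∀ p ∈ y, ∃ a ∈ x 0, ∃ b ∈ x 0, p = pair a b) ∧
    ∀ a ∈ x 0, ∀ b ∈ x 0, pair a b ∈ y) ?_ [x] ?_ fun y => ?_
  · repeat' first
      | exact dfn_pm Gd_Trs _ _ _ | exact dfn_pair Gd_Trs _ _ _
      | refine Dfn.and ?_ ?_ | refine Dfn.ball Gd_Trs _ ?_ | refine Dfn.bex Gd_Trs _ ?_
  · intro p hp
    rw [List.mem_singleton] at hp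
    rw [hp]
    exact hx
  · show ((∀ p ∈ y, ∃ a ∈ x, ∃ b ∈ x, p = pair a b) ∧ ∀ a ∈ x, ∀ b ∈ x, pair a b ∈ y) ↔ _
    constructor
    · rintro ⟨h1, h2⟩
      ext p
      rw [mem_prod]
      constructor
      · intro hp
        obtain ⟨a, ha, b, hb, h⟩ := h1 p hp
        exact ⟨a, ha, b, hb, h⟩
      · rintro ⟨a, ha, b, hb, rfl⟩
        exact h2 a ha b hb
    · rintro rfl
      refine ⟨fun p hp => ?_, fun a ha b hb => pair_mem_prod.2 ⟨ha, hb⟩⟩
      obtain ⟨a, ha, b, hb, h⟩ := mem_prod.1 hp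
      exact ⟨a, ha, b, hb, h⟩

theorem OD_pow {x : ZFSet.{u}} (hx : OD x) : OD (powerset x) := by
  refine OD_def (R := fun y x => (∀ z ∈ y, z ⊆ x 0) ∧ ∀ z, z ⊆ x 0 → z ∈ y) ?_ [x] ?_ fun y => ?_
  · refine Dfn.and (Dfn.ball Gd_Trs _ (dfn_sub Gd_Trs _ _)) (Dfn.allsub Gd_Lvl _ (Dfn.mem _ _))
  · intro p hp
    rw [List.mem_singleton] at hp
    rw [hp]
    exact hx
  · show ((∀ z ∈ y, z ⊆ x) ∧ ∀ z, z ⊆ x → z ∈ y) ↔ _
    constructor
    · rintro ⟨h1, h2⟩
      ext z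
      rw [mem_powerset]
      exact ⟨h1 z, h2 z⟩
    · rintro rfl
      exact ⟨fun z hz => mem_powerset.1 hz, fun z hz => mem_powerset.2 hz⟩

theorem dfn_DfQ (a b c d : ℕ) :
    Dfn Lvl.{u} (fun v => DfP (v a) (pair (v b) (v c)) (v d)) := by
  refine Dfn.congr (A := fun v => ∃ p, p = pair (v b) (v c) ∧ DfP (v a) p (v d)) (Dfn.ex ?_ ?_)
    fun v => ?_
  · exact (dfn_pair Lvl_sub_Trs _ _ _).and (dfn_DfP _ _ _)
  · rintro U hU v hv ⟨p, h1, h2⟩
    exact ⟨p, h1 ▸ Lvl_pair hU (hv b) (hv c), h1, h2⟩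
  · constructor
    · rintro ⟨p, rfl, h⟩
      exact h
    · intro h
      exact ⟨_, rfl, h⟩

/-- The sequence of relations: `a` and `b` are equivalent at stage `γ` if they belong to the same
subsets of `L` which are definable over `U` from an earlier relation and `e`. -/
noncomputable def rsq (L S U e : ZFSet.{u}) (γ : Ordinal.{u}) : ZFSet.{u} :=
  ZFSet.sep (fun p => ∃ a b, p = pair a b ∧ a ∈ S ∧ b ∈ S ∧ ∀ γ' : Ordinal.{u}, (h : γ' < γ) →
    ∀ Y, Y ⊆ L → DfP U (pair (rsq L S U e γ') e) Y → (a ∈ Y ↔ b ∈ Y)) (prod L L)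
termination_by γ
decreasing_by exact h

variable {L S U e : ZFSet.{u}}

theorem rsq_sub (γ : Ordinal.{u}) : rsq L S U e γ ⊆ prod L L := by
  intro p hp
  rw [rsq, mem_sep] at hp
  exact hp.1

theorem mem_rsq (hS : S ⊆ L) {γ : Ordinal.{u}} {a b : ZFSet.{u}} :
    pair a b ∈ rsq L S U e γ ↔ a ∈ S ∧ b ∈ S ∧ ∀ γ' < γ, ∀ Y, Y ⊆ L →
      DfP U (pair (rsq L S U e γ') e) Y → (a ∈ Y ↔ b ∈ Y) := by
  rw [rsq, mem_sep, pair_mem_prod]
  constructor
  · rintro ⟨_, a', b', h1, h2⟩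
    rw [pair_inj] at h1
    obtain ⟨rfl, rfl⟩ := h1
    exact h2
  · intro h
    exact ⟨⟨hS h.1, hS h.2.1⟩, a, b, rfl, h⟩

/-- The recursive definition of the sequence of relations. -/
def Rec1 (y k T L S U e : ZFSet.{u}) : Prop :=
  IsFunc k T y ∧ ∀ i ∈ k, ∀ R ∈ T, pair i R ∈ y → ∀ a ∈ L, ∀ b ∈ L, (pair a b ∈ R ↔
    (a ∈ S ∧ (b ∈ S ∧ ∀ j ∈ i, ∀ R' ∈ T, pair j R' ∈ y → ∀ Y, Y ⊆ L →
      (DfP U (pair R' e) Y → (a ∈ Y ↔ b ∈ Y)))))

theorem dfn_Rec1 : Dfn Gd.{u} (fun v => Rec1 (v 0) (v 1) (v 2) (v 3) (v 4) (v 5) (v 6)) := by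
  unfold Rec1
  repeat' first
    | exact Dfn.mem _ _ | exact dfn_pm Gd_Trs _ _ _ | exact dfn_isFunc Gd_Trs _ _ _
    | exact (dfn_DfQ _ _ _ _).mono Gd_Lvl
    | refine Dfn.and ?_ ?_ | refine Dfn.iff ?_ ?_ | refine Dfn.allsub Gd_Lvl _ ?_
    | refine Dfn.ball Gd_Trs _ ?_ | refine Dfn.bex Gd_Trs _ ?_ | refine Dfn.imp ?_ ?_

theorem rec1_unique {k T L S U e y y' : ZFSet.{u}} (hk : k.IsOrdinal)
    (hT : ∀ R ∈ T, R ⊆ prod L L) (h : Rec1 y k T L S U e)
    (h' : Rec1 y' k T L S U e) : y = y' := by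
  obtain ⟨hf, h1⟩ := h
  obtain ⟨hf', h1'⟩ := h'
  obtain ⟨κ, rfl⟩ : ∃ κ : Ordinal.{u}, k = κ.toZFSet := ⟨rank k, hk.toZFSet_rank_eq.symm⟩
  have key : ∀ i < κ, app y i.toZFSet = app y' i.toZFSet := by
    intro i
    induction i using WellFoundedLT.induction with
    | ind i ih =>
      intro hi
      have hi' := tz_mem.2 hi
      have m1 := app_mem hf hi'
      have m2 := app_mem hf' hi'
      have s1 := h1 _ hi' _ m1 (app_spec hf hi')
      have s2 := h1' _ hi' _ m2 (app_spec hf' hi')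
      have e1 : ∀ a ∈ L, ∀ b ∈ L, (pair a b ∈ app y i.toZFSet ↔ pair a b ∈ app y' i.toZFSet) := by
        intro a ha b hb
        rw [s1 a ha b hb, s2 a ha b hb]
        refine and_congr_right fun _ => and_congr_right fun _ => forall₂_congr fun j hj => ?_
        obtain ⟨j, hj', rfl⟩ := Ordinal.mem_toZFSet_iff.1 hj
        have hjk := tz_mem.2 (hj'.trans hi)
        refine forall₂_congr fun R' hR' => ?_
        rw [app_iff hf hjk, app_iff hf' hjk, ih j hj' (hj'.trans hi)]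
      ext p
      constructor
      · intro hp
        obtain ⟨a, ha, b, hb, rfl⟩ := mem_prod.1 (hT _ m1 hp)
        exact (e1 a ha b hb).1 hp
      · intro hp
        obtain ⟨a, ha, b, hb, rfl⟩ := mem_prod.1 (hT _ m2 hp)
        exact (e1 a ha b hb).2 hp
  refine func_ext hf hf' fun x hx => ?_
  obtain ⟨i, hi, rfl⟩ := Ordinal.mem_toZFSet_iff.1 hx
  exact key i hi

theorem rec1_rsq (hS : S ⊆ L) (k : Ordinal.{u}) :
    Rec1 (gr k.toZFSet fun i => rsq L S U e (rank i)) k.toZFSet (powerset (prod L L)) L S U e := by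
  have hf : IsFunc k.toZFSet (powerset (prod L L)) (gr k.toZFSet fun i => rsq L S U e (rank i)) :=
    isFunc_gr fun x _ => mem_powerset.2 (rsq_sub _)
  refine ⟨hf, fun i hi R hR hiR a ha b hb => ?_⟩
  obtain ⟨i, hi', rfl⟩ := Ordinal.mem_toZFSet_iff.1 hi
  rw [pair_mem_gr, Ordinal.rank_toZFSet] at hiR
  rw [← hiR.2, mem_rsq hS]
  refine and_congr_right fun _ => and_congr_right fun _ => ?_
  constructor
  · intro h j hj R' hR' hjR' Y hY hd
    obtain ⟨j, hj', rfl⟩ := Ordinal.mem_toZFSet_iff.1 hj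
    rw [pair_mem_gr, Ordinal.rank_toZFSet] at hjR'
    rw [← hjR'.2] at hd
    exact h j hj' Y hY hd
  · intro h j hj Y hY hd
    refine h _ (tz_mem.2 hj) _ (mem_powerset.2 (rsq_sub j)) ?_ Y hY hd
    rw [pair_mem_gr, Ordinal.rank_toZFSet]
    exact ⟨tz_mem.2 (hj.trans hi'), rfl⟩

/-- The relations belong to `HOD`. -/
theorem HOD_rsq {l : Ordinal.{u}} (hL : L = l.toZFSet) (hS : S ⊆ L) (hSO : OD S) (hU : OD U)
    (he : OD e) (γ : Ordinal.{u}) : HOD (rsq L S U e γ) := by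
  have hLO : OD L := by rw [hL]; exact OD_ord l
  have hT := OD_pow (OD_prod hLO)
  have h1 : OD (gr (Order.succ γ).toZFSet fun i => rsq L S U e (rank i)) := by
    refine OD_def (R := fun y x => Rec1 y (x 0) (x 1) (x 2) (x 3) (x 4) (x 5)) dfn_Rec1
      [(Order.succ γ).toZFSet, powerset (prod L L), L, S, U, e] ?_ fun y => ?_
    · intro p hp
      simp only [List.mem_cons, List.not_mem_nil, or_false] at hp
      rcases hp with rfl | rfl | rfl | rfl | rfl | rfl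
      · exact OD_ord _
      · exact hT
      · exact hLO
      · exact hSO
      · exact hU
      · exact he
    · show Rec1 y (Order.succ γ).toZFSet (powerset (prod L L)) L S U e ↔ _
      constructor
      · intro h
        exact rec1_unique (isOrdinal_toZFSet _) (fun R hR => mem_powerset.1 hR) h (rec1_rsq hS _)
      · rintro rfl
        exact rec1_rsq hS _
  have hsub : ∀ γ' : Ordinal.{u}, ∀ p ∈ rsq L S U e γ', HOD p := by
    intro γ' p hp
    obtain ⟨a, ha, b, hb, rfl⟩ := mem_prod.1 (rsq_sub γ' hp)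
    rw [hL] at ha hb
    obtain ⟨a, _, rfl⟩ := Ordinal.mem_toZFSet_iff.1 ha
    obtain ⟨b, _, rfl⟩ := Ordinal.mem_toZFSet_iff.1 hb
    exact HOD_pair (HOD_ord a) (HOD_ord b)
  refine HOD_of_sub ?_ (hsub γ)
  refine OD_def (R := fun y x => y ∈ x 2 ∧ pair (x 0) y ∈ x 1) ?_
    [γ.toZFSet, gr (Order.succ γ).toZFSet fun i => rsq L S U e (rank i), powerset (prod L L)] ?_
    fun y => ?_
  · exact (Dfn.mem _ _).and (dfn_pm Gd_Trs _ _ _)
  · intro p hp
    simp only [List.mem_cons, List.not_mem_nil, or_false] at hp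
    rcases hp with rfl | rfl | rfl
    · exact OD_ord _
    · exact h1
    · exact hT
  · show (y ∈ powerset (prod L L) ∧ pair γ.toZFSet y ∈ gr (Order.succ γ).toZFSet fun i =>
      rsq L S U e (rank i)) ↔ _
    rw [pair_mem_gr, Ordinal.rank_toZFSet]
    constructor
    · rintro ⟨_, _, h⟩
      exact h.symm
    · rintro rfl
      exact ⟨mem_powerset.2 (rsq_sub γ), tz_mem.2 (Order.lt_succ γ), rfl⟩

end Pool.Agent.H93.HM
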