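import Pool.Agent.H93.HM.Par

/-!
If there is a set in `HOD` with a definable property, then there is one which is definable without
ordinal parameters over a suitable level.
-/

set_option autoImplicit false
set_option linter.unusedVariables false

namespace Pool.Agent.H93.HM

open ZFSet Gss969 Pool.Agent.H310.HD

universe u

/-- A block of `m` quantifiers bounded by `v z`. -/
theorem Dfn_blkG {𝒰 : Set ZFSet.{u}} (ht : 𝒰 ⊆ Trs) (m : ℕ) :
    ∀ (z : ℕ) {C : (ℕ → ZFSet.{u}) → (ℕ → ZFSet.{u}) → Prop},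
    Dfn 𝒰 (fun w => C w (fun n => w (n + m))) →
    Dfn 𝒰 (fun v => ∃ p : ℕ → ZFSet.{u}, (∀ i < m, p i ∈ v z) ∧
      (∀ i, p (i + m) = v i) ∧ C p v) := by
  induction m with
  | zero =>
    intro z C h
    refine Dfn.congr (A := fun v => C v v) h fun v => ?_
    constructor
    · intro h1
      exact ⟨v, fun i hi => absurd hi (Nat.not_lt_zero i), fun i => rfl, h1⟩
    · rintro ⟨p, _, h1, h2⟩
      have : p = v := by funext i; exact h1 i
      rwa [this] at h2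
  | succ m ih =>
    intro z C h
    have h1 := ih (z + 1) (C := fun p v => C p (fun n => v (n + 1))) (by
      refine h.congr fun w => ?_
      have : (fun n => w (n + (m + 1))) = fun n => w (n + 1 + m) := by
        funext n
        congr 1
        omega
      rw [this])
    refine Dfn.congr (A := fun v => ∃ a ∈ v z, ∃ p : ℕ → ZFSet.{u}, (∀ i < m, p i ∈ v z) ∧
      (p m = a ∧ ∀ i, p (i + (m + 1)) = v i) ∧ C p v) (Dfn.bex ht z ?_) fun v => ?_
    · refine h1.congr fun w => exists_congr fun p => and_congr_right fun _ =>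
        and_congr_left fun _ => ?_
      constructor
      · intro h2
        refine ⟨?_, fun i => ?_⟩
        · have := h2 0
          simpa using this
        · show p (i + (m + 1)) = w (i + 1)
          rw [← h2 (i + 1)]
          congr 1
          omega
      · rintro ⟨h2, h3⟩ i
        rcases i with _ | i
        · simpa using h2
        · have h4 : p (i + (m + 1)) = w (i + 1) := h3 i
          rw [← h4]
          congr 1
          omega
    · constructor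
      · rintro ⟨a, ha, p, h2, ⟨h3, h4⟩, h5⟩
        refine ⟨p, fun i hi => ?_, h4, h5⟩
        rcases Nat.lt_succ_iff_lt_or_eq.1 hi with h6 | h6
        · exact h2 i h6
        · rw [h6, h3]; exact ha
      · rintro ⟨p, h2, h3, h4⟩
        exact ⟨p m, h2 m (Nat.lt_succ_self m), p, fun i hi => h2 i (hi.trans (Nat.lt_succ_self m)),
          ⟨rfl, h3⟩, h4⟩

theorem dfn_asgG {𝒰 : Set ZFSet.{u}} {A : (ℕ → ZFSet.{u}) → Prop} (h : Dfn 𝒰 A)
    (a b c d e f : ℕ) :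
    Dfn 𝒰 (fun v => A (asg (v a) (v b) (v c) (v d) (v e) (v f))) := by
  refine (Dfn_reindex h (fun n => Nat.casesOn n a fun n => Nat.casesOn n b fun n =>
    Nat.casesOn n c fun n => Nat.casesOn n d fun n => Nat.casesOn n e fun _ => f)).congr
    fun v => ?_
  have : (fun n => v (Nat.casesOn n a fun n => Nat.casesOn n b fun n =>
    Nat.casesOn n c fun n => Nat.casesOn n d fun n => Nat.casesOn n e fun _ => f)) =
      asg (v a) (v b) (v c) (v d) (v e) (v f) := by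
    funext n
    rcases n with _ | n
    · rfl
    rcases n with _ | n
    · rfl
    rcases n with _ | n
    · rfl
    rcases n with _ | n
    · rfl
    rcases n with _ | n
    · rfl
    · rfl
  rw [this]

variable {Ψ : ZFSet.{u} → ZFSet.{u} → ZFSet.{u} → Prop}

/-- A smaller tuple defines a set with the property. -/
def InnS (Ψ : ZFSet.{u} → ZFSet.{u} → ZFSet.{u} → Prop) (φ : Fml) (m : ℕ)
    (w : ℕ → ZFSet.{u}) : Prop :=
  ∃ p : ℕ → ZFSet.{u}, (∀ i < m, p i ∈ w (3 + m)) ∧ (∀ i, p (i + m) = w i) ∧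
    ∃ z, z ⊆ w (2 + m) ∧ (Ψ z (w (1 + m)) (w (2 + m)) ∧ (Def φ z p ∧ LexLt m p w))

theorem dfn_InnS (hΨ : Dfn Gd.{u} (fun v => Ψ (v 0) (v 1) (v 2))) (φ : Fml) (m : ℕ) :
    Dfn Gd.{u} (fun w => InnS Ψ φ m w) := by
  refine Dfn_blkG Gd_Trs m (3 + m) (C := fun p w => ∃ z, z ⊆ w (2 + m) ∧
    (Ψ z (w (1 + m)) (w (2 + m)) ∧ (Def φ z p ∧ LexLt m p w))) ?_
  refine Dfn.exsub Gd_Lvl _ (Dfn.and ?_ (Dfn.and ?_ ?_))
  · exact Dfn_reindex hΨ (fun n => if n = 0 then 0 else if n = 1 then 1 + m + m + 1 else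
      2 + m + m + 1)
  · exact (dfn_Def φ 0 (fun n => n + 1)).mono Gd_Lvl
  · exact (dfn_LexLt m (fun n => n + 1) (fun n => n + m + 1)).mono Gd_Lvl

/-- `e 0` is the set with the property which is defined by the least tuple. -/
def OutS (Ψ : ZFSet.{u} → ZFSet.{u} → ZFSet.{u} → Prop) (φ : Fml) (m : ℕ)
    (e : ℕ → ZFSet.{u}) : Prop :=
  ∃ p : ℕ → ZFSet.{u}, (∀ i < m, p i ∈ e 3) ∧ (∀ i, p (i + m) = e i) ∧
    (e 0 ⊆ e 2 ∧ (Ψ (e 0) (e 1) (e 2) ∧ (Def φ (e 0) p ∧ ¬ InnS Ψ φ m p)))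

theorem dfn_OutS (hΨ : Dfn Gd.{u} (fun v => Ψ (v 0) (v 1) (v 2))) (φ : Fml) (m : ℕ) :
    Dfn Gd.{u} (fun e => OutS Ψ φ m e) := by
  refine Dfn_blkG Gd_Trs m 3 (C := fun p e => e 0 ⊆ e 2 ∧ (Ψ (e 0) (e 1) (e 2) ∧
    (Def φ (e 0) p ∧ ¬ InnS Ψ φ m p))) ?_
  refine (dfn_sub Gd_Trs _ _).and (Dfn.and ?_ (Dfn.and ?_ ?_))
  · exact Dfn_reindex hΨ (fun n => if n = 0 then 0 + m else if n = 1 then 1 + m else 2 + m)
  · exact (dfn_Def φ (0 + m) (fun n => n)).mono Gd_Lvl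
  · exact (dfn_InnS hΨ φ m).not

/-- The tuples which define a set with the property. -/
def QS (Ψ : ZFSet.{u} → ZFSet.{u} → ZFSet.{u} → Prop) (φ : Fml) (m : ℕ) (ρ : Ordinal.{u})
    (R l : ZFSet.{u}) (q : ℕ → Ordinal.{u}) : Prop :=
  (∀ i < m, q i < ρ) ∧ ∃ x, x ⊆ l ∧ Ψ x R l ∧ Def φ x (fun i => (q i).toZFSet)

theorem outS_iff {φ : Fml} {m : ℕ} (hm : m = bd φ + 1) {ρ : Ordinal.{u}} {R l : ZFSet.{u}}
    {q : ℕ → Ordinal.{u}} (hq : ∀ i < m, q i < ρ)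
    (hmin : ∀ q', QS Ψ φ m ρ R l q' → ¬ ∃ i < m, q' i < q i ∧ ∀ k < i, q' k = q k)
    {x : ZFSet.{u}} (hxl : x ⊆ l) (hx : Ψ x R l)
    (hx' : Def φ x (fun i => (q i).toZFSet)) (y : ZFSet.{u}) (e : ℕ → ZFSet.{u})
    (e0 : e 0 = y) (e1 : e 1 = R) (e2 : e 2 = l) (e3 : e 3 = ρ.toZFSet) :
    OutS Ψ φ m e ↔ y = x := by
  have hordp : ∀ p : ℕ → ZFSet.{u}, (∀ i < m, p i ∈ ρ.toZFSet) →
      ∀ i < m, (rank (p i)).toZFSet = p i ∧ rank (p i) < ρ := by
    intro p hp i hi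
    obtain ⟨β, hβ, h⟩ := Ordinal.mem_toZFSet_iff.1 (hp i hi)
    rw [← h, Ordinal.rank_toZFSet]
    exact ⟨rfl, hβ⟩
  have hQp : ∀ p : ℕ → ZFSet.{u}, (∀ i < m, p i ∈ ρ.toZFSet) → ∀ z, z ⊆ l →
      Ψ z R l → Def φ z p →
      Def φ z (fun i => (rank (p i)).toZFSet) ∧ QS Ψ φ m ρ R l (fun i => rank (p i)) := by
    intro p hp z hzl hz hd
    have h1 : Def φ z (fun i => (rank (p i)).toZFSet) :=
      (Def.congr fun i hi => ((hordp p hp i (by omega)).1).symm).1 hd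
    exact ⟨h1, fun i hi => (hordp p hp i hi).2, z, hzl, hz, h1⟩
  constructor
  · rintro ⟨p, hp, hpe, hzl, hz, hd, hI⟩
    rw [e3] at hp
    rw [e0, e1, e2] at hz
    rw [e0, e2] at hzl
    rw [e0] at hd
    obtain ⟨h1, h2⟩ := hQp p hp y hzl hz hd
    have h3 : ∀ i < m, q i = rank (p i) := by
      refine lex_trichotomy ?_ (hmin _ h2)
      rintro ⟨i, hi, h3, h4⟩
      refine hI ⟨mrg m (fun j => (q j).toZFSet) p, ?_, fun j => mrg_add j, x, ?_, ?_, ?_, ?_⟩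
      · intro j hj
        rw [mrg_lt hj, hpe, e3]
        exact tz_mem.2 (hq j hj)
      · rw [hpe, e2]; exact hxl
      · rw [hpe, hpe, e1, e2]
        exact hx
      · exact (Def.congr fun j hj => (mrg_lt (by omega)).symm).1 hx'
      · refine ⟨i, hi, ?_, fun k hk => ?_⟩
        · rw [mrg_lt hi, ← (hordp p hp i hi).1]
          exact tz_mem.2 h3
        · rw [mrg_lt (hk.trans hi), h4 k hk, (hordp p hp k (hk.trans hi)).1]
    refine h1.unique ((Def.congr fun j hj => ?_).1 hx')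
    rw [h3 j (by omega)]
  · intro hyx
    subst hyx
    refine ⟨mrg m (fun j => (q j).toZFSet) e, ?_, fun j => mrg_add j, ?_, ?_, ?_, ?_⟩
    · intro j hj
      rw [mrg_lt hj, e3]
      exact tz_mem.2 (hq j hj)
    · rw [e0, e2]; exact hxl
    · rw [e0, e1, e2]; exact hx
    · rw [e0]; exact (Def.congr fun j hj => (mrg_lt (by omega)).symm).1 hx'
    · rintro ⟨p, hp, hpe, z, hzl, hz, hd, i, hi, h5, h6⟩
      rw [mrg_add, e3] at hp
      rw [mrg_add, mrg_add, e1, e2] at hz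
      rw [mrg_add, e2] at hzl
      obtain ⟨h1, h2⟩ := hQp p hp z hzl hz hd
      refine hmin _ h2 ⟨i, hi, ?_, fun k hk => ?_⟩
      · rw [mrg_lt hi, ← (hordp p hp i hi).1] at h5
        exact tz_mem.1 h5
      · have h7 := h6 k hk
        rw [mrg_lt (hk.trans hi)] at h7
        show rank (p k) = q k
        rw [h7, Ordinal.rank_toZFSet]

/-- **Selection.** -/
theorem exists_sel (hΨ : Dfn Gd.{u} (fun v => Ψ (v 0) (v 1) (v 2))) {U : ZFSet.{u}} (hU : U ∈ Gd)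
    {R l : ZFSet.{u}} {ρ : Ordinal.{u}} (hR : R ∈ U) (hl : l ∈ U) (hρ : ρ.toZFSet ∈ U)
    (hb : ∀ z, z ⊆ l → HOD z → ∃ (φ : Fml) (q : ℕ → Ordinal.{u}),
      Def φ z (fun i => (q i).toZFSet) ∧ ∀ i, q i < ρ)
    (h : ∃ z, z ⊆ l ∧ HOD z ∧ Ψ z R l) :
    ∃ z, z ⊆ l ∧ Ψ z R l ∧ DfP U (pair R (pair l ρ.toZFSet)) z := by
  obtain ⟨z₀, hz₀l, hz₀, hz₀Ψ⟩ := h
  obtain ⟨φ, q₀, hd₀, hq₀⟩ := hb z₀ hz₀l hz₀
  obtain ⟨m, hm⟩ : ∃ m, m = bd φ + 1 := ⟨_, rfl⟩
  obtain ⟨q, hq, hmin⟩ := exists_lexmin (P := QS Ψ φ m ρ R l)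
    ⟨q₀, fun i _ => hq₀ i, z₀, hz₀l, hz₀Ψ, hd₀⟩ m
  obtain ⟨hq1, x, hxl, hx, hx'⟩ := hq
  refine ⟨x, hxl, hx, ?_⟩
  refine DfP_of (A := fun y d => ∃ R e, d = pair R e ∧ ∃ l r, e = pair l r ∧
    OutS Ψ φ m (asg y R l r r r)) ?_ hU ?_ (Lvl_sub hU.1 hl hxl) ?_
  · refine Dfn_unpair Gd_Trs 1 (A := fun R e v => ∃ l r, e = pair l r ∧
      OutS Ψ φ m (asg (v 0) R l r r r)) ?_
    refine Dfn_unpair Gd_Trs 0 (A := fun l r w => OutS Ψ φ m (asg (w 2) (w 1) l r r r)) ?_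
    exact dfn_asgG (dfn_OutS hΨ φ m) 4 3 1 0 0 0
  · exact Lvl_pair hU.1 hR (Lvl_pair hU.1 hl hρ)
  · intro y hy
    constructor
    · rintro ⟨R', e', h1, l', r', h2, h3⟩
      rw [pair_inj] at h1
      obtain ⟨rfl, h1⟩ := h1
      rw [← h1, pair_inj] at h2
      obtain ⟨rfl, rfl⟩ := h2
      exact (outS_iff hm hq1 hmin hxl hx hx' y _ rfl rfl rfl rfl).1 h3
    · intro h1
      exact ⟨R, _, rfl, l, _, rfl, (outS_iff hm hq1 hmin hxl hx hx' y _ rfl rfl rfl rfl).2 h1⟩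

/-- A bound for the parameters in the definitions of the subsets of a set. -/
theorem exists_rho (l : ZFSet.{u}) : ∃ ρ : Ordinal.{u}, ∀ z, z ⊆ l → HOD z →
    ∃ (φ : Fml) (q : ℕ → Ordinal.{u}), Def φ z (fun i => (q i).toZFSet) ∧ ∀ i, q i < ρ := by
  classical
  have h : ∀ z : ZFSet.{u}, ∃ (φ : Fml) (q : ℕ → Ordinal.{u}), HOD z →
      Def φ z (fun i => (q i).toZFSet) ∧ ∀ i, q i ≤ q 0 := by
    intro z
    by_cases hz : HOD z
    · obtain ⟨φ, q, h1, h2⟩ := hz.od.exists_def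
      exact ⟨φ, q, fun _ => ⟨h1, h2⟩⟩
    · exact ⟨.eq 0 0, fun _ => 0, fun h => absurd h hz⟩
  choose φ q hq using h
  refine ⟨⨆ w : {w // w ∈ powerset l}, Order.succ (q w.1 0), fun z hz hh => ?_⟩
  refine ⟨φ z, q z, (hq z hh).1, fun i => ((hq z hh).2 i).trans_lt ?_⟩
  refine (Order.lt_succ (q z 0)).trans_le ?_
  exact Ordinal.le_iSup (fun w : {w // w ∈ powerset l} => Order.succ (q w.1 0))
    ⟨z, mem_powerset.2 hz⟩

end Pool.Agent.H93.HM
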