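import Pool.Agent.H93.HM.Base

/-!
Separation and families in `HOD`, and substitution lemmas for the calculus of definable relations.
-/

set_option autoImplicit false
set_option linter.unusedVariables false

namespace Pool.Agent.H93.HM

open ZFSet Gss969 Pool.Agent.H310.HD

universe u

theorem pl_cons_zero (a : ZFSet.{u}) (l : List ZFSet.{u}) : pl (a :: l) 0 = a := rfl

theorem pl_cons_succ (a : ZFSet.{u}) (l : List ZFSet.{u}) :
    (fun n => pl (a :: l) (n + 1)) = pl l := rfl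

/-- Decoding of a pair. -/
theorem Dfn_unpair {𝒰 : Set ZFSet.{u}} (ht : 𝒰 ⊆ Trs) (i : ℕ)
    {A : ZFSet.{u} → ZFSet.{u} → (ℕ → ZFSet.{u}) → Prop}
    (h : Dfn 𝒰 (fun w => A (w 1) (w 0) (fun n => w (n + 2)))) :
    Dfn 𝒰 (fun v => ∃ a b, v i = pair a b ∧ A a b v) := by
  have hmem : ∀ {U a b : ZFSet.{u}}, U ∈ 𝒰 → pair a b ∈ U → a ∈ U ∧ b ∈ U := by
    intro U a b hU hp
    have h1 : ({a, b} : ZFSet.{u}) ∈ U := (ht hU).mem_trans (by simp [pair]) hp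
    exact ⟨(ht hU).mem_trans (by simp) h1, (ht hU).mem_trans (by simp) h1⟩
  refine Dfn.ex (A := fun a v => ∃ b, v i = pair a b ∧ A a b v) (Dfn.ex ?_ ?_) ?_
  · exact Dfn.and (dfn_pair ht _ _ _) h
  · rintro U hU v hv ⟨b, h1, h2⟩
    have h3 : v (i + 1) = pair (v 0) b := h1
    exact ⟨b, (hmem hU (h3 ▸ hv (i + 1))).2, h1, h2⟩
  · rintro U hU v hv ⟨a, b, h1, h2⟩
    exact ⟨a, (hmem hU (h1 ▸ hv i)).1, b, h1, h2⟩

/-- Separation in `HOD`. -/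
theorem HOD_sepG {A : ZFSet.{u} → (ℕ → ZFSet.{u}) → Prop}
    (hA : Dfn Gd.{u} (fun v => A (v 0) (fun n => v (n + 1)))) {T : ZFSet.{u}} (hT : HOD T)
    (ps : List ZFSet.{u}) (hps : ∀ p ∈ ps, OD p) : HOD (ZFSet.sep (fun z => A z (pl ps)) T) := by
  refine HOD_def (R := fun y x => (∀ z ∈ y, z ∈ x 0 ∧ A z (fun n => x (n + 1))) ∧
    ∀ z ∈ x 0, A z (fun n => x (n + 1)) → z ∈ y) ?_ (T :: ps) ?_ (fun y => ?_)
    fun z hz => hT.mem (mem_sep.1 hz).1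
  · have h1 : Dfn Gd.{u} (fun v => A (v 0) (fun n => v (n + 3))) :=
      Dfn_reindex hA (fun n => if n = 0 then 0 else n + 2)
    refine Dfn.and (Dfn.ball Gd_Trs _ ((Dfn.mem _ _).and h1)) (Dfn.ball Gd_Trs _ (Dfn.imp h1
      (Dfn.mem _ _)))
  · intro p hp
    rcases List.mem_cons.1 hp with rfl | hp
    · exact hT.od
    · exact hps p hp
  · show (∀ z ∈ y, z ∈ T ∧ A z (pl ps)) ∧ (∀ z ∈ T, A z (pl ps) → z ∈ y) ↔ _
    constructor
    · rintro ⟨h1, h2⟩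
      ext z
      rw [mem_sep]
      exact ⟨h1 z, fun h => h2 z h.1 h.2⟩
    · rintro rfl
      exact ⟨fun z hz => mem_sep.1 hz, fun z h1 h2 => mem_sep.2 ⟨h1, h2⟩⟩

/-- Families of sets in `HOD`. -/
theorem HOD_grG {A : ZFSet.{u} → ZFSet.{u} → (ℕ → ZFSet.{u}) → Prop}
    (hA : Dfn Gd.{u} (fun v => A (v 0) (v 1) (fun n => v (n + 2)))) {D T : ZFSet.{u}}
    (hD : HOD D) (hT : HOD T) (ps : List ZFSet.{u}) (hps : ∀ p ∈ ps, OD p) :
    HOD (gr D fun i => ZFSet.sep (fun z => A z i (pl ps)) T) := by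
  refine HOD_def (R := fun y x => (∀ p ∈ y, ∃ i ∈ x 0, ∃ Z, Z ⊆ x 1 ∧
      ((∀ z ∈ x 1, (z ∈ Z ↔ A z i (fun n => x (n + 2)))) ∧ p = pair i Z)) ∧
    ∀ i ∈ x 0, ∃ Z, Z ⊆ x 1 ∧
      ((∀ z ∈ x 1, (z ∈ Z ↔ A z i (fun n => x (n + 2)))) ∧ pair i Z ∈ y)) ?_ (D :: T :: ps) ?_
    (fun y => ?_) fun z hz => ?_
  · refine Dfn.and ?_ ?_
    · refine Dfn.ball Gd_Trs _ (Dfn.bex Gd_Trs _ (Dfn.exsub Gd_Lvl _ (Dfn.and
        (Dfn.ball Gd_Trs _ (Dfn.iff (Dfn.mem _ _) ?_)) (dfn_pair Gd_Trs _ _ _))))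
      exact Dfn_reindex hA (fun n => if n = 0 then 0 else if n = 1 then 2 else n + 5)
    · refine Dfn.ball Gd_Trs _ (Dfn.exsub Gd_Lvl _ (Dfn.and
        (Dfn.ball Gd_Trs _ (Dfn.iff (Dfn.mem _ _) ?_)) (dfn_pm Gd_Trs _ _ _)))
      exact Dfn_reindex hA (fun n => if n = 0 then 0 else if n = 1 then 2 else n + 4)
  · intro p hp
    rcases List.mem_cons.1 hp with rfl | hp
    · exact hD.od
    · rcases List.mem_cons.1 hp with rfl | hp
      · exact hT.od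
      · exact hps p hp
  · have hZ : ∀ i Z : ZFSet.{u}, Z ⊆ T → (∀ z ∈ T, (z ∈ Z ↔ A z i (pl ps))) →
        Z = ZFSet.sep (fun z => A z i (pl ps)) T := by
      intro i Z h1 h2
      ext z
      rw [mem_sep]
      exact ⟨fun h => ⟨h1 h, (h2 z (h1 h)).1 h⟩, fun h => (h2 z h.1).2 h.2⟩
    show ((∀ p ∈ y, ∃ i ∈ D, ∃ Z, Z ⊆ T ∧ ((∀ z ∈ T, (z ∈ Z ↔ A z i (pl ps))) ∧ p = pair i Z)) ∧
      ∀ i ∈ D, ∃ Z, Z ⊆ T ∧ ((∀ z ∈ T, (z ∈ Z ↔ A z i (pl ps))) ∧ pair i Z ∈ y)) ↔ _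
    constructor
    · rintro ⟨h1, h2⟩
      ext p
      rw [mem_gr]
      constructor
      · intro hp
        obtain ⟨i, hi, Z, hZ1, hZ2, rfl⟩ := h1 p hp
        exact ⟨i, hi, by rw [← hZ i Z hZ1 hZ2]⟩
      · rintro ⟨i, hi, rfl⟩
        obtain ⟨Z, hZ1, hZ2, h4⟩ := h2 i hi
        rw [hZ i Z hZ1 hZ2] at h4
        exact h4
    · rintro rfl
      constructor
      · intro p hp
        obtain ⟨i, hi, rfl⟩ := mem_gr.1 hp
        exact ⟨i, hi, _, fun z hz => (mem_sep.1 hz).1,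
          fun z hz => ⟨fun h => (mem_sep.1 h).2, fun h => mem_sep.2 ⟨hz, h⟩⟩, rfl⟩
      · intro i hi
        exact ⟨_, fun z hz => (mem_sep.1 hz).1,
          fun z hz => ⟨fun h => (mem_sep.1 h).2, fun h => mem_sep.2 ⟨hz, h⟩⟩,
          pair_mem_gr.2 ⟨hi, rfl⟩⟩
  · obtain ⟨i, hi, rfl⟩ := mem_gr.1 hz
    refine HOD_pair (hD.mem hi) ?_
    refine HOD_sepG (A := fun z x => A z (x 0) (fun n => x (n + 1))) ?_ hT (i :: ps) ?_
    · exact hA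
    · intro p hp
      rcases List.mem_cons.1 hp with rfl | hp
      · exact (hD.mem hi).od
      · exact hps p hp

end Pool.Agent.H93.HM
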